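import Pool.Agent.H13.FG.Basic

/-!
# MP_4c8b8e_co: FIRE-G8, arms of the length `m` around a set
-/

set_option autoImplicit false

open scoped BigOperators

namespace Pool.Agent.H13.FG

open Classical Pool.Agent.H3.FF CV TV

/-- the neighbourhood of a finite set of natural numbers -/
theorem g8_ext (T : Finset ℕ) (hT : T.Nonempty) (m : ℕ) (hm : ∀ t ∈ T, m ≤ t) :
    ∃ E : Finset ℕ, E.card = T.card + 2 * m ∧
      ∀ c ∈ E, ∃ t ∈ T, ∃ j ≤ m, c = t + j ∨ c = t - j := by
  have ha := T.min'_mem hT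
  have hb := T.max'_mem hT
  have ha' : ∀ t ∈ T, T.min' hT ≤ t := fun t ht => T.min'_le t ht
  have hb' : ∀ t ∈ T, t ≤ T.max' hT := fun t ht => T.le_max' t ht
  generalize T.min' hT = a at ha ha'
  generalize T.max' hT = b at hb hb'
  have h1 : Disjoint T (Finset.Ico (a - m) a) := by
    rw [Finset.disjoint_left]
    intro t ht ht'
    have := ha' t ht
    rw [Finset.mem_Ico] at ht'
    omega
  have h2 : Disjoint (T ∪ Finset.Ico (a - m) a) (Finset.Ioc b (b + m)) := by
    rw [Finset.disjoint_left]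
    intro t ht ht'
    rw [Finset.mem_Ioc] at ht'
    rw [Finset.mem_union, Finset.mem_Ico] at ht
    have h3 := ha' b hb
    rcases ht with ht | ht
    · have := hb' t ht
      omega
    · omega
  refine ⟨(T ∪ Finset.Ico (a - m) a) ∪ Finset.Ioc b (b + m), ?_, ?_⟩
  · rw [Finset.card_union_of_disjoint h2, Finset.card_union_of_disjoint h1, Nat.card_Ico,
      Nat.card_Ioc]
    have := hm a ha
    omega
  · intro c hc
    rw [Finset.mem_union, Finset.mem_union, Finset.mem_Ico, Finset.mem_Ioc] at hc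
    rcases hc with (hc | hc) | hc
    · exact ⟨c, hc, 0, by omega, Or.inl rfl⟩
    · exact ⟨a, ha, a - c, by omega, Or.inr (by omega)⟩
    · exact ⟨b, hb, c - b, by omega, Or.inl (by omega)⟩

/-- three projections of a finite set of the plane -/
theorem g8_proj (Q : Finset (ℕ × ℕ)) : 9 * Q.card ≤ ((Q.image Prod.snd).card +
    (Q.image Prod.fst).card + (Q.image fun p => p.1 + p.2).card) ^ 2 := by
  have c1 : Q.card ≤ (Q.image Prod.fst).card * (Q.image Prod.snd).card := by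
    rw [← Finset.card_product]
    refine Finset.card_le_card_of_injOn (fun p => (p.1, p.2)) ?_ ?_
    · intro p hp
      have e1 : p.1 ∈ Q.image Prod.fst := Finset.mem_image_of_mem _ hp
      have e2 : p.2 ∈ Q.image Prod.snd := Finset.mem_image_of_mem _ hp
      exact Finset.mem_coe.2 (Finset.mem_product.2 ⟨e1, e2⟩)
    · intro p _ p' _ h
      exact h
  have c2 : Q.card ≤ (Q.image Prod.fst).card * (Q.image fun p => p.1 + p.2).card := by
    rw [← Finset.card_product]
    refine Finset.card_le_card_of_injOn (fun p => (p.1, p.1 + p.2)) ?_ ?_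
    · intro p hp
      have e1 : p.1 ∈ Q.image Prod.fst := Finset.mem_image_of_mem _ hp
      have e2 : p.1 + p.2 ∈ Q.image fun p => p.1 + p.2 :=
        Finset.mem_image_of_mem (fun p => p.1 + p.2) hp
      exact Finset.mem_coe.2 (Finset.mem_product.2 ⟨e1, e2⟩)
    · intro p _ p' _ h
      have h' : (p.1, p.1 + p.2) = (p'.1, p'.1 + p'.2) := h
      obtain ⟨e1, e2⟩ := Prod.mk.inj h'
      exact Prod.ext e1 (by omega)
  have c3 : Q.card ≤ (Q.image Prod.snd).card * (Q.image fun p => p.1 + p.2).card := by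
    rw [← Finset.card_product]
    refine Finset.card_le_card_of_injOn (fun p => (p.2, p.1 + p.2)) ?_ ?_
    · intro p hp
      have e1 : p.2 ∈ Q.image Prod.snd := Finset.mem_image_of_mem _ hp
      have e2 : p.1 + p.2 ∈ Q.image fun p => p.1 + p.2 :=
        Finset.mem_image_of_mem (fun p => p.1 + p.2) hp
      exact Finset.mem_coe.2 (Finset.mem_product.2 ⟨e1, e2⟩)
    · intro p _ p' _ h
      have h' : (p.2, p.1 + p.2) = (p'.2, p'.1 + p'.2) := h
      obtain ⟨e1, e2⟩ := Prod.mk.inj h'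
      exact Prod.ext (by omega) e1
  generalize (Q.image Prod.snd).card = b at c1 c2 c3 ⊢
  generalize (Q.image Prod.fst).card = a at c1 c2 c3 ⊢
  generalize (Q.image fun p => p.1 + p.2).card = c at c1 c2 c3 ⊢
  generalize Q.card = n at c1 c2 c3 ⊢
  zify at c1 c2 c3 ⊢
  nlinarith [sq_nonneg ((a : ℤ) - b), sq_nonneg ((b : ℤ) - c), sq_nonneg ((a : ℤ) - c)]

theorem sarmA : SArmA := by
  intro K H _ _ S i Q m hQ hb ha
  obtain ⟨p0, hp0⟩ := hQ
  have h0 : ∀ p ∈ Q, ∀ j ≤ m, sq i (p.1 + j) p.2 ∉ S := fun p hp j hj => ha p hp 0 j hj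
  have h1 : ∀ p ∈ Q, ∀ j ≤ m, sq i (p.1 - j) p.2 ∉ S := fun p hp j hj => ha p hp 1 j hj
  have h2 : ∀ p ∈ Q, ∀ j ≤ m, sq i p.1 (p.2 + j) ∉ S := fun p hp j hj => ha p hp 2 j hj
  have h3 : ∀ p ∈ Q, ∀ j ≤ m, sq i p.1 (p.2 - j) ∉ S := fun p hp j hj => ha p hp 3 j hj
  obtain ⟨EX, hEX, hEX'⟩ := g8_ext (Q.image Prod.fst) ⟨_, Finset.mem_image_of_mem _ hp0⟩ m (by
    intro t ht
    obtain ⟨p, hp, rfl⟩ := Finset.mem_image.1 ht
    exact (hb p hp).1.le)
  obtain ⟨EY, hEY, hEY'⟩ := g8_ext (Q.image Prod.snd) ⟨_, Finset.mem_image_of_mem _ hp0⟩ m (by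
    intro t ht
    obtain ⟨p, hp, rfl⟩ := Finset.mem_image.1 ht
    exact (hb p hp).2.2.1.le)
  obtain ⟨ED, hED, hED'⟩ := g8_ext (Q.image fun p => p.1 + p.2)
    ⟨_, Finset.mem_image_of_mem _ hp0⟩ m (by
    intro t ht
    obtain ⟨p, hp, rfl⟩ := Finset.mem_image.1 ht
    have := (hb p hp).1
    omega)
  have hx : EY.card ≤ nx S i := by
    unfold nx
    refine Finset.card_le_card fun c hc => ?_
    obtain ⟨t, ht, j, hj, h⟩ := hEY' c hc
    obtain ⟨p, hp, rfl⟩ := Finset.mem_image.1 ht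
    obtain ⟨b1, b2, b3, b4⟩ := hb p hp
    rw [Finset.mem_filter, Finset.mem_Ioo]
    rcases h with rfl | rfl
    · exact ⟨⟨by omega, by omega⟩, p.1, by omega, h2 p hp j hj⟩
    · exact ⟨⟨by omega, by omega⟩, p.1, by omega, h3 p hp j hj⟩
  have hy : EX.card ≤ ny S i := by
    unfold ny
    refine Finset.card_le_card fun c hc => ?_
    obtain ⟨t, ht, j, hj, h⟩ := hEX' c hc
    obtain ⟨p, hp, rfl⟩ := Finset.mem_image.1 ht
    obtain ⟨b1, b2, b3, b4⟩ := hb p hp
    rw [Finset.mem_filter, Finset.mem_Ioo]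
    rcases h with rfl | rfl
    · exact ⟨⟨by omega, by omega⟩, p.2, by omega, h0 p hp j hj⟩
    · exact ⟨⟨by omega, by omega⟩, p.2, by omega, h1 p hp j hj⟩
  have hd : (ED.erase H).card ≤ nd S i := by
    unfold nd
    refine Finset.card_le_card fun c hc => ?_
    obtain ⟨hc1, hc2⟩ := Finset.mem_erase.1 hc
    obtain ⟨t, ht, j, hj, h⟩ := hED' c hc2
    obtain ⟨p, hp, rfl⟩ := Finset.mem_image.1 ht
    obtain ⟨b1, b2, b3, b4⟩ := hb p hp
    rw [Finset.mem_filter, Finset.mem_Ioo]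
    rcases h with h | h
    · exact ⟨⟨by omega, by omega⟩, hc1, p.1 + j, by omega, p.2, by omega, by omega,
        h0 p hp j hj⟩
    · exact ⟨⟨by omega, by omega⟩, hc1, p.1 - j, by omega, p.2, by omega, by omega,
        h1 p hp j hj⟩
  have he : ED.card - 1 ≤ (ED.erase H).card := Finset.pred_card_le_card_erase
  refine ⟨_, g8_proj Q, ?_⟩
  omega

end Pool.Agent.H13.FG
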