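import Pool.Agent.H13.FG.Basic

/-!
# MP_4c8b8e_co: geometry of the bipyramid, arms of one point (FIRE-G9)
-/

set_option autoImplicit false

open scoped BigOperators

namespace Pool.Agent.H13.FG

open Classical Pool.Agent.H3.FF CV TV

variable {K H : ℕ} [NeZero K]

private theorem g9_arm0 (p : ℕ × ℕ) (j : ℕ) : arm 0 p j = (p.1 + j, p.2) := by
  simp [arm]

private theorem g9_arm1 (p : ℕ × ℕ) (j : ℕ) : arm 1 p j = (p.1 - j, p.2) := by
  simp [arm]

private theorem g9_arm2 (p : ℕ × ℕ) (j : ℕ) : arm 2 p j = (p.1, p.2 + j) := by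
  simp [arm]

private theorem g9_arm3 (p : ℕ × ℕ) (j : ℕ) : arm 3 p j = (p.1, p.2 - j) := by
  simp [arm]

private theorem g9_ok0 (p : ℕ × ℕ) (j : ℕ) (h : p.1 + j ≤ H) : ArmOk H 0 p j := by
  simpa [ArmOk] using h

private theorem g9_ok1 (p : ℕ × ℕ) (j : ℕ) (h : j ≤ p.1) : ArmOk H 1 p j := by
  simpa [ArmOk] using h

private theorem g9_ok2 (p : ℕ × ℕ) (j : ℕ) (h : p.2 + j ≤ H) : ArmOk H 2 p j := by
  simpa [ArmOk] using h

private theorem g9_ok3 (p : ℕ × ℕ) (j : ℕ) (h : j ≤ p.2) : ArmOk H 3 p j := by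
  simpa [ArmOk] using h

/-- FIRE-G9. -/
theorem sarmB : SArmB := by
  intro K H _ _ S i p m hm ha haH hb hbH harm
  obtain ⟨a, b⟩ := p
  simp only at ha haH hb hbH
  have h0 : ∀ j ≤ m, a + j ≤ H → sq i (a + j) b ∉ S := by
    intro j hj h
    have := harm 0 j hj (g9_ok0 _ _ h)
    rw [g9_arm0] at this
    exact this
  have h1 : ∀ j ≤ m, j ≤ a → sq i (a - j) b ∉ S := by
    intro j hj h
    have := harm 1 j hj (g9_ok1 _ _ h)
    rw [g9_arm1] at this
    exact this
  have h2 : ∀ j ≤ m, b + j ≤ H → sq i a (b + j) ∉ S := by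
    intro j hj h
    have := harm 2 j hj (g9_ok2 _ _ h)
    rw [g9_arm2] at this
    exact this
  have h3 : ∀ j ≤ m, j ≤ b → sq i a (b - j) ∉ S := by
    intro j hj h
    have := harm 3 j hj (g9_ok3 _ _ h)
    rw [g9_arm3] at this
    exact this
  have hx : (Finset.Icc (b - min m (b - 1)) (b + min m (H - 1 - b))).card ≤ nx S i := by
    refine Finset.card_le_card ?_
    intro c hc
    rw [Finset.mem_Icc] at hc
    rw [Finset.mem_filter, Finset.mem_Ioo]
    refine ⟨⟨by omega, by omega⟩, a, by omega, ?_⟩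
    by_cases hcb : b ≤ c
    · have := h2 (c - b) (by omega) (by omega)
      rwa [show b + (c - b) = c by omega] at this
    · have := h3 (b - c) (by omega) (by omega)
      rwa [show b - (b - c) = c by omega] at this
  have hy : (Finset.Icc (a - min m (a - 1)) (a + min m (H - 1 - a))).card ≤ ny S i := by
    refine Finset.card_le_card ?_
    intro c hc
    rw [Finset.mem_Icc] at hc
    rw [Finset.mem_filter, Finset.mem_Ioo]
    refine ⟨⟨by omega, by omega⟩, b, by omega, ?_⟩
    by_cases hcb : a ≤ c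
    · have := h0 (c - a) (by omega) (by omega)
      rwa [show a + (c - a) = c by omega] at this
    · have := h1 (a - c) (by omega) (by omega)
      rwa [show a - (a - c) = c by omega] at this
  have hd : ((Finset.Icc (a + b - min m a) (a + b + min m (H - a))).erase H).card ≤ nd S i := by
    refine Finset.card_le_card ?_
    intro s hs
    rw [Finset.mem_erase, Finset.mem_Icc] at hs
    rw [Finset.mem_filter, Finset.mem_Ioo]
    obtain ⟨hsH, hs1, hs2⟩ := hs
    refine ⟨⟨by omega, by omega⟩, hsH, ?_⟩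
    by_cases hcb : a + b ≤ s
    · refine ⟨a + (s - (a + b)), by omega, b, by omega, by omega, ?_⟩
      exact h0 (s - (a + b)) (by omega) (by omega)
    · refine ⟨a - (a + b - s), by omega, b, by omega, by omega, ?_⟩
      exact h1 (a + b - s) (by omega) (by omega)
  have hd' := Finset.pred_card_le_card_erase
    (s := Finset.Icc (a + b - min m a) (a + b + min m (H - a))) (a := H)
  rw [Nat.card_Icc] at hx hy hd'
  omega

end Pool.Agent.H13.FG
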