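import Pool.Agent.H13.FG.Basic

/-!
# MP_4c8b8e_co: averaging over a family of sets
-/

set_option autoImplicit false

open scoped BigOperators

namespace Pool.Agent.H13.FG

open Classical Pool.Agent.H3.FF CV TV

/-- FIRE-G12 -/
theorem savg : SAvg := by
  intro K H _ Z r M hM A I m hm
  have h1 : ∀ k ∈ I, dust Z r (A k) ≤ ∑ z ∈ Z,
      ∑ f ∈ (Finset.univ : Finset (TV K H)).filter (fun f => Nr r z f),
        if f ∈ A k then 1 else 0 := by
    intro k _
    unfold dust
    rw [Finset.card_filter]
    refine Finset.sum_le_sum fun z _ => ?_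
    split_ifs with hz
    · obtain ⟨f, hf, hzf⟩ := hz
      have h2 : f ∈ (Finset.univ : Finset (TV K H)).filter (fun f => Nr r z f) :=
        Finset.mem_filter.2 ⟨Finset.mem_univ f, hzf⟩
      calc 1 = if f ∈ A k then 1 else 0 := by rw [if_pos hf]
        _ ≤ _ := Finset.single_le_sum (f := fun f : TV K H => if f ∈ A k then 1 else 0)
          (fun _ _ => Nat.zero_le _) h2
    · exact Nat.zero_le _
  calc ∑ k ∈ I, dust Z r (A k)
      ≤ ∑ k ∈ I, ∑ z ∈ Z,
          ∑ f ∈ (Finset.univ : Finset (TV K H)).filter (fun f => Nr r z f),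
            if f ∈ A k then 1 else 0 := Finset.sum_le_sum h1
    _ = ∑ z ∈ Z, ∑ f ∈ (Finset.univ : Finset (TV K H)).filter (fun f => Nr r z f),
          ∑ k ∈ I, if f ∈ A k then 1 else 0 := by
        rw [Finset.sum_comm]
        refine Finset.sum_congr rfl fun z _ => ?_
        rw [Finset.sum_comm]
    _ ≤ ∑ z ∈ Z, ∑ f ∈ (Finset.univ : Finset (TV K H)).filter (fun f => Nr r z f), m := by
        refine Finset.sum_le_sum fun z _ => Finset.sum_le_sum fun f _ => ?_
        rw [← Finset.card_filter]
        exact hm f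
    _ ≤ ∑ z ∈ Z, m * M := by
        refine Finset.sum_le_sum fun z _ => ?_
        rw [Finset.sum_const, smul_eq_mul, mul_comm]
        exact Nat.mul_le_mul_left m (hM z)
    _ = m * M * Z.card := by
        rw [Finset.sum_const, smul_eq_mul, mul_comm]

end Pool.Agent.H13.FG
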