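import Pool.Agent.H13.FG.Basic

/-!
# MP_4c8b8e_co: balls of the lattice are small
-/

set_option autoImplicit false

open scoped BigOperators

namespace Pool.Agent.H13.FG

open Classical Pool.Agent.H3.FF CV TV

variable {K H : ℕ} [NeZero K]

private theorem g11_stp {f g g' : TV K H} {c d : CV K} (h : Stp f g c d) (h' : Stp f g' c d) :
    g = g' := by
  apply Subtype.ext
  funext e
  obtain ⟨h1, h2, h3⟩ := h
  obtain ⟨k1, k2, k3⟩ := h'
  by_cases hc : e = c
  · subst hc; omega
  · by_cases hd : e = d
    · subst hd; omega
    · rw [← h3 e hc hd, ← k3 e hc hd]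

private theorem g11_step {f g : TV K H} (h : Ad f g) :
    ∃ (b : Bool) (i : ZMod K) (c d : CV K), Sp b i f.1 ∧ fc b i c ∧ fc b i d ∧ c ≠ d ∧
      1 ≤ f.1 c ∧ Stp f g c d := by
  obtain ⟨b, i, k, h1, _, _, c, d, hc, hd, _, _, hs⟩ := h
  refine ⟨b, i, c, d, h1, hc, hd, ?_, ?_, hs⟩
  · rintro rfl
    have h3 := hs.1
    have h4 := hs.2.1
    omega
  · have := hs.1
    omega

private theorem g11_card (f : TV K H) (T : Finset (CV K × CV K))
    (hT : ∀ (b : Bool) (i : ZMod K) (c d : CV K), Sp b i f.1 → fc b i c → fc b i d → c ≠ d →
      1 ≤ f.1 c → (c, d) ∈ T) :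
    ((Finset.univ : Finset (TV K H)).filter (fun g => AdE f g)).card ≤ T.card + 1 := by
  have h1 : (Finset.univ : Finset (TV K H)).filter (fun g => AdE f g) ⊆
      insert f (T.image fun p => if h : ∃ g, Stp f g p.1 p.2 then h.choose else f) := by
    intro g hg
    rw [Finset.mem_filter] at hg
    rw [Finset.mem_insert]
    rcases hg.2 with h | h
    · exact Or.inl h.symm
    · right
      obtain ⟨b, i, c, d, h2, hc, hd, hcd, h3, hs⟩ := g11_step h
      rw [Finset.mem_image]
      refine ⟨(c, d), hT b i c d h2 hc hd hcd h3, ?_⟩
      have hex : ∃ g, Stp f g c d := ⟨g, hs⟩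
      simp only
      rw [dif_pos hex]
      exact g11_stp hex.choose_spec hs
  calc _ ≤ _ := Finset.card_le_card h1
    _ ≤ _ := Finset.card_insert_le _ _
    _ ≤ _ := Nat.add_le_add_right Finset.card_image_le 1

private theorem g11_ten {α : Type} [DecidableEq α] (a b c d e a' b' c' d' e' : α) :
    ({a, b, c, d, e, a', b', c', d', e'} : Finset α).card ≤ 10 := by
  have h1 := Finset.card_insert_le a ({b, c, d, e, a', b', c', d', e'} : Finset α)
  have h2 := Finset.card_insert_le b ({c, d, e, a', b', c', d', e'} : Finset α)
  have h3 := Finset.card_insert_le c ({d, e, a', b', c', d', e'} : Finset α)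
  have h4 := Finset.card_insert_le d ({e, a', b', c', d', e'} : Finset α)
  have h5 : ({e, a', b', c', d', e'} : Finset α).card ≤ 6 := Finset.card_le_six
  omega

private theorem g11_ns {f : TV K H} {b : Bool} {i : ZMod K} (h : Sp b i f.1) {c : CV K}
    (hc : 1 ≤ f.1 c) : fc b i c := by
  by_contra h1
  have := h c h1
  omega

omit [NeZero K] in
private theorem g11_A {b : Bool} {i j : ZMod K} (h : fc b i (A j)) : j = i ∨ j = i + 1 := by
  rcases h with h | h | h
  · cases b <;> simp [P] at h
  · left; injection h
  · right; injection h

private theorem g11_nb (hK : 4 ≤ K) (f : TV K H) :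
    ((Finset.univ : Finset (TV K H)).filter (fun g => AdE f g)).card ≤ K + 7 := by
  have one_ne : (1 : ZMod K) ≠ 0 := by
    have : Fact (1 < K) := ⟨by omega⟩
    exact one_ne_zero
  have two_ne : (2 : ZMod K) ≠ 0 := by
    intro h
    have h1 : ((2 : ℕ) : ZMod K) = 0 := by exact_mod_cast h
    rw [ZMod.natCast_eq_zero_iff] at h1
    have := Nat.le_of_dvd (by omega) h1
    omega
  by_cases hA : ∀ j : ZMod K, f.1 (A j) = 0
  · -- an apex
    refine (g11_card f ((Finset.univ : Finset (ZMod K)).image
      fun j => ((if 1 ≤ f.1 N then N else S : CV K), (A j : CV K))) ?_).trans ?_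
    · intro b i c d hsp hc hd hcd h1
      have hcP : c = P b := by
        rcases hc with h | h | h
        · exact h
        · rw [h, hA] at h1; omega
        · rw [h, hA] at h1; omega
      have hdA : ∃ j : ZMod K, d = A j := by
        rcases hd with h | h | h
        · exact absurd (hcP.trans h.symm) hcd
        · exact ⟨_, h⟩
        · exact ⟨_, h⟩
      obtain ⟨j, rfl⟩ := hdA
      rw [Finset.mem_image]
      refine ⟨j, Finset.mem_univ _, ?_⟩
      by_cases hN : 1 ≤ f.1 N
      · rw [if_pos hN]
        have h2 := g11_ns hsp hN
        have h3 : (N : CV K) = P b := by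
          rcases h2 with h | h | h
          · exact h
          · cases h
          · cases h
        rw [hcP, h3]
      · rw [if_neg hN]
        have h3 : c = S := by
          rw [hcP] at h1 ⊢
          cases b
          · rfl
          · exact absurd h1 hN
        rw [h3]
    · have := Finset.card_image_le (s := (Finset.univ : Finset (ZMod K)))
        (f := fun j => ((if 1 ≤ f.1 N then N else S : CV K), (A j : CV K)))
      rw [Finset.card_univ, ZMod.card] at this
      omega
  · push Not at hA
    by_cases hB : ∃ j : ZMod K, 1 ≤ f.1 (A j) ∧ 1 ≤ f.1 (A (j + 1))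
    · obtain ⟨j, hj, hj'⟩ := hB
      refine (g11_card f {((N : CV K), A j), (N, A (j + 1)), (A j, N), (A (j + 1), N), (S, A j),
        (S, A (j + 1)), (A j, S), (A (j + 1), S), (A j, A (j + 1)), (A (j + 1), A j)} ?_).trans ?_
      · intro b i c d hsp hc hd hcd h1
        have hij : i = j := by
          rcases g11_A (g11_ns hsp hj) with h | h
          · exact h.symm
          · exfalso
            rcases g11_A (g11_ns hsp hj') with h' | h'
            · rw [h] at h'
              apply two_ne
              have : i + 1 + 1 - i = i - i := by rw [h']
              rw [sub_self] at this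
              rw [← this]; ring
            · rw [h] at h'
              apply one_ne
              have : i + 1 + 1 - (i + 1) = i + 1 - (i + 1) := by rw [h']
              rw [sub_self] at this
              rw [← this]; ring
        subst hij
        simp only [Finset.mem_insert, Finset.mem_singleton, Prod.mk.injEq]
        unfold fc P at hc hd
        cases b
        · rcases hc with rfl | rfl | rfl <;> rcases hd with rfl | rfl | rfl <;>
            first
            | exact absurd rfl hcd
            | simp
        · rcases hc with rfl | rfl | rfl <;> rcases hd with rfl | rfl | rfl <;>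
            first
            | exact absurd rfl hcd
            | simp
      · exact (Nat.add_le_add_right (g11_ten _ _ _ _ _ _ _ _ _ _) 1).trans (by omega)
    · push Not at hB
      obtain ⟨j, hj⟩ := hA
      have hj1 : 1 ≤ f.1 (A j) := by omega
      have hp : f.1 (A (j + 1)) = 0 := by have := hB j hj1; omega
      have hm : f.1 (A (j - 1)) = 0 := by
        by_contra h
        have h2 := hB (j - 1) (by omega)
        rw [sub_add_cancel] at h2
        omega
      refine (g11_card f {((A j : CV K), N), (A j, S), (A j, A (j - 1)), (A j, A (j + 1)),
        (N, A j), (N, A (j - 1)), (N, A (j + 1)), (S, A j), (S, A (j - 1)), (S, A (j + 1))}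
        ?_).trans ?_
      · intro b i c d hsp hc hd hcd h1
        have hij : i = j ∨ i = j - 1 := by
          rcases g11_A (g11_ns hsp hj1) with h | h
          · exact Or.inl h.symm
          · right; rw [h]; ring
        simp only [Finset.mem_insert, Finset.mem_singleton, Prod.mk.injEq]
        unfold fc P at hc hd
        have e1 : j - 1 + 1 = j := by ring
        rcases hij with rfl | rfl
        · cases b
          · rcases hc with rfl | rfl | rfl <;> rcases hd with rfl | rfl | rfl <;>
              first
              | exact absurd rfl hcd
              | (exfalso; omega)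
              | simp
          · rcases hc with rfl | rfl | rfl <;> rcases hd with rfl | rfl | rfl <;>
              first
              | exact absurd rfl hcd
              | (exfalso; omega)
              | simp
        · rw [e1] at hc hd
          cases b
          · rcases hc with rfl | rfl | rfl <;> rcases hd with rfl | rfl | rfl <;>
              first
              | exact absurd rfl hcd
              | (exfalso; omega)
              | simp
          · rcases hc with rfl | rfl | rfl <;> rcases hd with rfl | rfl | rfl <;>
              first
              | exact absurd rfl hcd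
              | (exfalso; omega)
              | simp
      · exact (Nat.add_le_add_right (g11_ten _ _ _ _ _ _ _ _ _ _) 1).trans (by omega)

theorem sball (_h : SSq) : SBall := by
  intro K H _ hK z r
  induction r with
  | zero =>
    rw [pow_zero]
    refine Finset.card_le_one.2 ?_
    intro f hf g hg
    rw [Finset.mem_filter] at hf hg
    rw [← nr_zero hf.2, ← nr_zero hg.2]
  | succ r ih =>
    have h1 : (Finset.univ : Finset (TV K H)).filter (fun f => Nr (r + 1) z f) ⊆
        ((Finset.univ : Finset (TV K H)).filter (fun f => Nr r z f)).biUnion
          (fun g => (Finset.univ : Finset (TV K H)).filter (fun f => AdE g f)) := by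
      intro f hf
      rw [Finset.mem_filter] at hf
      obtain ⟨g, h2, h3⟩ := nr_succ hf.2
      rw [Finset.mem_biUnion]
      exact ⟨g, by simpa using h2, by simpa using h3⟩
    refine (Finset.card_le_card h1).trans (Finset.card_biUnion_le.trans ?_)
    calc _ ≤ ∑ _g ∈ (Finset.univ : Finset (TV K H)).filter (fun f => Nr r z f), (K + 7) :=
          Finset.sum_le_sum (fun g _ => g11_nb hK g)
      _ = ((Finset.univ : Finset (TV K H)).filter (fun f => Nr r z f)).card * (K + 7) := by
          rw [Finset.sum_const, smul_eq_mul]
      _ ≤ (K + 7) ^ r * (K + 7) := Nat.mul_le_mul_right _ ih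
      _ = (K + 7) ^ (r + 1) := (pow_succ _ _).symm

end Pool.Agent.H13.FG
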