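import Pool.Agent.H13.FG.Stm

/-!
# MP_4c8b8e_co: geometry of the bipyramid, walks
-/

set_option autoImplicit false

open scoped BigOperators

namespace Pool.Agent.H13.FG

open Classical Pool.Agent.H3.FF CV TV

variable {K H : ℕ} [NeZero K]

theorem adF_symm {b : Bool} {i : ZMod K} {k : CV K} {f g : TV K H} (h : AdF b i k f g) :
    AdF b i k g f := by
  obtain ⟨h1, h2, h3, c, d, hc, hd, hck, hdk, h4, h5, h6⟩ := h
  refine ⟨h2, h1, h3, d, c, hd, hc, hdk, hck, h5, h4, ?_⟩
  intro e he he'
  exact (h6 e he' he).symm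

theorem ad_symm {f g : TV K H} (h : Ad f g) : Ad g f := by
  obtain ⟨b, i, k, h⟩ := h
  exact ⟨b, i, k, adF_symm h⟩

theorem adE_symm {f g : TV K H} (h : AdE f g) : AdE g f := by
  rcases h with h | h
  · exact Or.inl h.symm
  · exact Or.inr (ad_symm h)

/-- concatenation of walks -/
theorem wk_append {w w' : ℕ → TV K H} {n m : ℕ} (h : Wk w n) (h' : Wk w' m) (he : w n = w' 0) :
    ∃ u : ℕ → TV K H, Wk u (n + m) ∧ u 0 = w 0 ∧ u (n + m) = w' m ∧
      trace u (n + m) = trace w n ∪ trace w' m := by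
  refine ⟨fun t => if t ≤ n then w t else w' (t - n), ?_, ?_, ?_, ?_⟩
  · intro t ht
    by_cases h1 : t + 1 ≤ n
    · have h2 : t ≤ n := by omega
      simp only [h1, h2, if_true]
      exact h t (by omega)
    · by_cases h2 : t ≤ n
      · have h3 : t = n := by omega
        subst h3
        simp only [le_refl, if_true, h1, if_false]
        have : t + 1 - t = 1 := by omega
        rw [this, he]
        have := h' 0 (by omega)
        simpa using this
      · simp only [h1, h2, if_false]
        have h3 : t + 1 - n = (t - n) + 1 := by omega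
        rw [h3]
        exact h' (t - n) (by omega)
  · simp
  · by_cases h1 : n + m ≤ n
    · have : m = 0 := by omega
      subst this
      simpa using he
    · simp only [h1, if_false]
      congr 1
      omega
  · ext f
    constructor
    · rintro ⟨t, ht, rfl⟩
      by_cases h1 : t ≤ n
      · left
        exact ⟨t, h1, by simp [h1]⟩
      · right
        exact ⟨t - n, by omega, by simp [h1]⟩
    · rintro (⟨t, ht, rfl⟩ | ⟨t, ht, rfl⟩)
      · exact ⟨t, by omega, by simp [ht]⟩
      · by_cases h0 : t = 0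
        · subst h0
          exact ⟨n, by omega, by simp [he]⟩
        · refine ⟨n + t, by omega, ?_⟩
          have : ¬ (n + t ≤ n) := by omega
          simp only [this, if_false]
          congr 1
          omega

/-- reversal of walks -/
theorem wk_rev {w : ℕ → TV K H} {n : ℕ} (h : Wk w n) :
    ∃ u : ℕ → TV K H, Wk u n ∧ u 0 = w n ∧ u n = w 0 ∧ trace u n = trace w n := by
  refine ⟨fun t => w (n - t), ?_, by simp, by simp, ?_⟩
  · intro t ht
    have h1 : n - t = (n - (t + 1)) + 1 := by omega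
    show AdE (w (n - t)) (w (n - (t + 1)))
    rw [h1]
    exact adE_symm (h _ (by omega))
  · ext f
    constructor
    · rintro ⟨t, ht, rfl⟩
      exact ⟨n - t, by omega, rfl⟩
    · rintro ⟨t, ht, rfl⟩
      refine ⟨n - t, by omega, ?_⟩
      show w (n - (n - t)) = w t
      congr 1
      omega

theorem nr_refl (n : ℕ) (f : TV K H) : Nr n f f :=
  ⟨fun _ => f, fun _ _ => Or.inl rfl, rfl, rfl⟩

theorem nr_symm {n : ℕ} {f g : TV K H} (h : Nr n f g) : Nr n g f := by
  obtain ⟨w, h1, h2, h3⟩ := h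
  obtain ⟨u, h4, h5, h6, _⟩ := wk_rev h1
  exact ⟨u, h4, by rw [h5, h3], by rw [h6, h2]⟩

theorem nr_trans {n m : ℕ} {f g h : TV K H} (h1 : Nr n f g) (h2 : Nr m g h) :
    Nr (n + m) f h := by
  obtain ⟨w, a1, a2, a3⟩ := h1
  obtain ⟨w', b1, b2, b3⟩ := h2
  obtain ⟨u, c1, c2, c3, _⟩ := wk_append a1 b1 (by rw [a3, b2])
  exact ⟨u, c1, by rw [c2, a2], by rw [c3, b3]⟩

theorem nr_mono {n m : ℕ} (hnm : n ≤ m) {f g : TV K H} (h : Nr n f g) : Nr m f g := by
  obtain ⟨k, rfl⟩ := Nat.exists_eq_add_of_le hnm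
  exact nr_trans h (nr_refl k g)

theorem nr_one {f g : TV K H} (h : AdE f g) : Nr 1 f g :=
  ⟨fun t => if t = 0 then f else g, by
    intro t ht
    have : t = 0 := by omega
    subst this
    simpa using h, by simp, by simp⟩

theorem nr_zero {f g : TV K H} (h : Nr 0 f g) : f = g := by
  obtain ⟨w, _, h2, h3⟩ := h
  rw [← h2, h3]

theorem nr_succ {n : ℕ} {f g : TV K H} (h : Nr (n + 1) f g) : ∃ k, Nr n f k ∧ AdE k g := by
  obtain ⟨w, h1, h2, h3⟩ := h
  exact ⟨w n, ⟨w, fun i hi => h1 i (by omega), h2, rfl⟩, h3 ▸ h1 n (by omega)⟩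

/-- coordinates of `sq` inside the square -/
theorem sq_val (i : ZMod K) {x y : ℕ} (hx : x ≤ H) (hy : y ≤ H) :
    (sq i x y : TV K H).1 = sqf H i x y := by
  unfold sq
  simp [Nat.min_eq_left hx, Nat.min_eq_left hy]

theorem dust_mono (Z : Finset (TV K H)) (r : ℕ) {A B : Set (TV K H)} (h : A ⊆ B) :
    dust Z r A ≤ dust Z r B := by
  refine Finset.card_le_card ?_
  intro z hz
  rw [Finset.mem_filter] at hz ⊢
  obtain ⟨h1, f, hf, h2⟩ := hz
  exact ⟨h1, f, h hf, h2⟩

theorem dust_union (Z : Finset (TV K H)) (r : ℕ) (A B : Set (TV K H)) :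
    dust Z r (A ∪ B) ≤ dust Z r A + dust Z r B := by
  refine (Finset.card_le_card ?_).trans (Finset.card_union_le _ _)
  intro z hz
  rw [Finset.mem_filter] at hz
  obtain ⟨h1, f, hf, h2⟩ := hz
  rw [Finset.mem_union, Finset.mem_filter, Finset.mem_filter]
  rcases hf with hf | hf
  · exact Or.inl ⟨h1, f, hf, h2⟩
  · exact Or.inr ⟨h1, f, hf, h2⟩

/-- dust near a finite set -/
theorem dust_finset (Z : Finset (TV K H)) (r M : ℕ)
    (hM : ∀ z : TV K H, ((Finset.univ : Finset (TV K H)).filter (fun f => Nr r z f)).card ≤ M)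
    (A : Finset (TV K H)) : dust Z r (A : Set (TV K H)) ≤ A.card * M := by
  have h1 : Z.filter (fun z => z ∈ nb r (A : Set (TV K H))) ⊆
      A.biUnion (fun f => (Finset.univ : Finset (TV K H)).filter (fun z => Nr r f z)) := by
    intro z hz
    rw [Finset.mem_filter] at hz
    obtain ⟨_, f, hf, h2⟩ := hz
    rw [Finset.mem_biUnion]
    exact ⟨f, by simpa using hf, by simpa using nr_symm h2⟩
  refine (Finset.card_le_card h1).trans ?_
  refine Finset.card_biUnion_le.trans ?_
  calc _ ≤ ∑ _f ∈ A, M := Finset.sum_le_sum (fun f _ => hM f)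
    _ = A.card * M := by simp

/-- dust near a short walk -/
theorem dust_trace (Z : Finset (TV K H)) (r M : ℕ)
    (hM : ∀ z : TV K H, ((Finset.univ : Finset (TV K H)).filter (fun f => Nr r z f)).card ≤ M)
    (w : ℕ → TV K H) (n : ℕ) : dust Z r (trace w n) ≤ (n + 1) * M := by
  have h : trace w n ⊆ (((Finset.range (n + 1)).image w : Finset (TV K H)) : Set (TV K H)) := by
    rintro f ⟨i, hi, rfl⟩
    simp only [Finset.coe_image, Set.mem_image, Finset.coe_range, Set.mem_Iio]
    exact ⟨i, by omega, rfl⟩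
  refine (dust_mono Z r h).trans ((dust_finset Z r M hM _).trans ?_)
  refine Nat.mul_le_mul_right M ?_
  refine Finset.card_image_le.trans ?_
  simp

end Pool.Agent.H13.FG
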