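import Pool.Agent.H13.FG.Basic

/-!
# MP_4c8b8e_co, row FIRE-G7: case A, lines of a sector with a point outside `S`
-/

set_option autoImplicit false

open scoped BigOperators

namespace Pool.Agent.H13.FG

open Classical Pool.Agent.H3.FF CV TV

/-- splitting a count over the closed lines by the type in a sector -/
private theorem g7_split (u : ZMod 4) (P : ZMod 4 → ℕ → Prop) (I : Finset ℕ) :
    (((Finset.univ : Finset (ZMod 4)) ×ˢ I).filter (fun p => P p.1 p.2)).card =
      (I.filter (fun c => P (u - 0) c)).card + (I.filter (fun c => P (u - 1) c)).card +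
        (I.filter (fun c => P (u - 2) c)).card + (I.filter (fun c => P (u - 3) c)).card := by
  have h1 : (((Finset.univ : Finset (ZMod 4)) ×ˢ I).filter (fun p => P p.1 p.2)).card =
      ∑ a : ZMod 4, (I.filter (fun c => P a c)).card := by
    rw [Finset.card_filter, Finset.sum_product]
    refine Finset.sum_congr rfl fun a _ => ?_
    rw [Finset.card_filter]
  rw [h1, ← (Equiv.subLeft u).sum_comp (fun a => (I.filter (fun c => P a c)).card)]
  exact Fin.sum_univ_four _

/-- the number of nonzero values is at most the sum -/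
private theorem g7_count (I : Finset ℕ) (f : ℕ → ℕ) :
    (I.filter (fun c => f c ≠ 0)).card ≤ ∑ c ∈ I, f c := by
  rw [Finset.card_filter]
  refine Finset.sum_le_sum fun c _ => ?_
  split_ifs with h <;> omega

/-- the two halves of the antidiagonals -/
private theorem g7_halves (H : ℕ) (f : ℕ → ℕ) :
    ∑ c ∈ Finset.Ioo 0 H, f c + ∑ c ∈ Finset.Ioo 0 H, f (H + c) ≤
      ∑ s ∈ Finset.Ioo 0 (2 * H), f s := by
  have h1 : ∑ c ∈ Finset.Ioo 0 H, f (H + c) =
      ∑ s ∈ (Finset.Ioo 0 H).image (fun c => H + c), f s := by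
    rw [Finset.sum_image]
    intro a _ b _ h
    have h' : H + a = H + b := h
    omega
  rw [h1, ← Finset.sum_union]
  · refine Finset.sum_le_sum_of_subset fun s hs => ?_
    rw [Finset.mem_union] at hs
    rcases hs with hs | hs
    · rw [Finset.mem_Ioo] at hs ⊢
      omega
    · rw [Finset.mem_image] at hs
      obtain ⟨c, hc, rfl⟩ := hs
      rw [Finset.mem_Ioo] at hc ⊢
      omega
  · rw [Finset.disjoint_left]
    intro s hs hs'
    rw [Finset.mem_image] at hs'
    obtain ⟨c, hc, rfl⟩ := hs'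
    rw [Finset.mem_Ioo] at hs hc
    omega

section

variable {K H : ℕ} [NeZero K]

/-- the closed line has a point outside `S` -/
private def g7O (S : Finset (TV K H)) (a : ZMod 4) (c : ℕ) : Prop :=
  ∃ f ∈ lin (K := K) (H := H) a c, f ∉ S

/-- the closed line has no point in `S` -/
private def g7N (S : Finset (TV K H)) (a : ZMod 4) (c : ℕ) : Prop :=
  ¬ ∃ f ∈ lin (K := K) (H := H) a c, f ∈ S

/-- lines of the sector `i` with a point outside `S` give closed lines -/
private theorem g7_out (S : Finset (TV K H)) (i : ZMod K) :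
    nx S i + ny S i + nd S i ≤ (((Finset.univ : Finset (ZMod 4)) ×ˢ Finset.Ioo 0 H).filter
      (fun p => g7O S p.1 p.2)).card := by
  rw [g7_split (i.val : ZMod 4) (g7O S) (Finset.Ioo 0 H)]
  have e0 : nx S i ≤ ((Finset.Ioo 0 H).filter
      (fun c => g7O S ((i.val : ZMod 4) - 0) c)).card := by
    refine Finset.card_le_card fun c hc => ?_
    rw [Finset.mem_filter] at hc ⊢
    obtain ⟨hc1, x, hx, hxS⟩ := hc
    have hc2 := Finset.mem_Ioo.1 hc1
    exact ⟨hc1, sq i x c, ⟨i, x, c, hx, hc2.2.le, Or.inl ⟨by ring, rfl⟩, rfl⟩, hxS⟩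
  have e2 : ny S i ≤ ((Finset.Ioo 0 H).filter
      (fun c => g7O S ((i.val : ZMod 4) - 2) c)).card := by
    refine Finset.card_le_card fun c hc => ?_
    rw [Finset.mem_filter] at hc ⊢
    obtain ⟨hc1, y, hy, hyS⟩ := hc
    have hc2 := Finset.mem_Ioo.1 hc1
    exact ⟨hc1, sq i c y, ⟨i, c, y, hc2.2.le, hy, Or.inr (Or.inr (Or.inl ⟨by ring, rfl⟩)), rfl⟩,
      hyS⟩
  have e13 : nd S i ≤ ((Finset.Ioo 0 H).filter
      (fun c => g7O S ((i.val : ZMod 4) - 1) c)).card +
      ((Finset.Ioo 0 H).filter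
      (fun c => g7O S ((i.val : ZMod 4) - 3) c)).card := by
    have h1 : ((Finset.Ioo 0 (2 * H)).filter
        (fun s => s ≠ H ∧ ∃ x ≤ H, ∃ y ≤ H, x + y = s ∧ sq i x y ∉ S)) ⊆
        ((Finset.Ioo 0 H).filter
          (fun c => g7O S ((i.val : ZMod 4) - 1) c)) ∪
        ((Finset.Ioo 0 H).filter
          (fun c => g7O S ((i.val : ZMod 4) - 3) c)).image
          (fun c => H + c) := by
      intro s hs
      rw [Finset.mem_filter, Finset.mem_Ioo] at hs
      obtain ⟨⟨hs1, hs2⟩, hsH, x, hx, y, hy, hxy, hxS⟩ := hs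
      rw [Finset.mem_union]
      rcases Nat.lt_or_ge s H with h | h
      · refine Or.inl ?_
        rw [Finset.mem_filter, Finset.mem_Ioo]
        exact ⟨⟨hs1, h⟩, sq i x y, ⟨i, x, y, hx, hy, Or.inr (Or.inl ⟨by ring, hxy⟩), rfl⟩, hxS⟩
      · refine Or.inr ?_
        rw [Finset.mem_image]
        refine ⟨s - H, ?_, by omega⟩
        rw [Finset.mem_filter, Finset.mem_Ioo]
        exact ⟨⟨by omega, by omega⟩, sq i x y,
          ⟨i, x, y, hx, hy, Or.inr (Or.inr (Or.inr ⟨by ring, by omega⟩)), rfl⟩, hxS⟩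
    have h2 : nd S i = ((Finset.Ioo 0 (2 * H)).filter
        (fun s => s ≠ H ∧ ∃ x ≤ H, ∃ y ≤ H, x + y = s ∧ sq i x y ∉ S)).card := rfl
    rw [h2]
    refine (Finset.card_le_card h1).trans ((Finset.card_union_le _ _).trans ?_)
    exact Nat.add_le_add_left Finset.card_image_le _
  omega

/-- closed lines without points in `S` -/
private theorem g7_inn (B : Finset (Finset (TV K H))) (d : ℕ) (S : Finset (TV K H)) (g : ZMod K)
    (hd : d + 3 ≤ H) (hes : es (un B) g ≤ d) (hlab : Lab B d g (some S)) :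
    (((Finset.univ : Finset (ZMod 4)) ×ˢ Finset.Ioo 0 H).filter
      (fun p => g7N S p.1 p.2)).card ≤ 3 * d + 2 := by
  rw [g7_split (g.val : ZMod 4) (g7N S) (Finset.Ioo 0 H)]
  have e0 : ((Finset.Ioo 0 H).filter
      (fun c => g7N S ((g.val : ZMod 4) - 0) c)).card ≤
      ∑ c ∈ Finset.Ioo 0 H, cx (un B) g c := by
    refine (Finset.card_le_card fun c hc => ?_).trans (g7_count _ _)
    rw [Finset.mem_filter] at hc ⊢
    obtain ⟨hc1, hc3⟩ := hc
    have hc2 := Finset.mem_Ioo.1 hc1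
    refine ⟨hc1, fun h0 => hc3 ?_⟩
    have h4 := hlab.x c hc2.1 hc2.2 h0 0 (Nat.zero_le _)
    exact ⟨sq g 0 c, ⟨g, 0, c, Nat.zero_le _, hc2.2.le, Or.inl ⟨by ring, rfl⟩, rfl⟩, h4.2⟩
  have e2 : ((Finset.Ioo 0 H).filter
      (fun c => g7N S ((g.val : ZMod 4) - 2) c)).card ≤
      ∑ c ∈ Finset.Ioo 0 H, cy (un B) g c := by
    refine (Finset.card_le_card fun c hc => ?_).trans (g7_count _ _)
    rw [Finset.mem_filter] at hc ⊢
    obtain ⟨hc1, hc3⟩ := hc
    have hc2 := Finset.mem_Ioo.1 hc1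
    refine ⟨hc1, fun h0 => hc3 ?_⟩
    have h4 := hlab.y c hc2.1 hc2.2 h0 0 (Nat.zero_le _)
    exact ⟨sq g c 0, ⟨g, c, 0, hc2.2.le, Nat.zero_le _, Or.inr (Or.inr (Or.inl ⟨by ring, rfl⟩)),
      rfl⟩, h4.2⟩
  have e1 : ((Finset.Ioo 0 H).filter
      (fun c => g7N S ((g.val : ZMod 4) - 1) c)).card ≤
      ∑ c ∈ Finset.Ioo 0 H, cd (un B) g c + (d + 1) := by
    have h1 : ((Finset.Ioo 0 H).filter
        (fun c => g7N S ((g.val : ZMod 4) - 1) c)) ⊆
        ((Finset.Ioo 0 H).filter (fun c => cd (un B) g c ≠ 0)) ∪ Finset.Ioo 0 (d + 2) := by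
      intro c hc
      rw [Finset.mem_filter] at hc
      obtain ⟨hc1, hc3⟩ := hc
      have hc2 := Finset.mem_Ioo.1 hc1
      rw [Finset.mem_union, Finset.mem_filter, Finset.mem_Ioo, Finset.mem_Ioo]
      by_contra hcon
      push Not at hcon
      obtain ⟨h5, h6⟩ := hcon
      have h7 : cd (un B) g c = 0 := h5 hc2
      have h8 : d + 2 ≤ c := h6 hc2.1
      have h4 := hlab.d c h8 (by omega) h7 0 (Nat.zero_le _) c hc2.2.le (by omega)
      exact hc3 ⟨sq g 0 c, ⟨g, 0, c, Nat.zero_le _, hc2.2.le,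
        Or.inr (Or.inl ⟨by ring, by omega⟩), rfl⟩, h4.2⟩
    refine (Finset.card_le_card h1).trans ((Finset.card_union_le _ _).trans ?_)
    have h2 : (Finset.Ioo 0 (d + 2)).card = d + 1 := by
      rw [Nat.card_Ioo]
      omega
    rw [h2]
    exact Nat.add_le_add_right (g7_count _ _) _
  have e3 : ((Finset.Ioo 0 H).filter
      (fun c => g7N S ((g.val : ZMod 4) - 3) c)).card ≤
      ∑ c ∈ Finset.Ioo 0 H, cd (un B) g (H + c) + (d + 1) := by
    have h1 : ((Finset.Ioo 0 H).filter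
        (fun c => g7N S ((g.val : ZMod 4) - 3) c)) ⊆
        ((Finset.Ioo 0 H).filter (fun c => cd (un B) g (H + c) ≠ 0)) ∪
          Finset.Ico (H - (d + 1)) H := by
      intro c hc
      rw [Finset.mem_filter] at hc
      obtain ⟨hc1, hc3⟩ := hc
      have hc2 := Finset.mem_Ioo.1 hc1
      rw [Finset.mem_union, Finset.mem_filter, Finset.mem_Ioo, Finset.mem_Ico]
      by_contra hcon
      push Not at hcon
      obtain ⟨h5, h6⟩ := hcon
      have h7 : cd (un B) g (H + c) = 0 := h5 hc2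
      have h8 : c < H - (d + 1) := by
        by_contra h9
        have h10 := h6 (by omega)
        omega
      have h4 := hlab.d (H + c) (by omega) (by omega) h7 H le_rfl c hc2.2.le rfl
      exact hc3 ⟨sq g H c, ⟨g, H, c, le_rfl, hc2.2.le,
        Or.inr (Or.inr (Or.inr ⟨by ring, rfl⟩)), rfl⟩, h4.2⟩
    refine (Finset.card_le_card h1).trans ((Finset.card_union_le _ _).trans ?_)
    have h2 : (Finset.Ico (H - (d + 1)) H).card = d + 1 := by
      rw [Nat.card_Ico]
      omega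
    rw [h2]
    exact Nat.add_le_add_right (g7_count _ (fun c => cd (un B) g (H + c))) _
  have h3 := g7_halves H (fun s => cd (un B) g s)
  have h4 : es (un B) g = ∑ c ∈ Finset.Ioo 0 H, cx (un B) g c +
      ∑ c ∈ Finset.Ioo 0 H, cy (un B) g c + ∑ s ∈ Finset.Ioo 0 (2 * H), cd (un B) g s := by
    unfold es
    rw [Finset.sum_add_distrib]
  have h5 : ∑ c ∈ Finset.Ioo 0 H, cd (un B) g c + ∑ c ∈ Finset.Ioo 0 H, cd (un B) g (H + c) ≤
      ∑ s ∈ Finset.Ioo 0 (2 * H), cd (un B) g s := h3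
  omega

end

theorem scaseA (h1 : SSq) (h3 : SLin) : SCaseA := by
  intro K H _ hK B _ d S g i hd hes hlab
  have _ := h1
  have e1 := g7_out S i
  have e2 := g7_inn B d S g hd hes hlab
  have e3 := h3 K H hK S
  have e4 : (((Finset.univ : Finset (ZMod 4)) ×ˢ Finset.Ioo 0 H).filter
      (fun p => g7O S p.1 p.2)) ⊆
      (((Finset.univ : Finset (ZMod 4)) ×ˢ Finset.Ioo 0 H).filter
        (fun p => Mixed S p.1 p.2)) ∪
      (((Finset.univ : Finset (ZMod 4)) ×ˢ Finset.Ioo 0 H).filter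
        (fun p => g7N S p.1 p.2)) := by
    intro p hp
    rw [Finset.mem_filter] at hp
    rw [Finset.mem_union, Finset.mem_filter, Finset.mem_filter]
    by_cases h : ∃ f ∈ lin (K := K) (H := H) p.1 p.2, f ∈ S
    · exact Or.inl ⟨hp.1, h, hp.2⟩
    · exact Or.inr ⟨hp.1, h⟩
  have e5 := (Finset.card_le_card e4).trans (Finset.card_union_le _ _)
  omega

end Pool.Agent.H13.FG
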