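import Pool.Agent.H13.FG.Basic

/-!
# MP_4c8b8e_co, row FIRE-G6: case B, two good sectors with different labels
-/

set_option autoImplicit false

open scoped BigOperators

namespace Pool.Agent.H13.FG

open Classical Pool.Agent.H3.FF CV TV

variable {K H : ℕ} [NeZero K]

/-- the line `(a, c)` has the label `o` in the sector `i` -/
def G6Ok (B : Finset (Finset (TV K H))) (i : ZMod K) (o : Option (Finset (TV K H)))
    (p : ZMod 4 × ℕ) : Prop :=
  ∀ x ≤ H, ∀ y ≤ H, LinAt H p.1 p.2 i x y → Has B o (sq i x y)

theorem g6_card (f : ℕ → ℕ) (A : Finset ℕ) : (A.filter (fun c => f c ≠ 0)).card ≤ ∑ c ∈ A, f c := by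
  rw [Finset.card_filter]
  refine Finset.sum_le_sum (fun c _ => ?_)
  split
  · omega
  · omega

theorem g6_four (t : ZMod 4) : t = 0 ∨ t = 1 ∨ t = 2 ∨ t = 3 := by
  revert t
  decide

/-- in a good sector almost all lines have the label of the sector -/
theorem g6_bad (B : Finset (Finset (TV K H))) (d : ℕ) (i : ZMod K)
    (o : Option (Finset (TV K H))) (hd : d + 3 ≤ H) (he : es (un B) i ≤ d) (hl : Lab B d i o) :
    (((Finset.univ : Finset (ZMod 4)) ×ˢ Finset.Ioo 0 H).filter
      (fun p => ¬ G6Ok B i o p)).card ≤ 3 * d + 2 := by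
  set t0 : ZMod 4 := (i.val : ZMod 4) with ht0
  set X := (Finset.Ioo 0 H).filter (fun c => cx (un B) i c ≠ 0) with hX
  set Y := (Finset.Ioo 0 H).filter (fun c => cy (un B) i c ≠ 0) with hY
  set D := (Finset.Ioo 0 (2 * H)).filter (fun s => cd (un B) i s ≠ 0) with hD
  have hXc : X.card ≤ ∑ c ∈ Finset.Ioo 0 H, cx (un B) i c := g6_card _ _
  have hYc : Y.card ≤ ∑ c ∈ Finset.Ioo 0 H, cy (un B) i c := g6_card _ _
  have hDc : D.card ≤ ∑ s ∈ Finset.Ioo 0 (2 * H), cd (un B) i s := g6_card _ _
  have hsum : X.card + Y.card + D.card ≤ d := by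
    have : es (un B) i = ∑ c ∈ Finset.Ioo 0 H, cx (un B) i c + ∑ c ∈ Finset.Ioo 0 H, cy (un B) i c
        + ∑ s ∈ Finset.Ioo 0 (2 * H), cd (un B) i s := by
      unfold es
      rw [Finset.sum_add_distrib]
    omega
  have hsub : (((Finset.univ : Finset (ZMod 4)) ×ˢ Finset.Ioo 0 H).filter
      (fun p => ¬ G6Ok B i o p)) ⊆
      (X.image (fun c => (t0, c))) ∪ (Y.image (fun c => (t0 - 2, c))) ∪
      (D.image (fun s => if s < H then (t0 - 1, s) else (t0 - 3, s - H))) ∪
      ((Finset.Ico 1 (d + 2)).image (fun c => (t0 - 1, c))) ∪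
      ((Finset.Ico (H - d - 1) H).image (fun c => (t0 - 3, c))) := by
    rintro ⟨a, c⟩ hp
    rw [Finset.mem_filter, Finset.mem_product, Finset.mem_Ioo] at hp
    obtain ⟨⟨_, hc0, hcH⟩, hbad⟩ := hp
    simp only at hc0 hcH
    have hall : ∀ t : ZMod 4, t0 - a = t → a = t0 - t := by
      intro t h
      rw [← h, sub_sub_cancel]
    rcases g6_four (t0 - a) with h | h | h | h
    · -- `y = c`
      have ha := hall _ h
      rw [sub_zero] at ha
      have hcx : cx (un B) i c ≠ 0 := by
        intro h0
        apply hbad
        intro x hx y hy hxy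
        rcases hxy with ⟨_, h2⟩ | ⟨h2, _⟩ | ⟨h2, _⟩ | ⟨h2, _⟩
        · simp only at h2
          rw [h2]
          exact hl.x c hc0 hcH h0 x hx
        · exfalso
          simp only at h2
          rw [← ht0, h] at h2
          revert h2; decide
        · exfalso
          simp only at h2
          rw [← ht0, h] at h2
          revert h2; decide
        · exfalso
          simp only at h2
          rw [← ht0, h] at h2
          revert h2; decide
      simp only [Finset.mem_union]
      left; left; left; left
      rw [Finset.mem_image]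
      refine ⟨c, ?_, by rw [ha]⟩
      rw [hX, Finset.mem_filter, Finset.mem_Ioo]
      exact ⟨⟨hc0, hcH⟩, hcx⟩
    · -- `x + y = c`
      have ha := hall _ h
      by_cases hcd : c < d + 2
      · simp only [Finset.mem_union]
        left; right
        rw [Finset.mem_image]
        exact ⟨c, by rw [Finset.mem_Ico]; omega, by rw [ha]⟩
      · have hcx : cd (un B) i c ≠ 0 := by
          intro h0
          apply hbad
          intro x hx y hy hxy
          rcases hxy with ⟨h2, _⟩ | ⟨_, h2⟩ | ⟨h2, _⟩ | ⟨h2, _⟩
          · exfalso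
            simp only at h2
            rw [← ht0, h] at h2
            revert h2; decide
          · simp only at h2
            exact hl.d c (by omega) (by omega) h0 x hx y hy h2
          · exfalso
            simp only at h2
            rw [← ht0, h] at h2
            revert h2; decide
          · exfalso
            simp only at h2
            rw [← ht0, h] at h2
            revert h2; decide
        simp only [Finset.mem_union]
        left; left; right
        rw [Finset.mem_image]
        refine ⟨c, ?_, by rw [if_pos hcH, ha]⟩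
        rw [hD, Finset.mem_filter, Finset.mem_Ioo]
        exact ⟨⟨hc0, by omega⟩, hcx⟩
    · -- `x = c`
      have ha := hall _ h
      have hcx : cy (un B) i c ≠ 0 := by
        intro h0
        apply hbad
        intro x hx y hy hxy
        rcases hxy with ⟨h2, _⟩ | ⟨h2, _⟩ | ⟨_, h2⟩ | ⟨h2, _⟩
        · exfalso
          simp only at h2
          rw [← ht0, h] at h2
          revert h2; decide
        · exfalso
          simp only at h2
          rw [← ht0, h] at h2
          revert h2; decide
        · simp only at h2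
          rw [h2]
          exact hl.y c hc0 hcH h0 y hy
        · exfalso
          simp only at h2
          rw [← ht0, h] at h2
          revert h2; decide
      simp only [Finset.mem_union]
      left; left; left; right
      rw [Finset.mem_image]
      refine ⟨c, ?_, by rw [ha]⟩
      rw [hY, Finset.mem_filter, Finset.mem_Ioo]
      exact ⟨⟨hc0, hcH⟩, hcx⟩
    · -- `x + y = H + c`
      have ha := hall _ h
      by_cases hcd : H - d - 1 ≤ c
      · simp only [Finset.mem_union]
        right
        rw [Finset.mem_image]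
        exact ⟨c, by rw [Finset.mem_Ico]; omega, by rw [ha]⟩
      · have hcx : cd (un B) i (H + c) ≠ 0 := by
          intro h0
          apply hbad
          intro x hx y hy hxy
          rcases hxy with ⟨h2, _⟩ | ⟨h2, _⟩ | ⟨h2, _⟩ | ⟨_, h2⟩
          · exfalso
            simp only at h2
            rw [← ht0, h] at h2
            revert h2; decide
          · exfalso
            simp only at h2
            rw [← ht0, h] at h2
            revert h2; decide
          · exfalso
            simp only at h2
            rw [← ht0, h] at h2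
            revert h2; decide
          · simp only at h2
            exact hl.d (H + c) (by omega) (by omega) h0 x hx y hy h2
        simp only [Finset.mem_union]
        left; left; right
        rw [Finset.mem_image]
        refine ⟨H + c, ?_, ?_⟩
        · rw [hD, Finset.mem_filter, Finset.mem_Ioo]
          exact ⟨⟨by omega, by omega⟩, hcx⟩
        · rw [if_neg (by omega), ha]
          congr 1
          omega
  refine (Finset.card_le_card hsub).trans ?_
  refine (Finset.card_union_le _ _).trans ?_
  have h5 : ((Finset.Ico (H - d - 1) H).image (fun c => (t0 - 3, c))).card ≤ d + 1 := by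
    refine Finset.card_image_le.trans ?_
    rw [Nat.card_Ico]
    omega
  have h4 : ((Finset.Ico 1 (d + 2)).image (fun c => (t0 - 1, c))).card ≤ d + 1 := by
    refine Finset.card_image_le.trans ?_
    rw [Nat.card_Ico]
    omega
  have h123 : ((X.image (fun c => (t0, c))) ∪ (Y.image (fun c => (t0 - 2, c))) ∪
      (D.image (fun s => if s < H then (t0 - 1, s) else (t0 - 3, s - H)))).card ≤
      X.card + Y.card + D.card := by
    refine (Finset.card_union_le _ _).trans ?_
    refine Nat.add_le_add ?_ Finset.card_image_le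
    refine (Finset.card_union_le _ _).trans ?_
    exact Nat.add_le_add Finset.card_image_le Finset.card_image_le
  have h1234 := Finset.card_union_le ((X.image (fun c => (t0, c))) ∪
      (Y.image (fun c => (t0 - 2, c))) ∪
      (D.image (fun s => if s < H then (t0 - 1, s) else (t0 - 3, s - H))))
      ((Finset.Ico 1 (d + 2)).image (fun c => (t0 - 1, c)))
  omega

omit [NeZero K] in
/-- every closed line has a point in every sector -/
theorem g6_pt (i : ZMod K) (a : ZMod 4) {c : ℕ} (hc : c < H) :
    ∃ x ≤ H, ∃ y ≤ H, LinAt H a c i x y := by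
  rcases g6_four ((i.val : ZMod 4) - a) with h | h | h | h
  · exact ⟨0, Nat.zero_le _, c, hc.le, Or.inl ⟨h, rfl⟩⟩
  · exact ⟨0, Nat.zero_le _, c, hc.le, Or.inr (Or.inl ⟨h, by omega⟩)⟩
  · exact ⟨c, hc.le, 0, Nat.zero_le _, Or.inr (Or.inr (Or.inl ⟨h, rfl⟩))⟩
  · exact ⟨H, le_refl _, c, hc.le, Or.inr (Or.inr (Or.inr ⟨h, rfl⟩))⟩

theorem scaseB (h1 : SSq) (h3 : SLin) : SCaseB := by
  intro K H _ hK B hB d S g g' o hd he he' hl hl' ho
  have hL := h3 K H hK S
  set A := ((Finset.univ : Finset (ZMod 4)) ×ˢ Finset.Ioo 0 H) with hA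
  have hAc : A.card = 4 * (H - 1) := by
    rw [hA, Finset.card_product, Nat.card_Ioo, Finset.card_univ, ZMod.card]
    rfl
  have hb1 := g6_bad B d g (some S) hd he hl
  have hb2 := g6_bad B d g' o hd he' hl'
  rw [← hA] at hb1 hb2
  have hsub : A \ (A.filter (fun p => ¬ G6Ok B g (some S) p) ∪
      A.filter (fun p => ¬ G6Ok B g' o p)) ⊆ A.filter (fun p => Mixed S p.1 p.2) := by
    rintro ⟨a, c⟩ hp
    rw [Finset.mem_sdiff, Finset.mem_union, Finset.mem_filter, Finset.mem_filter] at hp
    obtain ⟨hpA, hp2⟩ := hp
    push Not at hp2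
    have h5 : G6Ok B g (some S) (a, c) := hp2.1 hpA
    have h6 : G6Ok B g' o (a, c) := hp2.2 hpA
    rw [Finset.mem_filter]
    refine ⟨hpA, ?_⟩
    have hc : c < H := by
      rw [hA, Finset.mem_product, Finset.mem_Ioo] at hpA
      exact hpA.2.2
    obtain ⟨x, hx, y, hy, hxy⟩ := g6_pt (H := H) g a hc
    obtain ⟨x', hx', y', hy', hxy'⟩ := g6_pt (H := H) g' a hc
    have h7 : S ∈ B ∧ (sq g x y : TV K H) ∈ S := h5 x hx y hy hxy
    have h8 : Has B o (sq g' x' y' : TV K H) := h6 x' hx' y' hy' hxy'
    refine ⟨⟨_, ⟨g, x, y, hx, hy, hxy, rfl⟩, h7.2⟩, ⟨_, ⟨g', x', y', hx', hy', hxy', rfl⟩, ?_⟩⟩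
    intro hS
    cases o with
    | none =>
      apply h8
      unfold un
      rw [Finset.mem_biUnion]
      exact ⟨S, h7.1, hS⟩
    | some T =>
      apply ho
      have h9 : T ∈ B ∧ (sq g' x' y' : TV K H) ∈ T := h8
      rw [hB T h9.1 S h7.1 _ h9.2 _ hS (Or.inl rfl)]
  have hcard := Finset.card_le_card hsub
  have h9 := Finset.le_card_sdiff (A.filter (fun p => ¬ G6Ok B g (some S) p) ∪
      A.filter (fun p => ¬ G6Ok B g' o p)) A
  have h10 := Finset.card_union_le (A.filter (fun p => ¬ G6Ok B g (some S) p))
      (A.filter (fun p => ¬ G6Ok B g' o p))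
  omega

end Pool.Agent.H13.FG
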