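import Pool.Agent.H13.FG.GStm

/-!
# MP_4c8b8e_co: FIRE-G26, combinatorial part of the summary
-/

set_option autoImplicit false

open scoped BigOperators

namespace Pool.Agent.H13.FG

open Classical Pool.Agent.H3.FF CV TV

/-- the label of a good sector occurs in the sector -/
theorem g26_has {K H : ℕ} [NeZero K] {B : Finset (Finset (TV K H))} {i : ZMod K} {d e : ℕ}
    (he : e ≤ d) (hd : 2 * d + 4 ≤ H) {o : Option (Finset (TV K H))}
    (hc : ((Finset.range (H + 1) ×ˢ Finset.range (H + 1)).filter
      (fun p => ¬ Has B o (sq i p.1 p.2))).card ≤ (e + 2) ^ 2) :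
    ∃ f : TV K H, Has B o f := by
  by_contra hno
  have h1 : ((Finset.range (H + 1) ×ˢ Finset.range (H + 1)).filter
      (fun p => ¬ Has B o (sq i p.1 p.2))) = Finset.range (H + 1) ×ˢ Finset.range (H + 1) := by
    rw [Finset.filter_true_of_mem]
    intro p _ hp
    exact hno ⟨_, hp⟩
  rw [h1, Finset.card_product, Finset.card_range] at hc
  have h2 : e + 2 < H + 1 := by omega
  nlinarith

/-- FIRE-G26. -/
theorem scomb (h4 : SGood) (h5 : SGlob) (h6 : SCaseB) (h17 : SCutU) : SComb := by
  intro K H _ hK B hB d hd hcut hbig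
  have hK4 : 4 ≤ K := Nat.le_of_dvd (Nat.pos_of_ne_zero (NeZero.ne K)) hK
  have hd3 : d + 3 ≤ H := by omega
  -- a member with the label of a good sector is in the family
  have hmem : ∀ (i : ZMod K) (T : Finset (TV K H)), es (un B) i ≤ d → Lab B d i (some T) →
      T ∈ B := by
    intro i T hi hT
    obtain ⟨o, _, hu, hc⟩ := h4 K H hK4 B hB i d hi hd3
    have h1 := hu (some T) hT
    subst h1
    obtain ⟨f, hf⟩ := g26_has hi hd hc
    exact hf.1
  -- the sets that are small in all good sectors
  have hsub : ∀ (W : Finset (TV K H)), (∀ (i : ZMod K) (o : Option (Finset (TV K H))),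
      es (un B) i ≤ d → Lab B d i o → ∀ f ∈ W, ¬ Has B o f) →
      (d + 1) * W.card ≤
        cut (un B) * (H + 1) ^ 2 + (d + 1) * ((d + 4) * cut (un B) + 4 * K) := by
    intro W hW
    refine h5 K H hK4 (un B) W d fun i hi => ?_
    obtain ⟨o, hL, _, hc⟩ := h4 K H hK4 B hB i d hi hd3
    refine (Finset.card_le_card fun p hp => ?_).trans hc
    rw [Finset.mem_filter] at hp ⊢
    exact ⟨hp.1, hW i o hi hL _ hp.2⟩
  -- a good sector with the label of a member
  obtain ⟨g, S, hg, hgS⟩ : ∃ (g : ZMod K) (S : Finset (TV K H)), es (un B) g ≤ d ∧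
      Lab B d g (some S) := by
    by_contra hno
    have h1 := hsub (un B) fun i o hi hL f hf hH => by
      cases o with
      | none => exact hH hf
      | some T => exact hno ⟨i, T, hi, hL⟩
    omega
  by_cases hall : ∀ i : ZMod K, es (un B) i ≤ d → Lab B d i (some S)
  · refine ⟨S, g, hg, hgS, Or.inl (hsub Sᶜ fun i o hi hL f hf hH => ?_)⟩
    obtain ⟨o', _, hu, _⟩ := h4 K H hK4 B hB i d hi hd3
    have h1 : o = some S := (hu o hL).trans (hu (some S) (hall i hi)).symm
    subst h1
    rw [Finset.mem_compl] at hf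
    exact hf hH.2
  · push Not at hall
    obtain ⟨g', hg', hgS'⟩ := hall
    obtain ⟨o, hL, _, _⟩ := h4 K H hK4 B hB g' d hg' hd3
    have ho : o ≠ some S := by
      intro h
      rw [h] at hL
      exact hgS' hL
    have h8 := h6 K H hK B hB d S g g' o hd3 hg hg' hgS hL ho
    refine ⟨S, g, hg, hgS, Or.inr ⟨h8, hsub (un B \ S) fun i o' hi hL' f hf hH => ?_⟩⟩
    rw [Finset.mem_sdiff] at hf
    cases o' with
    | none => exact hH hf.1
    | some T =>
      by_cases hTS : T = S
      · rw [hTS] at hH
        exact hf.2 hH.2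
      · have h9 := h6 K H hK B hB d T i g (some S) hd3 hi hg hL' hgS
          (fun h => hTS (Option.some.inj h).symm)
        have h10 : cut S + cut T ≤ cut (un B) := by
          rw [h17 K H B hB, ← Finset.sum_pair (fun h => hTS h.symm)]
          refine Finset.sum_le_sum_of_subset fun X hX => ?_
          rw [Finset.mem_insert, Finset.mem_singleton] at hX
          rcases hX with rfl | rfl
          · exact hmem g X hg hgS
          · exact hmem i X hi hL'
        omega

end Pool.Agent.H13.FG
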