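import Pool.Agent.H13.FG.Basic

/-!
# MP_4c8b8e_co: geometry of the bipyramid, the lattice is connected (FIRE-G19, helper21)
-/

set_option autoImplicit false

open scoped BigOperators

namespace Pool.Agent.H13.FG

open Classical Pool.Agent.H3.FF CV TV

variable {K H : ℕ} [NeZero K]

/-- the apex does not depend on the sector -/
theorem g19_apex (i j : ZMod K) : (sq i 0 0 : TV K H) = sq j 0 0 := by
  apply Subtype.ext
  rw [sq_val i (Nat.zero_le H) (Nat.zero_le H), sq_val j (Nat.zero_le H) (Nat.zero_le H)]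
  funext c
  cases c with
  | N => rfl
  | S => rfl
  | A k => simp [sqf]

theorem g19_zero (f g : TV K 0) : f = g := by
  apply Subtype.ext
  funext c
  have h1 := TV.le f c
  have h2 := TV.le g c
  omega

theorem sconn (h : SSq) : SConn := by
  intro K H _ hK S hS hU
  by_contra hc
  have hc0 : cut S = 0 := by omega
  rcases Nat.eq_zero_or_pos H with h0 | hH
  · subst h0
    obtain ⟨f, hf⟩ := hS
    apply hU
    rw [Finset.eq_univ_iff_forall]
    intro g
    rw [g19_zero g f]
    exact hf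
  obtain ⟨h1, h2, h3, -, -, -, -, -, h4, -⟩ := h K H hK hH
  have hcl : ∀ f ∈ S, ∀ g : TV K H, Ad f g → g ∈ S := by
    intro f hf g hfg
    by_contra hg
    unfold cut at hc0
    rw [Finset.card_eq_zero, Finset.filter_eq_empty_iff] at hc0
    exact hc0 (x := (f, g)) (Finset.mem_product.2 ⟨hf, Finset.mem_compl.2 hg⟩) hfg
  have hdx : ∀ (i : ZMod K) (y : ℕ), y ≤ H → ∀ x, x ≤ H →
      (sq i x y ∈ S ↔ sq i 0 y ∈ S) := by
    intro i y hy x
    induction x with
    | zero => exact fun _ => Iff.rfl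
    | succ x ih =>
      intro hx
      rw [← ih (by omega)]
      have h5 := h2 i x y (by omega) hy
      exact ⟨fun h6 => hcl _ h6 _ (h4 _ _ h5).1, fun h6 => hcl _ h6 _ h5⟩
  have hdy : ∀ (i : ZMod K) (y : ℕ), y ≤ H → (sq i 0 y ∈ S ↔ sq i 0 0 ∈ S) := by
    intro i y
    induction y with
    | zero => exact fun _ => Iff.rfl
    | succ y ih =>
      intro hy
      rw [← ih (by omega)]
      have h5 := h3 i 0 y (by omega) (by omega)
      exact ⟨fun h6 => hcl _ h6 _ (h4 _ _ h5).1, fun h6 => hcl _ h6 _ h5⟩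
  obtain ⟨f, hf⟩ := hS
  obtain ⟨i, x, y, hx, hy, rfl⟩ := h1 f
  have hN : sq i 0 0 ∈ S := (hdy i y hy).1 ((hdx i y hy x hx).1 hf)
  apply hU
  rw [Finset.eq_univ_iff_forall]
  intro g
  obtain ⟨j, x', y', hx', hy', rfl⟩ := h1 g
  rw [hdx j y' hy' x' hx', hdy j y' hy', g19_apex j i]
  exact hN

end Pool.Agent.H13.FG
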