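import Pool.Agent.H13.FG.Basic

/-!
# MP_4c8b8e_co: the cut of the union of a family
-/

set_option autoImplicit false

open scoped BigOperators

namespace Pool.Agent.H13.FG

open Classical Pool.Agent.H3.FF CV TV

theorem scutU : SCutU := by
  intro K H _ B hB
  unfold cut
  have h1 : ((un B ×ˢ (un B)ᶜ).filter fun p => Ad p.1 p.2) =
      B.biUnion fun S => (S ×ˢ Sᶜ).filter fun p => Ad p.1 p.2 := by
    ext ⟨f, g⟩
    simp only [Finset.mem_filter, Finset.mem_product, Finset.mem_compl, Finset.mem_biUnion, un,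
      id]
    constructor
    · rintro ⟨⟨⟨S, hS, hf⟩, hg⟩, h⟩
      exact ⟨S, hS, ⟨hf, fun h2 => hg ⟨S, hS, h2⟩⟩, h⟩
    · rintro ⟨S, hS, ⟨hf, hg⟩, h⟩
      refine ⟨⟨⟨S, hS, hf⟩, ?_⟩, h⟩
      rintro ⟨T, hT, hgT⟩
      have h2 := hB S hS T hT f hf g hgT (Or.inr h)
      exact hg (h2 ▸ hgT)
  rw [h1, Finset.card_biUnion]
  intro S hS T hT hST
  show Disjoint _ _
  rw [Finset.disjoint_left]
  rintro ⟨f, g⟩ h2 h3
  rw [Finset.mem_filter, Finset.mem_product] at h2 h3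
  exact hST (hB S hS T hT f h2.1.1 f h3.1.1 (Or.inl rfl))

end Pool.Agent.H13.FG
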