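import Pool.Agent.H3.FF.Defs

/-!
# MP_4c8b8e_co: geometry of the bipyramid, common definitions

Square sectors `sq i x y`, `0 ≤ x, y ≤ H`, of the triangulation `TV K H`; walks, distances, edge
cuts.
-/

set_option autoImplicit false

open scoped BigOperators

namespace Pool.Agent.H13.FG

open Classical Pool.Agent.H3.FF CV TV

variable {K H : ℕ} [NeZero K]

theorem TV.le (f : TV K H) (c : CV K) : f.1 c ≤ H := by
  have h := f.2.1
  calc f.1 c ≤ ∑ c, f.1 c := Finset.single_le_sum (fun _ _ => Nat.zero_le _) (Finset.mem_univ c)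
    _ = H := h

instance : Finite (TV K H) := by
  refine Finite.of_injective (β := CV K → Fin (H + 1))
    (fun f c => ⟨f.1 c, Nat.lt_succ_of_le (TV.le f c)⟩) ?_
  intro f g h
  apply Subtype.ext
  funext c
  have := congrFun h c
  simpa using congrArg Fin.val this

noncomputable instance : Fintype (TV K H) := Fintype.ofFinite _

/-- equal or adjacent -/
def AdE (f g : TV K H) : Prop := f = g ∨ Ad f g

/-- walks of length `n` in the lattice (pauses are allowed) -/
def Wk (w : ℕ → TV K H) (n : ℕ) : Prop := ∀ i < n, AdE (w i) (w (i + 1))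

/-- distance at most `n` -/
def Nr (n : ℕ) (f g : TV K H) : Prop := ∃ w : ℕ → TV K H, Wk w n ∧ w 0 = f ∧ w n = g

/-- number of edges that leave the set `S` -/
noncomputable def cut (S : Finset (TV K H)) : ℕ :=
  ((S ×ˢ Sᶜ).filter (fun p => Ad p.1 p.2)).card

/-- the points of a walk -/
def trace (w : ℕ → TV K H) (n : ℕ) : Set (TV K H) := {f | ∃ i ≤ n, w i = f}

/-- the points at distance at most `r` from the set `A` -/
def nb (r : ℕ) (A : Set (TV K H)) : Set (TV K H) := {z | ∃ f ∈ A, Nr r z f}

/-- number of points of `Z` at distance at most `r` from the set `A` -/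
noncomputable def dust (Z : Finset (TV K H)) (r : ℕ) (A : Set (TV K H)) : ℕ :=
  (Z.filter (fun z => z ∈ nb r A)).card

/-- coordinate functions of the square sectors -/
def sqf (H : ℕ) (i : ZMod K) (x y : ℕ) : CV K → ℕ
  | CV.N => H - (x + y)
  | CV.S => x + y - H
  | CV.A j => (if j = i then min x (H - y) else 0) + (if j = i + 1 then min y (H - x) else 0)

theorem sum_cv (f : CV K → ℕ) : ∑ c, f c = f CV.N + f CV.S + ∑ j : ZMod K, f (A j) := by
  rw [← Equiv.sum_comp (equiv (K := K)).symm, Fintype.sum_sum_type]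
  simp [equiv]

theorem sqf_sum (i : ZMod K) {x y : ℕ} (hx : x ≤ H) (hy : y ≤ H) :
    ∑ c, sqf H i x y c = H := by
  rw [sum_cv]
  simp only [sqf, Finset.sum_add_distrib, Finset.sum_ite_eq', Finset.mem_univ, if_true]
  omega

theorem sqf_sp (i : ZMod K) (x y : ℕ) : ∃ b j, Sp b j (sqf H i x y) := by
  refine ⟨decide (x + y ≤ H), i, ?_⟩
  intro c hc
  unfold fc at hc
  push Not at hc
  obtain ⟨h1, h2, h3⟩ := hc
  cases c with
  | N =>
    by_cases h : x + y ≤ H
    · exact absurd (by simp [P, h]) h1
    · simp only [sqf]; omega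
  | S =>
    by_cases h : x + y ≤ H
    · simp only [sqf]; omega
    · exact absurd (by simp [P, h]) h1
  | A j =>
    have h4 : j ≠ i := fun h => h2 (by rw [h])
    have h5 : j ≠ i + 1 := fun h => h3 (by rw [h])
    simp [sqf, h4, h5]

/-- the point with the coordinates `(x, y)` of the square sector `i`; `(0, 0)` is the apex `N`,
`(H, H)` is the apex `S`, `(H, 0)` is `A i` and `(0, H)` is `A (i + 1)` -/
def sq (i : ZMod K) (x y : ℕ) : TV K H :=
  ⟨sqf H i (min x H) (min y H), sqf_sum i (Nat.min_le_right _ _) (Nat.min_le_right _ _),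
    sqf_sp i _ _⟩

/-- the level: distance from `N` -/
def lev (f : TV K H) : ℕ := H - f.1 CV.N + f.1 CV.S

/-- a family of sets that are pairwise disjoint and not adjacent -/
def Apart (B : Finset (Finset (TV K H))) : Prop :=
  ∀ S ∈ B, ∀ T ∈ B, ∀ f ∈ S, ∀ g ∈ T, AdE f g → S = T

/-- the union of a family -/
noncomputable def un (B : Finset (Finset (TV K H))) : Finset (TV K H) := B.biUnion id

end Pool.Agent.H13.FG
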