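import Pool.Agent.H13.FG.Basic

/-!
# MP_4c8b8e_co: geometry of the bipyramid, statements of the summary
-/

set_option autoImplicit false

open scoped BigOperators

namespace Pool.Agent.H13.FG

open Classical Pool.Agent.H3.FF CV TV

/-- conditions on the constants -/
structure Cst (η c1 δ e C3 C4 k : ℝ) : Prop where
  he0 : 0 < η
  he1 : η ≤ 1 / 4
  hc0 : 0 < c1
  hc1 : c1 ≤ η / 20
  hd0 : 0 < δ
  hd1 : δ ≤ c1 / 1000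
  hm0 : 0 < e
  hm1 : e ≤ c1 / 1000
  hC3 : 0 < C3
  hC4 : 0 < C4
  hk0 : 0 < k

/-- the hypotheses of the summary `SGeo` -/
structure GHyp {K H : ℕ} [NeZero K] (η c1 C3 C4 : ℝ) (i0 : ZMod K) (x0 y0 : ℕ)
    (B : Finset (Finset (TV K H))) (Q Z : Finset (TV K H)) (t1 : ℕ) : Prop where
  ap : Apart B
  x1 : η * H ≤ x0
  y1 : η * H ≤ y0
  x2 : (x0 : ℝ) ≤ (1 - η) * H
  y2 : (y0 : ℝ) ≤ (1 - η) * H
  ht1 : c1 * H - 1 ≤ t1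
  ht2 : (t1 : ℝ) ≤ c1 * H
  q1 : ∀ f ∈ Q, Nr t1 (sq i0 x0 y0) f
  q2 : ∀ f ∈ Q, f ∉ un B
  q3 : 0.48 * (t1 : ℝ) ^ 2 ≤ Q.card + C4 * H
  z : (Z.card : ℝ) ≤ C3 * H

/-- FIRE-G21. Polar routes. -/
def SPolar : Prop := ∀ (K : ℕ) [NeZero K], 4 ≤ K → ∀ e C3 k : ℝ, 0 < e → 0 < C3 → 0 < k →
  ∀ r0 : ℕ, ∃ H0 : ℕ, ∀ H : ℕ, H0 ≤ H → ∀ Z : Finset (TV K H), (Z.card : ℝ) ≤ C3 * H →
    ∀ f g : TV K H, ∃ (w : ℕ → TV K H) (n : ℕ), Wk w n ∧ w 0 = f ∧ w n = g ∧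
      (n : ℝ) ≤ min ((lev f : ℝ) + lev g) (4 * H - lev f - lev g) + e * H ∧
      (dust Z r0 (trace w n) : ℝ) ≤ k * H

/-- FIRE-G22. Points with the label of a good sector near the apices. -/
def SPole : Prop := ∀ (K H : ℕ) [NeZero K], 4 ≤ K → ∀ B : Finset (Finset (TV K H)), Apart B →
  ∀ (d : ℕ) (S : Finset (TV K H)) (g : ZMod K), 2 * d + 4 ≤ H → es (un B) g ≤ d →
    Lab B d g (some S) →
      S ∈ B ∧ (∃ f ∈ S, lev f ≤ 2 * d + 3) ∧ (∃ f ∈ S, 2 * H ≤ lev f + (2 * d + 3)) ∧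
        (H + 1) ^ 2 ≤ S.card + (d + 2) ^ 2

/-- FIRE-G23. All members are near if the cut is long. -/
def SNearI : Prop := ∀ (K : ℕ) [NeZero K], 4 ∣ K → ∀ η c1 δ e C3 C4 k : ℝ,
  Cst η c1 δ e C3 C4 k → ∀ r0 : ℕ, ∃ H0 : ℕ, ∀ H : ℕ, H0 ≤ H →
  ∀ (i0 : ZMod K) (x0 y0 : ℕ) (B : Finset (Finset (TV K H))) (Q Z : Finset (TV K H)) (t1 : ℕ),
    GHyp η c1 C3 C4 i0 x0 y0 B Q Z t1 → ∀ lam : ℝ, 0 ≤ lam → lam ≤ 0.9 * H →
    8 * (H : ℝ) + 4 * (t1 + lam + 2 * e * H) ≤ cut (un B) →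
      ∀ S ∈ B, S.Nonempty → NearTo Q Z r0 k e t1 lam (un B) S

/-- FIRE-G24. Case A: the label of a good sector is near for small `lam`. -/
def SNearA : Prop := ∀ (K : ℕ) [NeZero K], 4 ∣ K → ∀ η c1 δ e C3 C4 k : ℝ,
  Cst η c1 δ e C3 C4 k → ∀ r0 : ℕ, ∃ H0 : ℕ, ∀ H : ℕ, H0 ≤ H →
  ∀ (i0 : ZMod K) (x0 y0 : ℕ) (B : Finset (Finset (TV K H))) (Q Z : Finset (TV K H)) (t1 : ℕ),
    GHyp η c1 C3 C4 i0 x0 y0 B Q Z t1 → ∀ lam : ℝ, 0 ≤ lam → lam ≤ c1 * H / 100 →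
    ∀ (d : ℕ) (S : Finset (TV K H)) (g : ZMod K), (d : ℝ) ≤ δ * H → es (un B) g ≤ d →
      Lab B d g (some S) → NearTo Q Z r0 k e t1 lam (un B) S

/-- FIRE-G25. Case B: the label of a good sector is near if its cut is long. -/
def SNearB : Prop := ∀ (K : ℕ) [NeZero K], 4 ∣ K → ∀ η c1 δ e C3 C4 k : ℝ,
  Cst η c1 δ e C3 C4 k → ∀ r0 : ℕ, ∃ H0 : ℕ, ∀ H : ℕ, H0 ≤ H →
  ∀ (i0 : ZMod K) (x0 y0 : ℕ) (B : Finset (Finset (TV K H))) (Q Z : Finset (TV K H)) (t1 : ℕ),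
    GHyp η c1 C3 C4 i0 x0 y0 B Q Z t1 → ∀ lam : ℝ, 0 ≤ lam → lam ≤ 0.9 * H →
    ∀ (d : ℕ) (S : Finset (TV K H)) (g : ZMod K), (d : ℝ) ≤ δ * H → es (un B) g ≤ d →
      Lab B d g (some S) → 8 * H ≤ cut S + 12 * d + 16 → NearTo Q Z r0 k e t1 lam (un B) S

/-- FIRE-G26. Combinatorial part of the summary: `d` = `⌊δ H⌋`. -/
def SComb : Prop := ∀ (K H : ℕ) [NeZero K], 4 ∣ K → ∀ B : Finset (Finset (TV K H)), Apart B →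
  ∀ d : ℕ, 2 * d + 4 ≤ H → cut (un B) + 24 * d + 33 ≤ 16 * H →
    cut (un B) * (H + 1) ^ 2 + (d + 1) * ((d + 4) * cut (un B) + 4 * K) <
      (d + 1) * (un B).card →
    ∃ (S : Finset (TV K H)) (g : ZMod K), es (un B) g ≤ d ∧ Lab B d g (some S) ∧
      ((d + 1) * Sᶜ.card ≤
        cut (un B) * (H + 1) ^ 2 + (d + 1) * ((d + 4) * cut (un B) + 4 * K) ∨
       (8 * H ≤ cut S + 12 * d + 16 ∧
        (d + 1) * (un B \ S).card ≤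
          cut (un B) * (H + 1) ^ 2 + (d + 1) * ((d + 4) * cut (un B) + 4 * K)))

/-- FIRE-G27. The members with short cuts are small together. -/
def SRest : Prop := ∀ (K H : ℕ) [NeZero K], 4 ∣ K → ∀ B : Finset (Finset (TV K H)), Apart B →
  ∀ (S : Finset (TV K H)) (m : ℕ), S ∈ B → S.Nonempty → cut (un B) ≤ cut S + m → 3 * m + 6 ≤ H →
    m ^ 2 + 4 * m + 4 * K < S.card →
      (un B \ S).card ≤ m ^ 2 + 4 * m + 4 * K * m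

/-- FIRE-G28. Assembly of the summary. -/
def SGeoOf : Prop := SPole → SNearI → SNearA → SNearB → SComb → SRest → SGeo

end Pool.Agent.H13.FG
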