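import Pool.Agent.H13.FG.GStm

/-!
# MP_4c8b8e_co: geometry of the bipyramid, row G28: assembly of the summary
-/

set_option autoImplicit false

open scoped BigOperators

namespace Pool.Agent.H13.FG

open Classical Pool.Agent.H3.FF CV TV

/-- the real inequality for the combinatorial part -/
private theorem g28_bd {h δ d c K : ℝ} (hδ0 : 0 < δ) (hδ1 : δ ≤ 1) (hh : 100 ≤ h)
    (hK : 4 * K ≤ h) (hd0 : 0 ≤ d) (hd1 : d ≤ h) (hd2 : δ * h < d + 1)
    (hc0 : 0 ≤ c) (hc1 : c ≤ 12 * h) :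
    c * (h + 1) ^ 2 + (d + 1) * ((d + 4) * c + 4 * K) < (d + 1) * (100 / δ * h ^ 2) := by
  have hP0 : 0 < 1 / δ := by positivity
  have hP1 : 1 ≤ 1 / δ := by rwa [one_le_div hδ0]
  have hPδ : 1 / δ * δ = 1 := by field_simp
  have hdP : h ≤ 1 / δ * (d + 1) := by
    calc h = 1 / δ * (δ * h) := by rw [← mul_assoc, hPδ, one_mul]
      _ ≤ 1 / δ * (d + 1) := mul_le_mul_of_nonneg_left hd2.le hP0.le
  have hh0 : 0 < h := by linarith
  have hA1 : (h + 1) ^ 2 ≤ 4 * h ^ 2 := by nlinarith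
  have hA : c * (h + 1) ^ 2 ≤ 48 * (h * h ^ 2) := by
    calc c * (h + 1) ^ 2 ≤ 12 * h * (4 * h ^ 2) :=
          mul_le_mul hc1 hA1 (by positivity) (by positivity)
      _ = 48 * (h * h ^ 2) := by ring
  have hB : (d + 4) * c + 4 * K ≤ 50 * h ^ 2 := by
    have h1 : (d + 4) * c ≤ (h + 4) * (12 * h) :=
      mul_le_mul (by linarith) hc1 hc0 (by linarith)
    have h2 : 100 * h ≤ h ^ 2 := by nlinarith
    have h3 : (h + 4) * (12 * h) = 12 * h ^ 2 + 48 * h := by ring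
    linarith
  have hC : h * h ^ 2 ≤ 1 / δ * (d + 1) * h ^ 2 :=
    mul_le_mul_of_nonneg_right hdP (by positivity)
  have hD : (d + 1) * ((d + 4) * c + 4 * K) ≤ (d + 1) * (50 * (1 / δ * h ^ 2)) := by
    refine mul_le_mul_of_nonneg_left (hB.trans ?_) (by linarith)
    have h2 : h ^ 2 ≤ 1 / δ * h ^ 2 := le_mul_of_one_le_left (by positivity) hP1
    linarith
  have hE : (d + 1) * (100 / δ * h ^ 2) =
      50 * (1 / δ * (d + 1) * h ^ 2) + (d + 1) * (50 * (1 / δ * h ^ 2)) := by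
    field_simp
    ring
  have hF : 0 < h * h ^ 2 := by positivity
  rw [hE]
  linarith

/-- Row G28: assembly of the summary. -/
theorem sgeoOf : SGeoOf := by
  intro hPole hNI hNA hNB hComb hRest K _ h4 η c1 δ e C3 C4 k hη0 hη1 hc0 hc1 hδ0 hδ1 he0 he1 hC3 hC4 hk0 r0
  have hcst : Cst η c1 δ e C3 C4 k := ⟨hη0, hη1, hc0, hc1, hδ0, hδ1, he0, he1, hC3, hC4, hk0⟩
  obtain ⟨H1, hH1⟩ := hNI K h4 η c1 δ e C3 C4 k hcst r0
  obtain ⟨H2, hH2⟩ := hNA K h4 η c1 δ e C3 C4 k hcst r0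
  obtain ⟨H3, hH3⟩ := hNB K h4 η c1 δ e C3 C4 k hcst r0
  obtain ⟨H4, hH4⟩ := exists_nat_ge ((16 * (1 + (K : ℝ)) + 1) / c1 + 4 / δ + 4 * K + 100)
  have hc1' : c1 ≤ 1 / 80 := by linarith
  have hδ' : δ ≤ 1 / 80000 := by linarith
  have he' : e ≤ 1 / 80000 := by linarith
  have hK4 : 4 ≤ K := Nat.le_of_dvd (NeZero.pos K) h4
  have hKr : (0 : ℝ) ≤ K := Nat.cast_nonneg _
  refine ⟨max (max H1 H2) (max H3 H4), ?_⟩
  intro H hHH i0 x0 y0 hx1 hy1 hx2 hy2 B Q Z t1 hap ht1 ht2 hq1 hq2 hq3 hz hbig lam hlam0 hlam1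
  have hHH1 : H1 ≤ H := ((le_max_left _ _).trans (le_max_left _ _)).trans hHH
  have hHH2 : H2 ≤ H := ((le_max_right _ _).trans (le_max_left _ _)).trans hHH
  have hHH3 : H3 ≤ H := ((le_max_left _ _).trans (le_max_right _ _)).trans hHH
  have hHH4 : H4 ≤ H := ((le_max_right _ _).trans (le_max_right _ _)).trans hHH
  have hG : GHyp η c1 C3 C4 i0 x0 y0 B Q Z t1 :=
    ⟨hap, hx1, hy1, hx2, hy2, ht1, ht2, hq1, hq2, hq3, hz⟩
  set h : ℝ := (H : ℝ) with hh
  have hX : (16 * (1 + (K : ℝ)) + 1) / c1 + 4 / δ + 4 * K + 100 ≤ h := by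
    refine hH4.trans ?_
    rw [hh]
    exact_mod_cast hHH4
  have hX1 : 0 ≤ (16 * (1 + (K : ℝ)) + 1) / c1 := by positivity
  have hX2 : 0 ≤ 4 / δ := by positivity
  have h100 : 100 ≤ h := by linarith
  have hKh : 4 * (K : ℝ) ≤ h := by linarith
  have hδh : 4 ≤ δ * h := by
    have h1 : 4 / δ ≤ h := by linarith
    rw [div_le_iff₀ hδ0] at h1
    linarith
  have hch : 16 * (1 + (K : ℝ)) + 1 ≤ c1 * h := by
    have h1 : (16 * (1 + (K : ℝ)) + 1) / c1 ≤ h := by linarith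
    rw [div_le_iff₀ hc0] at h1
    linarith
  have hh0 : 0 < h := by linarith
  by_cases hcase : 8 * (H : ℝ) + 4 * (t1 + lam + 2 * e * H) ≤ cut (un B)
  · exact Or.inl (hH1 H hHH1 i0 x0 y0 B Q Z t1 hG lam hlam0 hlam1 hcase)
  rw [not_le, ← hh] at hcase
  right
  set c : ℝ := (cut (un B) : ℝ) with hc
  have hc00 : 0 ≤ c := Nat.cast_nonneg _
  have hc12 : c ≤ 12 * h := by
    have h1 : e * h ≤ 1 / 80000 * h := mul_le_mul_of_nonneg_right he' hh0.le
    have h2 : c1 * h ≤ 1 / 80 * h := mul_le_mul_of_nonneg_right hc1' hh0.le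
    linarith
  set d : ℕ := ⌊δ * h⌋₊ with hd
  have hδh0 : 0 ≤ δ * h := by positivity
  have hd1 : (d : ℝ) ≤ δ * h := Nat.floor_le hδh0
  have hd2 : δ * h < (d : ℝ) + 1 := Nat.lt_floor_add_one _
  have hδh1 : δ * h ≤ 1 / 80000 * h := mul_le_mul_of_nonneg_right hδ' hh0.le
  have hd0 : (0 : ℝ) ≤ d := Nat.cast_nonneg _
  have hn1 : 2 * d + 4 ≤ H := by
    have h1 : ((2 * d + 4 : ℕ) : ℝ) ≤ (H : ℝ) := by
      push_cast
      linarith
    exact_mod_cast h1
  have hn2 : cut (un B) + 24 * d + 33 ≤ 16 * H := by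
    have h1 : ((cut (un B) + 24 * d + 33 : ℕ) : ℝ) ≤ ((16 * H : ℕ) : ℝ) := by
      push_cast
      rw [← hc, ← hh]
      linarith
    exact_mod_cast h1
  have hbd := g28_bd (h := h) (δ := δ) (d := d) (c := c) (K := K) hδ0 (by linarith) h100 hKh
    hd0 (by linarith) hd2 hc00 hc12
  have hbdn : ((cut (un B) * (H + 1) ^ 2 + (d + 1) * ((d + 4) * cut (un B) + 4 * K) : ℕ) : ℝ) <
      ((d : ℝ) + 1) * (100 / δ * h ^ 2) := by
    push_cast
    exact hbd
  have hn3 : cut (un B) * (H + 1) ^ 2 + (d + 1) * ((d + 4) * cut (un B) + 4 * K) <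
      (d + 1) * (un B).card := by
    have h1 : ((cut (un B) * (H + 1) ^ 2 + (d + 1) * ((d + 4) * cut (un B) + 4 * K) : ℕ) : ℝ) <
        (((d + 1) * (un B).card : ℕ) : ℝ) := by
      refine hbdn.trans_le ?_
      push_cast
      exact mul_le_mul_of_nonneg_left hbig (by linarith)
    exact_mod_cast h1
  have hdp : (0 : ℝ) < (d : ℝ) + 1 := by linarith
  have hdiv : ∀ a : ℕ, (d + 1) * a ≤
      cut (un B) * (H + 1) ^ 2 + (d + 1) * ((d + 4) * cut (un B) + 4 * K) →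
      (a : ℝ) ≤ 100 / δ * h ^ 2 := by
    intro a ha
    have h1 : (((d + 1) * a : ℕ) : ℝ) ≤
      ((cut (un B) * (H + 1) ^ 2 + (d + 1) * ((d + 4) * cut (un B) + 4 * K) : ℕ) : ℝ) := by
      exact_mod_cast ha
    have h2 := h1.trans_lt hbdn
    push_cast at h2
    exact (lt_of_mul_lt_mul_left h2 hdp.le).le
  obtain ⟨S, g, hes, hLab, hor⟩ := hComb K H h4 B hap d hn1 hn2 hn3
  obtain ⟨hSB, ⟨f, hfS, -⟩, -, hScard⟩ := hPole K H hK4 B hap d S g hn1 hes hLab
  rcases hor with hor | ⟨hcutS, hor⟩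
  · left
    refine ⟨S, hSB, hdiv _ hor, fun hl => ?_⟩
    exact hH2 H hHH2 i0 x0 y0 B Q Z t1 hG lam hlam0 hl d S g hd1 hes hLab
  · right
    have hcs : ((un B).card : ℝ) ≤ S.card + (un B \ S).card := by
      have h1 : (un B).card ≤ S.card + (un B \ S).card := by
        have h2 := Finset.card_le_card_sdiff_add_card (s := un B) (t := S)
        omega
      exact_mod_cast h1
    refine ⟨S, hSB, ?_, ?_, ?_⟩
    · exact hH3 H hHH3 i0 x0 y0 B Q Z t1 hG lam hlam0 hlam1 d S g hd1 hes hLab hcutS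
    · have := hdiv _ hor
      linarith
    · intro hl
      set lam' : ℝ := t1 + lam + (2 * e + 4 * δ) * h with hlam'
      set m : ℕ := cut (un B) - cut S with hm
      have hcut1 : cut (un B) ≤ cut S + m := by omega
      have hSr : 8 * h ≤ (cut S : ℝ) + 12 * d + 16 := by
        have h1 : ((8 * H : ℕ) : ℝ) ≤ ((cut S + 12 * d + 16 : ℕ) : ℝ) := by exact_mod_cast hcutS
        push_cast at h1
        exact h1
      have ht0 : (0 : ℝ) ≤ t1 := Nat.cast_nonneg _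
      have heh : 0 ≤ e * h := by positivity
      have hlam'0 : 0 ≤ lam' := by
        rw [hlam']
        positivity
      have hm4 : (m : ℝ) ≤ 4 * lam' := by
        rcases le_total (cut S) (cut (un B)) with hle | hle
        · have h1 : (m : ℝ) = c - cut S := by
            rw [hm, Nat.cast_sub hle]
          rw [h1, hlam']
          linarith
        · have h1 : m = 0 := by omega
          rw [h1, Nat.cast_zero]
          linarith
      have hm5 : (m : ℝ) ≤ h / 4 := by linarith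
      have hm0 : (0 : ℝ) ≤ m := Nat.cast_nonneg _
      have hr1 : 3 * m + 6 ≤ H := by
        have h1 : ((3 * m + 6 : ℕ) : ℝ) ≤ (H : ℝ) := by
          push_cast
          linarith
        exact_mod_cast h1
      have hr2 : m ^ 2 + 4 * m + 4 * K < S.card := by
        have h1 : ((H : ℝ) + 1) ^ 2 ≤ S.card + ((d : ℝ) + 2) ^ 2 := by exact_mod_cast hScard
        rw [← hh] at h1
        have h2 : ((d : ℝ) + 2) ^ 2 ≤ (h / 2) ^ 2 :=
          pow_le_pow_left₀ (by linarith) (by linarith) 2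
        have h3 : (m : ℝ) ^ 2 ≤ (h / 4) ^ 2 := pow_le_pow_left₀ hm0 hm5 2
        have h4' : ((m ^ 2 + 4 * m + 4 * K : ℕ) : ℝ) < (S.card : ℝ) := by
          push_cast
          have e0 : 100 * h ≤ h ^ 2 := by nlinarith
          have e1 : (h + 1) ^ 2 = h ^ 2 + 2 * h + 1 := by ring
          have e2 : (h / 2) ^ 2 = h ^ 2 / 4 := by ring
          have e3 : (h / 4) ^ 2 = h ^ 2 / 16 := by ring
          rw [e1] at h1
          rw [e2] at h2
          rw [e3] at h3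
          linarith
        exact_mod_cast h4'
      have hr := hRest K H h4 B hap S m hSB ⟨f, hfS⟩ hcut1 hr1 hr2
      have hrr : ((un B \ S).card : ℝ) ≤ (m : ℝ) ^ 2 + 4 * m + 4 * K * m := by
        exact_mod_cast hr
      have hl1 : 16 * (1 + (K : ℝ)) ≤ lam' := by
        rw [hlam']
        have : 0 ≤ (2 * e + 4 * δ) * h := by positivity
        linarith
      have h5 : (m : ℝ) ^ 2 ≤ (4 * lam') ^ 2 := pow_le_pow_left₀ hm0 hm4 2
      have h6 : 4 * (K : ℝ) * m ≤ 4 * K * (4 * lam') := mul_le_mul_of_nonneg_left hm4 (by linarith)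
      have h7 : 16 * (1 + (K : ℝ)) * lam' ≤ lam' * lam' := mul_le_mul_of_nonneg_right hl1 hlam'0
      have e1 : (4 * lam') ^ 2 = 16 * (lam' * lam') := by ring
      have e2 : 16 * (1 + (K : ℝ)) * lam' = 16 * lam' + 4 * (K * (4 * lam')) := by ring
      have e3 : 4 * (K : ℝ) * (4 * lam') = 4 * (K * (4 * lam')) := by ring
      have e4 : lam' ^ 2 = lam' * lam' := by ring
      rw [e1] at h5
      rw [e2] at h7
      rw [e3] at h6
      rw [e4]
      linarith

end Pool.Agent.H13.FG
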