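import Pool.Agent.H13.FG.Stm

/-!
# MP_4c8b8e_co: FIRE-G5, a set that is small in all good sectors is small
-/

set_option autoImplicit false

open scoped BigOperators

namespace Pool.Agent.H13.FG

open Classical Pool.Agent.H3.FF CV TV

private theorem g5_sec {K H : ℕ} [NeZero K] (es N d : ℕ)
    (h : es ≤ d → N ≤ (es + 2) ^ 2) (hN : N ≤ (H + 1) ^ 2) :
    (d + 1) * N ≤ es * (H + 1) ^ 2 + (d + 1) * ((d + 4) * es + 4) := by
  rcases le_or_gt es d with he | he
  · have h1 := h he
    have h2 : (es + 2) ^ 2 ≤ (d + 4) * es + 4 := by nlinarith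
    have h3 : (d + 1) * N ≤ (d + 1) * ((d + 4) * es + 4) := Nat.mul_le_mul_left _ (h1.trans h2)
    exact h3.trans (Nat.le_add_left _ _)
  · have h1 : (d + 1) * N ≤ es * (H + 1) ^ 2 := Nat.mul_le_mul he hN
    exact h1.trans (Nat.le_add_right _ _)

/-- FIRE-G5. -/
theorem sglob (h1 : SSq) (h2 : SInj) : SGlob := by
  intro K H _ hK U W d hd
  rcases Nat.eq_zero_or_pos H with h0 | hH
  · subst h0
    have hW : W.card ≤ 1 := by
      refine Finset.card_le_one.2 fun a _ b _ => ?_
      apply Subtype.ext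
      funext c
      have ha := TV.le a c
      have hb := TV.le b c
      omega
    have h3 : (d + 1) * W.card ≤ (d + 1) * (4 * K) := Nat.mul_le_mul_left _ (by omega)
    have h4 : (d + 1) * (4 * K) ≤ (d + 1) * ((d + 4) * cut U + 4 * K) :=
      Nat.mul_le_mul_left _ (Nat.le_add_left _ _)
    exact (h3.trans h4).trans (Nat.le_add_left _ _)
  · set Fi : ZMod K → Finset (ℕ × ℕ) := fun i =>
      (Finset.range (H + 1) ×ˢ Finset.range (H + 1)).filter (fun p => sq i p.1 p.2 ∈ W) with hFi
    have hsub : W ⊆ Finset.univ.biUnion fun i : ZMod K =>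
        (Fi i).image fun p => (sq i p.1 p.2 : TV K H) := by
      intro f hf
      obtain ⟨i, x, y, hx, hy, rfl⟩ := (h1 K H hK hH).1 f
      rw [Finset.mem_biUnion]
      refine ⟨i, Finset.mem_univ i, Finset.mem_image.2 ⟨(x, y), ?_, rfl⟩⟩
      rw [hFi]
      simp only [Finset.mem_filter, Finset.mem_product, Finset.mem_range]
      exact ⟨⟨by omega, by omega⟩, hf⟩
    have hW : W.card ≤ ∑ i : ZMod K, (Fi i).card := by
      refine (Finset.card_le_card hsub).trans (Finset.card_biUnion_le.trans ?_)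
      exact Finset.sum_le_sum fun i _ => Finset.card_image_le
    have hN : ∀ i, (Fi i).card ≤ (H + 1) ^ 2 := by
      intro i
      refine (Finset.card_filter_le _ _).trans ?_
      rw [Finset.card_product, Finset.card_range, pow_two]
    have key : ∀ i : ZMod K, (d + 1) * (Fi i).card ≤
        es U i * (H + 1) ^ 2 + (d + 1) * ((d + 4) * es U i + 4) := fun i =>
      g5_sec (K := K) (H := H) (es U i) _ d (hd i) (hN i)
    have hcut := h2 K H hK U
    calc (d + 1) * W.card ≤ (d + 1) * ∑ i : ZMod K, (Fi i).card := Nat.mul_le_mul_left _ hW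
      _ = ∑ i : ZMod K, (d + 1) * (Fi i).card := Finset.mul_sum _ _ _
      _ ≤ ∑ i : ZMod K, (es U i * (H + 1) ^ 2 + (d + 1) * ((d + 4) * es U i + 4)) :=
          Finset.sum_le_sum fun i _ => key i
      _ = (∑ i : ZMod K, es U i) * (H + 1) ^ 2 +
          (d + 1) * ((d + 4) * (∑ i : ZMod K, es U i) + 4 * K) := by
          rw [Finset.sum_add_distrib, ← Finset.sum_mul, ← Finset.mul_sum,
            Finset.sum_add_distrib, ← Finset.mul_sum, Finset.sum_const, Finset.card_univ,
            ZMod.card, smul_eq_mul, mul_comm K 4]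
      _ ≤ cut U * (H + 1) ^ 2 + (d + 1) * ((d + 4) * cut U + 4 * K) := by
          refine Nat.add_le_add (Nat.mul_le_mul_right _ hcut) ?_
          refine Nat.mul_le_mul_left _ (Nat.add_le_add_right ?_ _)
          exact Nat.mul_le_mul_left _ hcut

end Pool.Agent.H13.FG
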