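import Pool.Agent.H13.FG.Basic

/-!
# MP_4c8b8e_co: labels of good sectors
-/

set_option autoImplicit false

open scoped BigOperators

namespace Pool.Agent.H13.FG

open Classical Pool.Agent.H3.FF CV TV

section

variable {K H : ℕ} [NeZero K] {B : Finset (Finset (TV K H))}

theorem g4_mem (f : TV K H) : f ∈ un B ↔ ∃ T ∈ B, f ∈ T := by
  unfold un
  rw [Finset.mem_biUnion]
  rfl

theorem g4_ex (B : Finset (Finset (TV K H))) (f : TV K H) : ∃ o, Has B o f := by
  by_cases h : f ∈ un B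
  · obtain ⟨T, hT, hf⟩ := (g4_mem f).1 h
    exact ⟨some T, hT, hf⟩
  · exact ⟨none, h⟩

theorem g4_uni (hB : Apart B) {o o' : Option (Finset (TV K H))} {f : TV K H}
    (h : Has B o f) (h' : Has B o' f) : o = o' := by
  cases o with
  | none =>
    cases o' with
    | none => rfl
    | some T => exact absurd ((g4_mem f).2 ⟨T, h'.1, h'.2⟩) h
  | some S =>
    cases o' with
    | none => exact absurd ((g4_mem f).2 ⟨S, h.1, h.2⟩) h'
    | some T => rw [hB S h.1 T h'.1 f h.2 f h'.2 (Or.inl rfl)]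

theorem g4_step (hB : Apart B) {o : Option (Finset (TV K H))} {f g : TV K H} (ha : AdE f g)
    (hi : f ∈ un B ↔ g ∈ un B) (h : Has B o f) : Has B o g := by
  cases o with
  | none => exact fun hg => h (hi.2 hg)
  | some T =>
    obtain ⟨T', hT', hg⟩ := (g4_mem g).1 (hi.1 ((g4_mem f).2 ⟨T, h.1, h.2⟩))
    obtain rfl := hB T h.1 T' hT' f h.2 g hg ha
    exact ⟨hT', hg⟩

theorem g4_line (hB : Apart B) {o : Option (Finset (TV K H))} (w : ℕ → TV K H) (a b : ℕ)
    (h : ∀ x, a ≤ x → x < b → AdE (w x) (w (x + 1)) ∧ (w x ∈ un B ↔ w (x + 1) ∈ un B))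
    {x0 : ℕ} (h0 : a ≤ x0) (h0' : x0 ≤ b) (hx : Has B o (w x0)) :
    ∀ x, a ≤ x → x ≤ b → Has B o (w x) := by
  have up : ∀ n x, a ≤ x → x + n ≤ b → Has B o (w x) → Has B o (w (x + n)) := by
    intro n
    induction n with
    | zero => intro x _ _ h3; exact h3
    | succ n ih =>
      intro x h1 h2 h3
      have h4 := ih x h1 (by omega) h3
      obtain ⟨h5, h6⟩ := h (x + n) (by omega) (by omega)
      exact g4_step hB h5 h6 h4
  have down : ∀ n x, a ≤ x → x + n ≤ b → Has B o (w (x + n)) → Has B o (w x) := by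
    intro n
    induction n with
    | zero => intro x _ _ h3; exact h3
    | succ n ih =>
      intro x h1 h2 h3
      obtain ⟨h5, h6⟩ := h (x + n) (by omega) (by omega)
      exact ih x h1 (by omega) (g4_step hB (adE_symm h5) h6.symm h3)
  intro x h1 h2
  rcases le_total x0 x with h3 | h3
  · obtain ⟨n, rfl⟩ := Nat.exists_eq_add_of_le h3
    exact up n x0 h0 h2 hx
  · obtain ⟨n, rfl⟩ := Nat.exists_eq_add_of_le h3
    exact down n x h1 h0' hx

theorem g4_pick {d e : ℕ} (F : Finset ℕ) (q : ℕ → ℕ) (h1 : ∑ c ∈ F, q c ≤ e) (h2 : e ≤ d)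
    (h3 : d < F.card) : ∃ c ∈ F, q c = 0 := by
  by_contra hc
  push Not at hc
  have h4 : ∑ _c ∈ F, 1 ≤ ∑ c ∈ F, q c :=
    Finset.sum_le_sum fun c hcF => Nat.one_le_iff_ne_zero.2 (hc c hcF)
  rw [Finset.sum_const, smul_eq_mul, mul_one] at h4
  omega

theorem g4_sumx (S : Finset (TV K H)) (i : ZMod K) (F : Finset ℕ) (hF : F ⊆ Finset.Ioo 0 H) :
    ∑ c ∈ F, cx S i c ≤ es S i := by
  have h1 : ∑ c ∈ F, cx S i c ≤ ∑ c ∈ Finset.Ioo 0 H, cx S i c :=
    Finset.sum_le_sum_of_subset hF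
  have h2 : ∑ c ∈ Finset.Ioo 0 H, cx S i c ≤ ∑ c ∈ Finset.Ioo 0 H, (cx S i c + cy S i c) :=
    Finset.sum_le_sum fun c _ => Nat.le_add_right _ _
  unfold es
  omega

theorem g4_sumy (S : Finset (TV K H)) (i : ZMod K) (F : Finset ℕ) (hF : F ⊆ Finset.Ioo 0 H) :
    ∑ c ∈ F, cy S i c ≤ es S i := by
  have h1 : ∑ c ∈ F, cy S i c ≤ ∑ c ∈ Finset.Ioo 0 H, cy S i c :=
    Finset.sum_le_sum_of_subset hF
  have h2 : ∑ c ∈ Finset.Ioo 0 H, cy S i c ≤ ∑ c ∈ Finset.Ioo 0 H, (cx S i c + cy S i c) :=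
    Finset.sum_le_sum fun c _ => Nat.le_add_left _ _
  unfold es
  omega

/-- the number of broken lines and the two sides -/
theorem g4_cnt {e : ℕ} (q : ℕ → ℕ) (h : ∑ c ∈ Finset.Ioo 0 H, q c ≤ e) :
    ((Finset.range (H + 1)).filter (fun c => c = 0 ∨ c = H ∨ q c ≠ 0)).card ≤ e + 2 := by
  have h1 : (Finset.range (H + 1)).filter (fun c => c = 0 ∨ c = H ∨ q c ≠ 0) ⊆
      {0, H} ∪ (Finset.Ioo 0 H).filter (fun c => q c ≠ 0) := by
    intro c hc
    rw [Finset.mem_filter, Finset.mem_range] at hc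
    rw [Finset.mem_union, Finset.mem_insert, Finset.mem_singleton, Finset.mem_filter,
      Finset.mem_Ioo]
    by_cases h2 : c = 0
    · exact Or.inl (Or.inl h2)
    · by_cases h3 : c = H
      · exact Or.inl (Or.inr h3)
      · refine Or.inr ⟨⟨by omega, by omega⟩, ?_⟩
        rcases hc.2 with h4 | h4 | h4
        · exact absurd h4 h2
        · exact absurd h4 h3
        · exact h4
  have h2 : ((Finset.Ioo 0 H).filter (fun c => q c ≠ 0)).card ≤ e := by
    refine le_trans ?_ h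
    rw [Finset.card_eq_sum_ones]
    refine (Finset.sum_le_sum (g := q) fun c hc => ?_).trans
      (Finset.sum_le_sum_of_subset (Finset.filter_subset _ _))
    exact Nat.one_le_iff_ne_zero.2 (Finset.mem_filter.1 hc).2
  refine (Finset.card_le_card h1).trans ((Finset.card_union_le _ _).trans ?_)
  have h3 : ({0, H} : Finset ℕ).card ≤ 2 := Finset.card_le_two
  omega

end

theorem sgood (h : SSq) : SGood := by
  intro K H _ hK B hB i d hd hH
  obtain ⟨-, hx, hy, hdg, -⟩ := h K H hK (by omega)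
  set S := un B with hS
  -- lines
  have lx : ∀ c, c ≤ H → cx S i c = 0 → ∀ o x0, x0 ≤ H → Has B o (sq i x0 c) →
      ∀ x ≤ H, Has B o (sq i x c) := by
    intro c hc h0 o x0 hx0 ho x hx1
    unfold cx at h0
    rw [Finset.card_eq_zero, Finset.filter_eq_empty_iff] at h0
    refine g4_line hB (fun x => sq i x c) 0 H (fun y _ hy1 => ⟨Or.inr (hx i y c hy1 hc), ?_⟩)
      (Nat.zero_le _) hx0 ho x (Nat.zero_le _) hx1
    exact not_not.1 (h0 (Finset.mem_range.2 hy1))
  have ly : ∀ c, c ≤ H → cy S i c = 0 → ∀ o y0, y0 ≤ H → Has B o (sq i c y0) →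
      ∀ y ≤ H, Has B o (sq i c y) := by
    intro c hc h0 o y0 hy0 ho y hy1
    unfold cy at h0
    rw [Finset.card_eq_zero, Finset.filter_eq_empty_iff] at h0
    refine g4_line hB (fun y => sq i c y) 0 H (fun z _ hz1 => ⟨Or.inr (hy i c z hc hz1), ?_⟩)
      (Nat.zero_le _) hy0 ho y (Nat.zero_le _) hy1
    exact not_not.1 (h0 (Finset.mem_range.2 hz1))
  have ld : ∀ s, cd S i s = 0 → ∀ o x0, x0 ≤ H → x0 ≤ s → s ≤ x0 + H →
      Has B o (sq i x0 (s - x0)) → ∀ x ≤ H, x ≤ s → s ≤ x + H → Has B o (sq i x (s - x)) := by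
    intro s h0 o x0 hx0 hx0s hs0 ho x hx1 hxs hs1
    unfold cd at h0
    rw [Finset.card_eq_zero, Finset.filter_eq_empty_iff] at h0
    refine g4_line hB (fun x => sq i x (s - x)) (s - H) (min s H) (fun y hy1 hy2 => ?_)
      (by omega) (by omega) ho x (by omega) (by omega)
    have h1 : y < H := by omega
    have h2 : y + 1 ≤ s := by omega
    have h3 : s ≤ y + H := by omega
    constructor
    · refine adE_symm (Or.inr ?_)
      have h4 := hdg i y (s - (y + 1)) h1 (by omega)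
      have h5 : s - (y + 1) + 1 = s - y := by omega
      rw [h5] at h4
      exact h4
    · have h4 := h0 (Finset.mem_range.2 h1)
      push Not at h4
      by_contra h5
      exact h5 (not_not.1 fun h6 => h5 (by
        have := h4 h2 h3
        exact this))
  -- unbroken lines
  obtain ⟨c1, hc1, h1⟩ := g4_pick (Finset.Ioo 0 H) (fun c => cx S i c)
    (g4_sumx S i _ (Finset.Subset.refl _)) hd (by rw [Nat.card_Ioo]; omega)
  obtain ⟨c2, hc2, h2⟩ := g4_pick (Finset.Ioo 0 H) (fun c => cy S i c)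
    (g4_sumy S i _ (Finset.Subset.refl _)) hd (by rw [Nat.card_Ioo]; omega)
  rw [Finset.mem_Ioo] at hc1 hc2
  obtain ⟨o, ho⟩ := g4_ex B (sq i c2 c1 : TV K H)
  have e1 := lx c1 (by omega) h1 o c2 (by omega) ho
  have e2 := ly c2 (by omega) h2 o c1 (by omega) ho
  have hX : ∀ c, 0 < c → c < H → cx S i c = 0 → ∀ x ≤ H, Has B o (sq i x c) := by
    intro c hc hc' h3
    exact lx c hc'.le h3 o c2 (by omega) (e2 c hc'.le)
  have hY : ∀ c, 0 < c → c < H → cy S i c = 0 → ∀ y ≤ H, Has B o (sq i c y) := by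
    intro c hc hc' h3
    exact ly c hc'.le h3 o c1 (by omega) (e1 c hc'.le)
  refine ⟨o, ⟨hX, hY, ?_⟩, ?_, ?_⟩
  · intro s hs1 hs2 h3 x hx1 y hy1 hxy
    obtain ⟨c, hc, h4⟩ := g4_pick (Finset.Icc (max 1 (s - H)) (min (H - 1) s))
      (fun c => cx S i c) (g4_sumx S i _ (by
        intro c hc
        rw [Finset.mem_Icc] at hc
        rw [Finset.mem_Ioo]
        omega)) hd (by rw [Nat.card_Icc]; omega)
    rw [Finset.mem_Icc] at hc
    have h5 := hX c (by omega) (by omega) h4 (s - c) (by omega)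
    have h6 : s - (s - c) = c := by omega
    have h7 := ld s h3 o (s - c) (by omega) (by omega) (by omega) (by rw [h6]; exact h5) x hx1
      (by omega) (by omega)
    have h8 : s - x = y := by omega
    rw [h8] at h7
    exact h7
  · intro o' ho'
    exact g4_uni hB (ho'.x c1 hc1.1 hc1.2 h1 0 (Nat.zero_le _)) (e1 0 (Nat.zero_le _))
  · have h3 : (Finset.range (H + 1) ×ˢ Finset.range (H + 1)).filter
        (fun p => ¬ Has B o (sq i p.1 p.2)) ⊆
        ((Finset.range (H + 1)).filter (fun c => c = 0 ∨ c = H ∨ cy S i c ≠ 0)) ×ˢ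
        ((Finset.range (H + 1)).filter (fun c => c = 0 ∨ c = H ∨ cx S i c ≠ 0)) := by
      rintro ⟨x, y⟩ hp
      rw [Finset.mem_filter, Finset.mem_product, Finset.mem_range, Finset.mem_range] at hp
      obtain ⟨⟨hx1, hy1⟩, hn⟩ := hp
      rw [Finset.mem_product, Finset.mem_filter, Finset.mem_filter, Finset.mem_range,
        Finset.mem_range]
      refine ⟨⟨hx1, ?_⟩, ⟨hy1, ?_⟩⟩
      · by_contra hc
        push Not at hc
        simp only at hx1 hy1 hn hc
        exact hn (hY x (by omega) (by omega) hc.2.2 y (by omega))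
      · by_contra hc
        push Not at hc
        simp only at hx1 hy1 hn hc
        exact hn (hX y (by omega) (by omega) hc.2.2 x (by omega))
    refine (Finset.card_le_card h3).trans ?_
    rw [Finset.card_product, pow_two]
    exact Nat.mul_le_mul (g4_cnt _ (g4_sumy S i _ (Finset.Subset.refl _)))
      (g4_cnt _ (g4_sumx S i _ (Finset.Subset.refl _)))

end Pool.Agent.H13.FG
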