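import Pool.Agent.H13.FG.Basic
import Pool.Agent.H3.FF.Pos
import Pool.Agent.FM.Defs

/-!
# MP_4c8b8e_co: the first cohomology of the lattice modulo two vanishes
-/

set_option autoImplicit false

open scoped BigOperators

namespace Pool.Agent.H13.FG

open Classical Pool.Agent.H3.FF CV TV

variable {K H : ℕ} [NeZero K]

theorem hone_val {i j : ZMod K} {x y x' y' : ℕ} (hx : x ≤ H) (hy : y ≤ H) (hx' : x' ≤ H)
    (hy' : y' ≤ H) (h : (sq i x y : TV K H) = sq j x' y') (k : ZMod K) :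
    (if k = i then min x (H - y) else 0) + (if k = i + 1 then min y (H - x) else 0) =
      (if k = j then min x' (H - y') else 0) + (if k = j + 1 then min y' (H - x') else 0) := by
  have h1 := congrArg (fun f : TV K H => f.1 (A k)) h
  simp only [sq_val i hx hy, sq_val j hx' hy'] at h1
  exact h1

theorem hone_lev {i j : ZMod K} {x y x' y' : ℕ} (hx : x ≤ H) (hy : y ≤ H) (hx' : x' ≤ H)
    (hy' : y' ≤ H) (h : (sq i x y : TV K H) = sq j x' y') : x + y = x' + y' := by
  have h1 := congrArg (fun f : TV K H => f.1 CV.N) h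
  have h2 := congrArg (fun f : TV K H => f.1 CV.S) h
  simp only [sq_val i hx hy, sq_val j hx' hy', sqf] at h1 h2
  omega

theorem hone_ne1 (hK : 4 ≤ K) (i : ZMod K) : i ≠ i + 1 := by
  intro h
  have h1 : (1 : ZMod K) = 0 := by
    have := congrArg (fun t => t - i) h
    simpa using this.symm
  have h2 : ((1 : ℕ) : ZMod K) = 0 := by simpa using h1
  rw [ZMod.natCast_eq_zero_iff] at h2
  have := Nat.le_of_dvd one_pos h2
  omega

theorem hone_ne2 (hK : 4 ≤ K) (i : ZMod K) : i ≠ i + 1 + 1 := by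
  intro h
  have h1 : (1 : ZMod K) + 1 = 0 := by
    have := congrArg (fun t => t - i) h
    have h3 : i + 1 + 1 - i = 1 + 1 := by ring
    rw [h3, sub_self] at this
    exact this.symm
  have h2 : ((2 : ℕ) : ZMod K) = 0 := by
    push_cast
    rw [← one_add_one_eq_two]
    exact h1
  rw [ZMod.natCast_eq_zero_iff] at h2
  have := Nat.le_of_dvd two_pos h2
  omega

/-- coincidences of points of neighbouring sectors -/
theorem sq_eq_succ (hK : 4 ≤ K) {i : ZMod K} {x y x' y' : ℕ} (hx : x ≤ H) (hy : y ≤ H)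
    (hx' : x' ≤ H) (hy' : y' ≤ H) (h : (sq i x y : TV K H) = sq (i + 1) x' y') :
    (x = 0 ∧ y' = 0 ∧ x' = y) ∨ (y = H ∧ x' = H ∧ y' = x) := by
  have hl := hone_lev hx hy hx' hy' h
  have n1 := hone_ne1 hK i
  have n2 := hone_ne2 hK i
  have n3 := hone_ne1 hK (i + 1)
  have h0 := hone_val hx hy hx' hy' h i
  have h1 := hone_val hx hy hx' hy' h (i + 1)
  have h2 := hone_val hx hy hx' hy' h (i + 1 + 1)
  simp only [n1, n2, n1.symm, n2.symm, n3, n3.symm, if_true, if_false, if_neg, if_pos] at h0 h1 h2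
  omega

/-- coincidences of points of different sectors -/
theorem sq_eq_cases (hK : 4 ≤ K) (hH : 1 ≤ H) {i j : ZMod K} {x y x' y' : ℕ} (hx : x ≤ H)
    (hy : y ≤ H) (hx' : x' ≤ H) (hy' : y' ≤ H) (h : (sq i x y : TV K H) = sq j x' y') :
    (i = j ∧ x = x' ∧ y = y') ∨
    (j = i + 1 ∧ ((x = 0 ∧ y' = 0 ∧ x' = y) ∨ (y = H ∧ x' = H ∧ y' = x))) ∨
    (i = j + 1 ∧ ((x' = 0 ∧ y = 0 ∧ x = y') ∨ (y' = H ∧ x = H ∧ y = x'))) ∨
    (x = 0 ∧ y = 0 ∧ x' = 0 ∧ y' = 0) ∨ (x = H ∧ y = H ∧ x' = H ∧ y' = H) := by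
  have hl := hone_lev hx hy hx' hy' h
  by_cases c1 : i = j
  · subst c1
    left
    have n1 := hone_ne1 hK i
    have h0 := hone_val hx hy hx' hy' h i
    have h1 := hone_val hx hy hx' hy' h (i + 1)
    simp only [n1, n1.symm, if_true, if_false] at h0 h1
    refine ⟨rfl, ?_, ?_⟩ <;> omega
  by_cases c2 : j = i + 1
  · subst c2
    exact Or.inr (Or.inl ⟨rfl, sq_eq_succ hK hx hy hx' hy' h⟩)
  by_cases c3 : i = j + 1
  · subst c3
    exact Or.inr (Or.inr (Or.inl ⟨rfl, sq_eq_succ hK hx' hy' hx hy h.symm⟩))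
  have c4 : i + 1 ≠ j + 1 := fun h => c1 (add_right_cancel h)
  have n1 := hone_ne1 hK i
  have n1' := hone_ne1 hK j
  have h0 := hone_val hx hy hx' hy' h i
  have h1 := hone_val hx hy hx' hy' h (i + 1)
  have h2 := hone_val hx hy hx' hy' h j
  have h3 := hone_val hx hy hx' hy' h (j + 1)
  have c5 : i + 1 ≠ j := fun h => c2 h.symm
  have c6 : j + 1 ≠ i := fun h => c3 h.symm
  have c7 : j ≠ i := fun h => c1 h.symm
  simp only [n1, n1.symm, n1', n1'.symm, c1, c2, c3, c4, c4.symm, c5, c6, c7, if_true,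
    if_false] at h0 h1 h2 h3
  omega

/-- the potential in the sector `i` -/
noncomputable def pot (g : TV K H → TV K H → ZMod 2) (i : ZMod K) (x y : ℕ) : ZMod 2 :=
  ∑ t ∈ Finset.range x, g (sq i t 0) (sq i (t + 1) 0) +
    ∑ t ∈ Finset.range y, g (sq i x t) (sq i x (t + 1))

theorem pot_y (g : TV K H → TV K H → ZMod 2) (i : ZMod K) (x y : ℕ) :
    pot g i x (y + 1) = pot g i x y + g (sq i x y) (sq i x (y + 1)) := by
  unfold pot
  rw [Finset.sum_range_succ (n := y)]
  ring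

theorem two0 : (2 : ZMod 2) = 0 := by decide

section

variable (hS : SSq) (hK : 4 ≤ K) (hH : 1 ≤ H) {g : TV K H → TV K H → ZMod 2}
  (gs : ∀ a b, g a b = g b a)
  (gt : ∀ a b c, Ad a b → Ad b c → Ad c a → g a b + g b c + g c a = 0)

include hS hK hH gs gt

theorem pot_t1 (i : ZMod K) {x y : ℕ} (hx : x < H) (hy : y < H) :
    g (sq i x y) (sq i (x + 1) y) + g (sq i (x + 1) y) (sq i x (y + 1)) +
      g (sq i x y) (sq i x (y + 1)) = 0 := by
  obtain ⟨_, ax, ay, ad, _⟩ := hS K H hK hH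
  have h := gt _ _ _ (ax i x y hx hy.le) (ad i x y hx hy) (ad_symm (ay i x y hx.le hy))
  rw [gs (sq i x (y + 1)) (sq i x y)] at h
  exact h

theorem pot_t2 (i : ZMod K) {x y : ℕ} (hx : x < H) (hy : y < H) :
    g (sq i (x + 1) y) (sq i (x + 1) (y + 1)) + g (sq i x (y + 1)) (sq i (x + 1) (y + 1)) +
      g (sq i (x + 1) y) (sq i x (y + 1)) = 0 := by
  obtain ⟨_, ax, ay, ad, _⟩ := hS K H hK hH
  have h := gt _ _ _ (ay i (x + 1) y (by omega) hy) (ad_symm (ax i x (y + 1) hx (by omega)))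
    (ad_symm (ad i x y hx hy))
  rw [gs (sq i (x + 1) (y + 1)) (sq i x (y + 1)), gs (sq i x (y + 1)) (sq i (x + 1) y)] at h
  exact h

theorem pot_x (i : ZMod K) {x : ℕ} (hx : x < H) : ∀ y ≤ H,
    pot g i (x + 1) y = pot g i x y + g (sq i x y) (sq i (x + 1) y) := by
  intro y
  induction y with
  | zero =>
    intro _
    unfold pot
    simp [Finset.sum_range_succ]
  | succ y ih =>
    intro hy
    have h1 := ih (by omega)
    have h2 := pot_t1 hS hK hH gs gt i hx (show y < H by omega)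
    have h3 := pot_t2 hS hK hH gs gt i hx (show y < H by omega)
    rw [pot_y, pot_y, h1]
    linear_combination h2 + h3 - (g (sq i x y) (sq i x (y + 1)) +
      g (sq i x (y + 1)) (sq i (x + 1) (y + 1)) + g (sq i (x + 1) y) (sq i x (y + 1))) * two0

theorem pot_d (i : ZMod K) {x y : ℕ} (hx : x < H) (hy : y < H) :
    g (sq i (x + 1) y) (sq i x (y + 1)) = pot g i (x + 1) y + pot g i x (y + 1) := by
  have h1 := pot_x hS hK hH gs gt i hx y hy.le
  have h2 := pot_t1 hS hK hH gs gt i hx hy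
  rw [h1, pot_y]
  linear_combination h2 - (pot g i x y + g (sq i x y) (sq i (x + 1) y) +
    g (sq i x y) (sq i x (y + 1))) * two0

theorem pot_c0 (i : ZMod K) {y : ℕ} (hy : y ≤ H) : pot g i 0 y = pot g (i + 1) y 0 := by
  obtain ⟨_, _, _, _, gl0, _⟩ := hS K H hK hH
  unfold pot
  simp only [Finset.sum_range_zero, zero_add, add_zero]
  refine Finset.sum_congr rfl ?_
  intro t ht
  rw [Finset.mem_range] at ht
  rw [gl0 i t (by omega), gl0 i (t + 1) (by omega)]

theorem pot_cH (i : ZMod K) : ∀ x ≤ H, pot g i x H = pot g (i + 1) H x := by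
  obtain ⟨_, _, _, _, _, glH, _⟩ := hS K H hK hH
  intro x
  induction x with
  | zero => intro _; exact pot_c0 hS hK hH gs gt i le_rfl
  | succ x ih =>
    intro hx
    rw [pot_x hS hK hH gs gt i (show x < H by omega) H le_rfl, pot_y, ih (by omega),
      glH i x (by omega), glH i (x + 1) hx]

theorem pot_top (i j : ZMod K) : pot g i H H = pot g j H H := by
  have h : ∀ n : ℕ, pot g (i + (n : ZMod K)) H H = pot g i H H := by
    intro n
    induction n with
    | zero => simp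
    | succ n ih =>
      rw [← ih, pot_cH hS hK hH gs gt (i + (n : ZMod K)) H le_rfl]
      push_cast
      rw [add_assoc]
  have h1 := h (j - i).val
  rw [ZMod.natCast_zmod_val] at h1
  rw [← h1]
  congr 1
  ring

theorem pot_wd {i j : ZMod K} {x y x' y' : ℕ} (hx : x ≤ H)
    (hy : y ≤ H) (hx' : x' ≤ H) (hy' : y' ≤ H) (h : (sq i x y : TV K H) = sq j x' y') :
    pot g i x y = pot g j x' y' := by
  rcases sq_eq_cases hK hH hx hy hx' hy' h with ⟨h1, h2, h3⟩ | ⟨h1, h2⟩ | ⟨h1, h2⟩ | h1 | h1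
  · rw [h1, h2, h3]
  · subst h1
    rcases h2 with ⟨h2, h3, h4⟩ | ⟨h2, h3, h4⟩
    · subst h2 h3 h4
      exact pot_c0 hS hK hH gs gt i hy
    · subst h2 h3 h4
      exact pot_cH hS hK hH gs gt i _ hx
  · subst h1
    rcases h2 with ⟨h2, h3, h4⟩ | ⟨h2, h3, h4⟩
    · subst h2 h3 h4
      exact (pot_c0 hS hK hH gs gt j hy').symm
    · subst h2 h3 h4
      exact (pot_cH hS hK hH gs gt j _ hx').symm
  · obtain ⟨rfl, rfl, rfl, rfl⟩ := h1
    simp [pot]
  · obtain ⟨rfl, rfl, rfl, rfl⟩ := h1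
    exact pot_top hS hK hH gs gt i j

end

/-- the first cohomology modulo two of the lattice vanishes -/
theorem hone (hS : SSq) (hK : 4 ≤ K) (hH : 1 ≤ H) (T : SimpleGraph (TV K H))
    (hT : ∀ a b, T.Adj a b ↔ Ad a b) : Pool.Agent.FM.Hone T := by
  intro g gs gt'
  have gt : ∀ a b c, Ad a b → Ad b c → Ad c a → g a b + g b c + g c a = 0 := by
    intro a b c h1 h2 h3
    exact gt' a b c ((hT _ _).2 h1) ((hT _ _).2 h2) ((hT _ _).2 h3)
  obtain ⟨sur, ax, ay, ad, gl0, glH, inj, hlev, hsym, hedge⟩ := hS K H hK hH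
  choose si sx sy h1 h2 h3 using sur
  refine ⟨fun v => pot g (si v) (sx v) (sy v), ?_⟩
  intro a b hab
  obtain ⟨i, x, y, x', y', hx, hy, hx', hy', ha, hb, hc⟩ := hedge a b ((hT a b).1 hab)
  have fa : pot g (si a) (sx a) (sy a) = pot g i x y :=
    pot_wd hS hK hH gs gt (h1 a) (h2 a) hx hy ((h3 a).trans ha.symm)
  have fb : pot g (si b) (sx b) (sy b) = pot g i x' y' :=
    pot_wd hS hK hH gs gt (h1 b) (h2 b) hx' hy' ((h3 b).trans hb.symm)
  show g a b = pot g (si a) (sx a) (sy a) + pot g (si b) (sx b) (sy b)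
  rw [fa, fb, ← ha, ← hb]
  rcases hc with ⟨rfl, rfl⟩ | ⟨rfl, rfl⟩ | ⟨rfl, rfl⟩ | ⟨rfl, rfl⟩ | ⟨rfl, rfl⟩ | ⟨rfl, rfl⟩
  · rw [pot_x hS hK hH gs gt i (show x < H by omega) _ hy]
    linear_combination -(pot g i x y') * two0
  · rw [pot_x hS hK hH gs gt i (show x' < H by omega) _ hy, gs]
    linear_combination -(pot g i x' y') * two0
  · rw [pot_y]
    linear_combination -(pot g i x' y) * two0
  · rw [pot_y, gs]
    linear_combination -(pot g i x' y') * two0
  · rw [gs, pot_d hS hK hH gs gt i (show x < H by omega) (show y' < H by omega)]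
    ring
  · rw [pot_d hS hK hH gs gt i (show x' < H by omega) (show y < H by omega)]

end Pool.Agent.H13.FG
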