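import Pool.Agent.H13.FG.Basic

/-!
# MP_4c8b8e_co: geometry of the bipyramid, row G2: the edges inside the sectors are different
-/

set_option autoImplicit false

open scoped BigOperators

namespace Pool.Agent.H13.FG

open Classical Pool.Agent.H3.FF CV TV

variable {K H : ℕ} [NeZero K]

/-- first end of an item -/
def g2_a (i : ZMod K) (t : Fin 3) (p : ℕ × ℕ) : TV K H :=
  if t = 2 then sq i p.1 (p.2 + 1) else sq i p.1 p.2

/-- second end of an item -/
def g2_b (i : ZMod K) (t : Fin 3) (p : ℕ × ℕ) : TV K H :=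
  if t = 1 then sq i p.1 (p.2 + 1) else sq i (p.1 + 1) p.2

/-- range of the items -/
def g2_I (t : Fin 3) (p : ℕ × ℕ) : Prop := (t = 0 → 0 < p.2) ∧ (t = 1 → 0 < p.1)

/-- the item is a cut edge -/
def g2_C (S : Finset (TV K H)) (i : ZMod K) (t : Fin 3) (p : ℕ × ℕ) : Prop :=
  ¬ ((g2_a i t p : TV K H) ∈ S ↔ (g2_b i t p : TV K H) ∈ S)

theorem g2_sq (i j : ZMod K) {x y : ℕ} (hx : x ≤ H) (hy : y ≤ H) :
    (sq i x y : TV K H).1 (A j) =
      (if j = i then min x (H - y) else 0) + (if j = i + 1 then min y (H - x) else 0) := by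
  rw [sq_val i hx hy]
  rfl

/-- the support of the sum of the ends -/
theorem g2_supp (i : ZMod K) (t : Fin 3) (p : ℕ × ℕ) (h1 : p.1 < H) (h2 : p.2 < H)
    (hI : g2_I t p) (j : ZMod K) :
    (g2_a i t p : TV K H).1 (A j) + (g2_b i t p : TV K H).1 (A j) ≠ 0 ↔ j = i ∨ j = i + 1 := by
  obtain ⟨x, y⟩ := p
  obtain ⟨hx, hy⟩ := hI
  simp only at h1 h2 hx hy
  have key : ∀ a b c d a' b' c' d' : ℕ, (1 ≤ a + a') → (1 ≤ b + b') →
      (((if j = i then a else 0) + (if j = i + 1 then b else 0)) +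
        ((if j = i then a' else 0) + (if j = i + 1 then b' else 0)) ≠ 0 ↔ j = i ∨ j = i + 1) := by
    intro a b _ _ a' b' _ _ ha hb
    by_cases e1 : j = i <;> by_cases e2 : j = i + 1 <;> simp only [e1, e2, if_true, if_false,
      true_or, or_true, iff_true, or_self, iff_false, not_not] <;> omega
  fin_cases t
  · simp only [g2_a, g2_b, Fin.zero_eta, Fin.reduceEq, if_false]
    rw [g2_sq i j h1.le h2.le, g2_sq i j (Nat.succ_le_of_lt h1) h2.le]
    have h3 : 0 < y := hx rfl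
    exact key _ _ 0 0 _ _ 0 0 (by omega) (by omega)
  · simp only [g2_a, g2_b, Fin.mk_one, Fin.reduceEq, if_false, if_true]
    rw [g2_sq i j h1.le h2.le, g2_sq i j h1.le (Nat.succ_le_of_lt h2)]
    have h3 : 0 < x := hy rfl
    exact key _ _ 0 0 _ _ 0 0 (by omega) (by omega)
  · simp only [g2_a, g2_b, Fin.reduceFinMk, Fin.reduceEq, if_false, if_true]
    rw [g2_sq i j h1.le (Nat.succ_le_of_lt h2), g2_sq i j (Nat.succ_le_of_lt h1) h2.le]
    exact key _ _ 0 0 _ _ 0 0 (by omega) (by omega)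

omit [NeZero K] in
theorem g2_idx (hK : 4 ≤ K) (i i' : ZMod K)
    (h : ∀ j, (j = i ∨ j = i + 1) ↔ (j = i' ∨ j = i' + 1)) : i = i' := by
  rcases (h i).1 (Or.inl rfl) with h1 | h1
  · exact h1
  · exfalso
    have h2 : ((2 : ℕ) : ZMod K) ≠ 0 := by
      rw [Ne, ZMod.natCast_eq_zero_iff]
      intro h3
      have := Nat.le_of_dvd (by norm_num) h3
      omega
    have h3 : ((1 : ℕ) : ZMod K) ≠ 0 := by
      rw [Ne, ZMod.natCast_eq_zero_iff]
      intro h3
      have := Nat.le_of_dvd (by norm_num) h3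
      omega
    rcases (h (i + 1)).1 (Or.inr rfl) with h4 | h4
    · apply h2
      rw [h1] at h4
      have h5 : i' + 1 + 1 - i' = 0 := by rw [h4, sub_self]
      calc ((2 : ℕ) : ZMod K) = i' + 1 + 1 - i' := by push_cast; ring
        _ = 0 := h5
    · apply h3
      rw [h1] at h4
      have h5 : i' + 1 + 1 - (i' + 1) = 0 := by rw [h4, sub_self]
      calc ((1 : ℕ) : ZMod K) = i' + 1 + 1 - (i' + 1) := by push_cast; ring
        _ = 0 := h5

/-- the ends determine the item -/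
theorem g2_inj (h : SSq) (hK : 4 ≤ K) (hH : 1 ≤ H) (i i' : ZMod K) (t t' : Fin 3)
    (p p' : ℕ × ℕ) (h1 : p.1 < H) (h2 : p.2 < H) (h1' : p'.1 < H) (h2' : p'.2 < H)
    (hI : g2_I t p) (hI' : g2_I t' p')
    (he : ((g2_a i t p : TV K H) = g2_a i' t' p' ∧ (g2_b i t p : TV K H) = g2_b i' t' p') ∨
      ((g2_a i t p : TV K H) = g2_b i' t' p' ∧ (g2_b i t p : TV K H) = g2_a i' t' p')) :
    i = i' ∧ t = t' ∧ p = p' := by
  have e0 : ∀ j, (g2_a i t p : TV K H).1 (A j) + (g2_b i t p : TV K H).1 (A j) =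
      (g2_a i' t' p' : TV K H).1 (A j) + (g2_b i' t' p' : TV K H).1 (A j) := by
    intro j
    rcases he with ⟨e1, e2⟩ | ⟨e1, e2⟩
    · rw [e1, e2]
    · rw [e1, e2, add_comm]
  have hi : i = i' := by
    refine g2_idx hK i i' fun j => ?_
    rw [← g2_supp i t p h1 h2 hI j, ← g2_supp i' t' p' h1' h2' hI' j, e0]
  subst hi
  have hinj := (h K H hK hH).2.2.2.2.2.2.1 i
  obtain ⟨x, y⟩ := p
  obtain ⟨x', y'⟩ := p'
  simp only at h1 h2 h1' h2'
  have k1 : ∀ a b a' b' : ℕ, a ≤ H → b ≤ H → a' ≤ H → b' ≤ H →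
      (sq i a b : TV K H) = sq i a' b' → a = a' ∧ b = b' := hinj
  refine ⟨rfl, ?_⟩
  fin_cases t <;> fin_cases t' <;>
    simp only [g2_a, g2_b, Fin.zero_eta, Fin.mk_one, Fin.reduceFinMk, Fin.reduceEq, if_false,
      if_true] at he ⊢ <;>
    rcases he with ⟨e1, e2⟩ | ⟨e1, e2⟩ <;>
    have f1 := k1 _ _ _ _ (by omega) (by omega) (by omega) (by omega) e1 <;>
    have f2 := k1 _ _ _ _ (by omega) (by omega) (by omega) (by omega) e2 <;>
    first
      | (exfalso; omega)
      | (refine ⟨trivial, ?_⟩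
         rw [Prod.mk.injEq]
         omega)

/-- the ends are adjacent -/
theorem g2_ad (h : SSq) (hK : 4 ≤ K) (hH : 1 ≤ H) (i : ZMod K) (t : Fin 3) (p : ℕ × ℕ)
    (h1 : p.1 < H) (h2 : p.2 < H) : Ad (g2_a i t p : TV K H) (g2_b i t p) := by
  obtain ⟨-, a1, a2, a3, -⟩ := h K H hK hH
  fin_cases t
  · exact a1 i _ _ h1 h2.le
  · exact a2 i _ _ h1.le h2
  · exact ad_symm (a3 i _ _ h1 h2)

/-- the ordered pair of an item -/
noncomputable def g2_f (S : Finset (TV K H)) (q : ZMod K × Fin 3 × ℕ × ℕ) : TV K H × TV K H :=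
  if (g2_a q.1 q.2.1 q.2.2 : TV K H) ∈ S then (g2_a q.1 q.2.1 q.2.2, g2_b q.1 q.2.1 q.2.2)
  else (g2_b q.1 q.2.1 q.2.2, g2_a q.1 q.2.1 q.2.2)

/-- the items that are cut edges -/
noncomputable def g2_T (S : Finset (TV K H)) : Finset (ZMod K × Fin 3 × ℕ × ℕ) :=
  ((Finset.univ : Finset (ZMod K)) ×ˢ ((Finset.univ : Finset (Fin 3)) ×ˢ
    (Finset.range H ×ˢ Finset.range H))).filter
      (fun q => g2_I q.2.1 q.2.2 ∧ g2_C S q.1 q.2.1 q.2.2)

theorem g2_mem {S : Finset (TV K H)} {q : ZMod K × Fin 3 × ℕ × ℕ} :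
    q ∈ g2_T S ↔ q.2.2.1 < H ∧ q.2.2.2 < H ∧ g2_I q.2.1 q.2.2 ∧ g2_C S q.1 q.2.1 q.2.2 := by
  unfold g2_T
  rw [Finset.mem_filter, Finset.mem_product, Finset.mem_product, Finset.mem_product,
    Finset.mem_range, Finset.mem_range]
  constructor
  · rintro ⟨⟨-, -, h1, h2⟩, h3, h4⟩
    exact ⟨h1, h2, h3, h4⟩
  · rintro ⟨h1, h2, h3, h4⟩
    exact ⟨⟨Finset.mem_univ _, Finset.mem_univ _, h1, h2⟩, h3, h4⟩

theorem g2_le (h : SSq) (hK : 4 ≤ K) (hH : 1 ≤ H) (S : Finset (TV K H)) :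
    (g2_T S).card ≤ cut S := by
  unfold cut
  refine Finset.card_le_card_of_injOn (g2_f S) ?_ ?_
  · intro q hq
    rw [Finset.mem_coe, g2_mem] at hq
    obtain ⟨h1, h2, -, h4⟩ := hq
    have had := g2_ad h hK hH q.1 q.2.1 q.2.2 h1 h2
    unfold g2_C at h4
    rw [Finset.mem_coe, Finset.mem_filter, Finset.mem_product, Finset.mem_compl]
    unfold g2_f
    by_cases ha : (g2_a q.1 q.2.1 q.2.2 : TV K H) ∈ S
    · rw [if_pos ha]
      refine ⟨⟨ha, fun hb => h4 ⟨fun _ => hb, fun _ => ha⟩⟩, had⟩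
    · rw [if_neg ha]
      refine ⟨⟨?_, ha⟩, ad_symm had⟩
      by_contra hb
      exact h4 ⟨fun h => absurd h ha, fun h => absurd h hb⟩
  · intro q hq q' hq' he
    rw [Finset.mem_coe, g2_mem] at hq hq'
    obtain ⟨h1, h2, h3, -⟩ := hq
    obtain ⟨h1', h2', h3', -⟩ := hq'
    obtain ⟨i, t, p⟩ := q
    obtain ⟨i', t', p'⟩ := q'
    have key : ((g2_a i t p : TV K H) = g2_a i' t' p' ∧ (g2_b i t p : TV K H) = g2_b i' t' p') ∨
      ((g2_a i t p : TV K H) = g2_b i' t' p' ∧ (g2_b i t p : TV K H) = g2_a i' t' p') := by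
      unfold g2_f at he
      simp only at he
      split_ifs at he with e1 e2 e2
      · exact Or.inl ⟨congrArg Prod.fst he, congrArg Prod.snd he⟩
      · exact Or.inr ⟨congrArg Prod.fst he, congrArg Prod.snd he⟩
      · exact Or.inr ⟨congrArg Prod.snd he, congrArg Prod.fst he⟩
      · exact Or.inl ⟨congrArg Prod.snd he, congrArg Prod.fst he⟩
    obtain ⟨e1, e2, e3⟩ := g2_inj h hK hH i i' t t' p p' h1 h2 h1' h2' h3 h3' key
    rw [e1, e2, e3]

/-- the number of cut items of a type in a sector -/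
noncomputable def g2_N (S : Finset (TV K H)) (i : ZMod K) (t : Fin 3) : ℕ :=
  ((Finset.range H ×ˢ Finset.range H).filter (fun p => g2_I t p ∧ g2_C S i t p)).card

theorem g2_card (S : Finset (TV K H)) :
    (g2_T S).card = ∑ i : ZMod K, (g2_N S i 0 + g2_N S i 1 + g2_N S i 2) := by
  unfold g2_T g2_N
  rw [Finset.card_filter, Finset.sum_product]
  refine Finset.sum_congr rfl fun i _ => ?_
  rw [Finset.sum_product, Fin.sum_univ_three, Finset.card_filter, Finset.card_filter,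
    Finset.card_filter]

theorem g2_Ioo (n : ℕ) : (Finset.range n).filter (fun c => 0 < c) = Finset.Ioo 0 n := by
  ext c
  rw [Finset.mem_filter, Finset.mem_range, Finset.mem_Ioo]
  exact and_comm

theorem g2_n0 (S : Finset (TV K H)) (i : ZMod K) :
    ∑ c ∈ Finset.Ioo 0 H, cx S i c = g2_N S i 0 := by
  unfold g2_N cx
  rw [← g2_Ioo, Finset.sum_filter, Finset.card_filter, Finset.sum_product_right]
  refine Finset.sum_congr rfl fun c _ => ?_
  by_cases hc : 0 < c
  · rw [if_pos hc, Finset.card_filter]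
    refine Finset.sum_congr rfl fun x _ => ?_
    refine if_congr ?_ rfl rfl
    unfold g2_I g2_C g2_a g2_b
    simp [hc]
  · rw [if_neg hc]
    symm
    refine Finset.sum_eq_zero fun x _ => if_neg ?_
    rintro ⟨⟨h1, -⟩, -⟩
    exact hc (h1 rfl)

theorem g2_n1 (S : Finset (TV K H)) (i : ZMod K) :
    ∑ c ∈ Finset.Ioo 0 H, cy S i c = g2_N S i 1 := by
  unfold g2_N cy
  rw [← g2_Ioo, Finset.sum_filter, Finset.card_filter, Finset.sum_product]
  refine Finset.sum_congr rfl fun c _ => ?_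
  by_cases hc : 0 < c
  · rw [if_pos hc, Finset.card_filter]
    refine Finset.sum_congr rfl fun x _ => ?_
    refine if_congr ?_ rfl rfl
    unfold g2_I g2_C g2_a g2_b
    simp [hc]
  · rw [if_neg hc]
    symm
    refine Finset.sum_eq_zero fun x _ => if_neg ?_
    rintro ⟨⟨-, h1⟩, -⟩
    exact hc (h1 rfl)

theorem g2_n2 (S : Finset (TV K H)) (i : ZMod K) :
    ∑ s ∈ Finset.Ioo 0 (2 * H), cd S i s = g2_N S i 2 := by
  unfold g2_N
  rw [Finset.card_eq_sum_card_fiberwise (f := fun p : ℕ × ℕ => p.1 + p.2 + 1)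
    (t := Finset.Ioo 0 (2 * H))]
  · refine Finset.sum_congr rfl fun s _ => ?_
    unfold cd
    refine Finset.card_nbij' (fun x => (x, s - (x + 1))) (fun p => p.1) ?_ ?_ ?_ ?_
    · intro x hx
      rw [Finset.mem_coe, Finset.mem_filter, Finset.mem_range] at hx
      obtain ⟨h1, h2, h3, h4⟩ := hx
      rw [Finset.mem_coe, Finset.mem_filter, Finset.mem_filter, Finset.mem_product,
        Finset.mem_range, Finset.mem_range]
      have e : s - (x + 1) + 1 = s - x := by omega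
      refine ⟨⟨⟨h1, ?_⟩, ⟨fun h => absurd h (by decide), fun h => absurd h (by decide)⟩, ?_⟩, ?_⟩
      · show s - (x + 1) < H
        omega
      · unfold g2_C g2_a g2_b
        simp only [if_true, Fin.reduceEq, if_false, e]
        exact h4
      · show x + (s - (x + 1)) + 1 = s
        omega
    · intro p hp
      rw [Finset.mem_coe, Finset.mem_filter, Finset.mem_filter, Finset.mem_product,
        Finset.mem_range, Finset.mem_range] at hp
      obtain ⟨⟨⟨h1, h2⟩, -, h4⟩, h5'⟩ := hp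
      have h5 : p.1 + p.2 + 1 = s := h5'
      rw [Finset.mem_coe, Finset.mem_filter, Finset.mem_range]
      have e1 : s - p.1 = p.2 + 1 := by omega
      have e2 : s - (p.1 + 1) = p.2 := by omega
      have e3 : p.1 + 1 ≤ s := by omega
      have e4 : s ≤ p.1 + H := by omega
      refine ⟨h1, e3, e4, ?_⟩
      rw [e1, e2]
      unfold g2_C g2_a g2_b at h4
      simp only [if_true, Fin.reduceEq, if_false] at h4
      exact h4
    · intro x _
      rfl
    · intro p hp
      rw [Finset.mem_coe, Finset.mem_filter] at hp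
      have h5 : p.1 + p.2 + 1 = s := hp.2
      refine Prod.ext rfl ?_
      show s - (p.1 + 1) = p.2
      omega
  · intro p hp
    rw [Finset.mem_coe, Finset.mem_filter, Finset.mem_product, Finset.mem_range,
      Finset.mem_range] at hp
    rw [Finset.mem_coe, Finset.mem_Ioo]
    obtain ⟨⟨h1, h2⟩, -⟩ := hp
    constructor
    · show 0 < p.1 + p.2 + 1
      omega
    · show p.1 + p.2 + 1 < 2 * H
      omega

/-- FIRE-G2: the edges inside the sectors are different -/
theorem sinj (h : SSq) : SInj := by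
  intro K H _ hK S
  rcases Nat.eq_zero_or_pos H with h0 | hH
  · subst h0
    have : ∀ i : ZMod K, es S i = 0 := by
      intro i
      unfold es
      simp
    simp [this]
  · have e : ∑ i : ZMod K, es S i = (g2_T S).card := by
      rw [g2_card]
      refine Finset.sum_congr rfl fun i _ => ?_
      unfold es
      rw [Finset.sum_add_distrib, g2_n0, g2_n1, g2_n2]
    rw [e]
    exact g2_le h hK hH S

end Pool.Agent.H13.FG
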