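import Pool.Agent.H13.FG.Basic

/-!
# MP_4c8b8e_co: geometry of the bipyramid, isoperimetry for short boundaries
-/

set_option autoImplicit false

open scoped BigOperators

namespace Pool.Agent.H13.FG

open Classical Pool.Agent.H3.FF CV TV

section

variable {K H : ℕ} [NeZero K]

private theorem g16_un (S : Finset (TV K H)) : un {S} = S := by
  unfold un
  simp

private theorem g16_apart (S : Finset (TV K H)) : Apart ({S} : Finset (Finset (TV K H))) := by
  intro T hT T' hT' f _ g _ _
  rw [Finset.mem_singleton] at hT hT'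
  rw [hT, hT']

/-- on a closed line of constant status there is a point with the label of the sector -/
private theorem g16_pt {S : Finset (TV K H)} {e : ℕ} {a : ZMod 4} {c : ℕ} (hc1 : e + 2 ≤ c)
    (hc2 : c + e + 2 ≤ H)
    (hst : ∀ f ∈ lin (K := K) (H := H) a c, ∀ g ∈ lin (K := K) (H := H) a c, (f ∈ S ↔ g ∈ S))
    {i : ZMod K} {o : Option (Finset (TV K H))} (hL : Lab {S} e i o) :
    ∃ f ∈ lin (K := K) (H := H) a c, Has {S} o f := by
  have h4 : ∀ r : ZMod 4, r = 0 ∨ r = 1 ∨ r = 2 ∨ r = 3 := by decide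
  rcases h4 ((i.val : ZMod 4) - a) with h | h | h | h
  · have hm : ∀ x ≤ H, (sq i x c : TV K H) ∈ lin (K := K) (H := H) a c := fun x hx =>
      ⟨i, x, c, hx, by omega, Or.inl ⟨h, rfl⟩, rfl⟩
    have h0 : cx (un {S}) i c = 0 := by
      unfold cx
      rw [g16_un, Finset.card_eq_zero, Finset.filter_eq_empty_iff]
      intro x hx
      have hx' := Finset.mem_range.1 hx
      exact not_not.2 (hst _ (hm x (by omega)) _ (hm (x + 1) (by omega)))
    exact ⟨_, hm 0 (Nat.zero_le _), hL.x c (by omega) (by omega) h0 0 (Nat.zero_le _)⟩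
  · have hm : ∀ x ≤ H, ∀ y ≤ H, x + y = c → (sq i x y : TV K H) ∈ lin (K := K) (H := H) a c :=
      fun x hx y hy hxy => ⟨i, x, y, hx, hy, Or.inr (Or.inl ⟨h, hxy⟩), rfl⟩
    have h0 : cd (un {S}) i c = 0 := by
      unfold cd
      rw [g16_un, Finset.card_eq_zero, Finset.filter_eq_empty_iff]
      rintro x hx ⟨hx1, hx2, hx3⟩
      have hx' := Finset.mem_range.1 hx
      exact hx3 (hst _ (hm x (by omega) (c - x) (by omega) (by omega)) _
        (hm (x + 1) (by omega) (c - (x + 1)) (by omega) (by omega)))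
    exact ⟨_, hm 0 (Nat.zero_le _) c (by omega) (by omega),
      hL.d c (by omega) (by omega) h0 0 (Nat.zero_le _) c (by omega) (by omega)⟩
  · have hm : ∀ y ≤ H, (sq i c y : TV K H) ∈ lin (K := K) (H := H) a c := fun y hy =>
      ⟨i, c, y, by omega, hy, Or.inr (Or.inr (Or.inl ⟨h, rfl⟩)), rfl⟩
    have h0 : cy (un {S}) i c = 0 := by
      unfold cy
      rw [g16_un, Finset.card_eq_zero, Finset.filter_eq_empty_iff]
      intro x hx
      have hx' := Finset.mem_range.1 hx
      exact not_not.2 (hst _ (hm x (by omega)) _ (hm (x + 1) (by omega)))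
    exact ⟨_, hm 0 (Nat.zero_le _), hL.y c (by omega) (by omega) h0 0 (Nat.zero_le _)⟩
  · have hm : ∀ x ≤ H, ∀ y ≤ H, x + y = H + c →
        (sq i x y : TV K H) ∈ lin (K := K) (H := H) a c :=
      fun x hx y hy hxy => ⟨i, x, y, hx, hy, Or.inr (Or.inr (Or.inr ⟨h, hxy⟩)), rfl⟩
    have h0 : cd (un {S}) i (H + c) = 0 := by
      unfold cd
      rw [g16_un, Finset.card_eq_zero, Finset.filter_eq_empty_iff]
      rintro x hx ⟨hx1, hx2, hx3⟩
      have hx' := Finset.mem_range.1 hx
      exact hx3 (hst _ (hm x (by omega) (H + c - x) (by omega) (by omega)) _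
        (hm (x + 1) (by omega) (H + c - (x + 1)) (by omega) (by omega)))
    exact ⟨_, hm H le_rfl c (by omega) rfl,
      hL.d (H + c) (by omega) (by omega) h0 H le_rfl c (by omega) rfl⟩

/-- the sum of the bounds of the sectors -/
private theorem g16_sum {S : Finset (TV K H)} (h2 : ∑ i : ZMod K, es S i ≤ cut S)
    {A : Finset (TV K H)} {o : Option (Finset (TV K H))}
    (hA : ∀ f ∈ A, ¬ Has {S} o f)
    (hs : ∀ f : TV K H, ∃ (i : ZMod K) (x y : ℕ), x ≤ H ∧ y ≤ H ∧ sq i x y = f)
    (hc : ∀ i : ZMod K, ((Finset.range (H + 1) ×ˢ Finset.range (H + 1)).filter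
        (fun p => ¬ Has {S} o (sq i p.1 p.2))).card ≤ (es S i + 2) ^ 2) :
    A.card ≤ cut S ^ 2 + 4 * cut S + 4 * K := by
  have hle : ∀ i : ZMod K, es S i ≤ cut S := fun i =>
    (Finset.single_le_sum (fun _ _ => Nat.zero_le _) (Finset.mem_univ i)).trans h2
  have h3 : A ⊆ (Finset.univ : Finset (ZMod K)).biUnion fun i =>
      ((Finset.range (H + 1) ×ˢ Finset.range (H + 1)).filter
        (fun p => ¬ Has {S} o (sq i p.1 p.2))).image fun p => sq i p.1 p.2 := by
    intro f hf
    obtain ⟨i, x, y, hx, hy, rfl⟩ := hs f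
    rw [Finset.mem_biUnion]
    refine ⟨i, Finset.mem_univ i, Finset.mem_image.2 ⟨(x, y), ?_, rfl⟩⟩
    rw [Finset.mem_filter, Finset.mem_product, Finset.mem_range, Finset.mem_range]
    exact ⟨⟨by simp only; omega, by simp only; omega⟩, hA _ hf⟩
  calc A.card ≤ _ := Finset.card_le_card h3
    _ ≤ ∑ i : ZMod K, (((Finset.range (H + 1) ×ˢ Finset.range (H + 1)).filter
        (fun p => ¬ Has {S} o (sq i p.1 p.2))).image fun p => (sq i p.1 p.2 : TV K H)).card :=
        Finset.card_biUnion_le
    _ ≤ ∑ i : ZMod K, ((cut S + 4) * es S i + 4) := by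
        refine Finset.sum_le_sum fun i _ => (Finset.card_image_le.trans (hc i)).trans ?_
        have := hle i
        nlinarith
    _ = (cut S + 4) * ∑ i : ZMod K, es S i + 4 * K := by
        rw [Finset.sum_add_distrib, ← Finset.mul_sum, Finset.sum_const, Finset.card_univ,
          ZMod.card, smul_eq_mul, mul_comm K 4]
    _ ≤ (cut S + 4) * cut S + 4 * K := by
        exact Nat.add_le_add_right (Nat.mul_le_mul_left _ h2) _
    _ = cut S ^ 2 + 4 * cut S + 4 * K := by ring

end

/-- isoperimetry for short boundaries -/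
theorem siso0 (h1 : SSq) (h2 : SInj) (h3 : SLin) (h4 : SGood) : SIso0 := by
  intro K H _ hK S hH
  have hK4 : 4 ≤ K := Nat.le_of_dvd (Nat.pos_of_ne_zero (NeZero.ne K)) hK
  have hsum := h2 K H hK4 S
  have hle : ∀ i : ZMod K, es S i ≤ cut S := fun i =>
    (Finset.single_le_sum (fun _ _ => Nat.zero_le _) (Finset.mem_univ i)).trans hsum
  have hg : ∀ i : ZMod K, ∃ o, Lab {S} (cut S) i o ∧
      ((Finset.range (H + 1) ×ˢ Finset.range (H + 1)).filter
        (fun p => ¬ Has {S} o (sq i p.1 p.2))).card ≤ (es S i + 2) ^ 2 := by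
    intro i
    have hi : es (un {S}) i ≤ cut S := by rw [g16_un]; exact hle i
    obtain ⟨o, ho, -, hc⟩ := h4 K H hK4 {S} (g16_apart S) i (cut S) hi (by omega)
    rw [g16_un] at hc
    exact ⟨o, ho, hc⟩
  choose o ho hc using hg
  have hs := (h1 K H hK4 (by omega)).1
  -- a closed line of constant status
  obtain ⟨c, hc1, hc2, hmix⟩ : ∃ c, cut S + 2 ≤ c ∧ c + cut S + 2 ≤ H ∧ ¬ Mixed S 0 c := by
    by_contra hne
    push Not at hne
    have h5 : (Finset.Icc (cut S + 2) (H - cut S - 2)).card ≤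
        (((Finset.univ : Finset (ZMod 4)) ×ˢ Finset.Ioo 0 H).filter
          (fun p => Mixed S p.1 p.2)).card := by
      refine Finset.card_le_card_of_injOn (fun c => ((0 : ZMod 4), c)) ?_ ?_
      · intro c hc
        have h6 := Finset.mem_Icc.1 hc
        refine Finset.mem_filter.2 ⟨Finset.mem_product.2 ⟨Finset.mem_univ _,
          Finset.mem_Ioo.2 ⟨?_, ?_⟩⟩, hne c h6.1 (by omega)⟩
        · show 0 < c
          omega
        · show c < H
          omega
      · intro c _ c' _ h
        exact congrArg Prod.snd h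
    rw [Nat.card_Icc] at h5
    have h6 := h3 K H hK S
    omega
  have hconst : ∀ f ∈ lin (K := K) (H := H) 0 c, ∀ g ∈ lin (K := K) (H := H) 0 c,
      (f ∈ S ↔ g ∈ S) := by
    intro f hf g hg
    constructor
    · intro hfS
      by_contra hgS
      exact hmix ⟨⟨f, hf, hfS⟩, g, hg, hgS⟩
    · intro hgS
      by_contra hfS
      exact hmix ⟨⟨g, hg, hgS⟩, f, hf, hfS⟩
  by_cases hin : ∃ f ∈ lin (K := K) (H := H) 0 c, f ∈ S
  · right
    obtain ⟨f0, hf0, hf0S⟩ := hin
    have hoi : ∀ i, o i = some S := by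
      intro i
      obtain ⟨f, hf, hfo⟩ := g16_pt hc1 hc2 hconst (ho i)
      have hfS : f ∈ S := (hconst f0 hf0 f hf).1 hf0S
      rcases hoo : o i with _ | T
      · rw [hoo] at hfo
        have h7 : f ∉ un {S} := hfo
        rw [g16_un] at h7
        exact absurd hfS h7
      · rw [hoo] at hfo
        have h7 : T ∈ ({S} : Finset (Finset (TV K H))) ∧ f ∈ T := hfo
        rw [Finset.mem_singleton.1 h7.1]
    refine g16_sum hsum (o := some S) ?_ hs fun i => ?_
    · intro f hf h7
      have h8 : S ∈ ({S} : Finset (Finset (TV K H))) ∧ f ∈ S := h7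
      exact (Finset.mem_compl.1 hf) h8.2
    · have := hc i
      rwa [hoi i] at this
  · left
    have hoi : ∀ i, o i = none := by
      intro i
      obtain ⟨f, hf, hfo⟩ := g16_pt hc1 hc2 hconst (ho i)
      rcases hoo : o i with _ | T
      · rfl
      · rw [hoo] at hfo
        have h7 : T ∈ ({S} : Finset (Finset (TV K H))) ∧ f ∈ T := hfo
        rw [Finset.mem_singleton.1 h7.1] at h7
        exact absurd ⟨f, hf, h7.2⟩ hin
    refine g16_sum hsum (o := none) ?_ hs fun i => ?_
    · intro f hf h7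
      have h8 : f ∉ un {S} := h7
      rw [g16_un] at h8
      exact h8 hf
    · have := hc i
      rwa [hoi i] at this

end Pool.Agent.H13.FG
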