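import Pool.Agent.H13.FG.Basic

/-!
# MP_4c8b8e_co: geometry of the bipyramid, mixed closed lines
-/

set_option autoImplicit false

open scoped BigOperators

namespace Pool.Agent.H13.FG

open Classical Pool.Agent.H3.FF CV TV

/-- the parity of the number of changes in an interval -/
theorem g3_par (p : ℕ → Prop) (m n : ℕ) (h : m ≤ n) (F : Finset ℕ)
    (hF : ∀ x, x ∈ F ↔ (m ≤ x ∧ x < n ∧ ¬ (p x ↔ p (x + 1)))) (lam : ℕ → ZMod 2)
    (l1 : ∀ x, p x → lam x = 1) (l0 : ∀ x, ¬ p x → lam x = 0) :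
    (F.card : ZMod 2) = lam m + lam n := by
  have h2 : (1 : ZMod 2) + 1 = 0 := by decide
  induction n, h using Nat.le_induction generalizing F with
  | base =>
    have h0 : F = ∅ := by
      refine Finset.eq_empty_of_forall_notMem fun x hx => ?_
      have := (hF x).1 hx
      omega
    rw [h0, Finset.card_empty, Nat.cast_zero]
    by_cases h3 : p m
    · rw [l1 m h3]
      exact h2.symm
    · rw [l0 m h3]
      exact (add_zero _).symm
  | succ n hn ih =>
    by_cases hp : p n ↔ p (n + 1)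
    · have h1 := ih F fun x => by
        rw [hF x]
        constructor
        · rintro ⟨a, b, c⟩
          refine ⟨a, ?_, c⟩
          rcases Nat.lt_succ_iff_lt_or_eq.1 b with b | b
          · exact b
          · rw [b] at c
            exact absurd hp c
        · rintro ⟨a, b, c⟩
          exact ⟨a, by omega, c⟩
      rw [h1]
      congr 1
      by_cases h3 : p n
      · rw [l1 n h3, l1 _ (hp.1 h3)]
      · rw [l0 n h3, l0 _ fun h => h3 (hp.2 h)]
    · have hm : n ∈ F := (hF n).2 ⟨hn, by omega, hp⟩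
      have h1 := ih (F.erase n) fun x => by
        rw [Finset.mem_erase, hF x]
        constructor
        · rintro ⟨a, b, c, d⟩
          exact ⟨b, by omega, d⟩
        · rintro ⟨a, b, c⟩
          exact ⟨by omega, a, by omega, c⟩
      rw [← Finset.card_erase_add_one hm, Nat.cast_add, h1, Nat.cast_one, add_assoc]
      congr 1
      by_cases h3 : p n
      · have h4 : ¬ p (n + 1) := fun h => hp ⟨fun _ => h, fun _ => h3⟩
        rw [l1 n h3, l0 _ h4, h2]
      · have h4 : p (n + 1) := by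
          by_contra h
          exact hp ⟨fun h' => absurd h' h3, fun h' => absurd h' h⟩
        rw [l0 n h3, l1 _ h4, zero_add]

/-- no changes -/
theorem g3_const (p : ℕ → Prop) (m n : ℕ) (F : Finset ℕ)
    (hF : ∀ x, x ∈ F ↔ (m ≤ x ∧ x < n ∧ ¬ (p x ↔ p (x + 1)))) (h0 : F.card = 0) :
    ∀ x, m ≤ x → x ≤ n → (p x ↔ p m) := by
  rw [Finset.card_eq_zero] at h0
  intro x hx
  induction x, hx using Nat.le_induction with
  | base => exact fun _ => Iff.rfl
  | succ x hx ih =>
    intro hx2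
    rw [← ih (by omega)]
    by_contra hc
    have h1 : x ∈ F := (hF x).2 ⟨hx, by omega, fun h => hc h.symm⟩
    rw [h0] at h1
    exact absurd h1 (Finset.notMem_empty _)

section

variable {K H : ℕ} [NeZero K]

/-- the indicator function -/
noncomputable def g3_la (S : Finset (TV K H)) (f : TV K H) : ZMod 2 := if f ∈ S then 1 else 0

theorem g3_la1 (S : Finset (TV K H)) (f : TV K H) (h : f ∈ S) : g3_la S f = 1 := if_pos h

theorem g3_la0 (S : Finset (TV K H)) (f : TV K H) (h : f ∉ S) : g3_la S f = 0 := if_neg h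

/-- the number of cut edges of the closed line in a sector -/
noncomputable def g3_tt (S : Finset (TV K H)) (a : ZMod 4) (c : ℕ) (i : ZMod K) : ℕ :=
  if (i.val : ZMod 4) - a = 0 then cx S i c else if (i.val : ZMod 4) - a = 1 then cd S i c
  else if (i.val : ZMod 4) - a = 2 then cy S i c else cd S i (H + c)

/-- the point of the closed line where it enters a sector -/
noncomputable def g3_st (a : ZMod 4) (c : ℕ) (i : ZMod K) : TV K H :=
  if (i.val : ZMod 4) - a = 0 ∨ (i.val : ZMod 4) - a = 3 then sq i H c else sq i c 0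

theorem g3_mcx (S : Finset (TV K H)) (i : ZMod K) (c : ℕ) (x : ℕ) :
    x ∈ ((Finset.range H).filter (fun x => ¬ (sq i x c ∈ S ↔ sq i (x + 1) c ∈ S))) ↔
      (0 ≤ x ∧ x < H ∧ ¬ ((fun x => sq i x c ∈ S) x ↔ (fun x => sq i x c ∈ S) (x + 1))) := by
  rw [Finset.mem_filter, Finset.mem_range]
  constructor
  · rintro ⟨h1, h2⟩
    exact ⟨Nat.zero_le _, h1, h2⟩
  · rintro ⟨_, h1, h2⟩
    exact ⟨h1, h2⟩

theorem g3_mcy (S : Finset (TV K H)) (i : ZMod K) (c : ℕ) (x : ℕ) :
    x ∈ ((Finset.range H).filter (fun y => ¬ (sq i c y ∈ S ↔ sq i c (y + 1) ∈ S))) ↔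
      (0 ≤ x ∧ x < H ∧ ¬ ((fun y => sq i c y ∈ S) x ↔ (fun y => sq i c y ∈ S) (x + 1))) := by
  rw [Finset.mem_filter, Finset.mem_range]
  constructor
  · rintro ⟨h1, h2⟩
    exact ⟨Nat.zero_le _, h1, h2⟩
  · rintro ⟨_, h1, h2⟩
    exact ⟨h1, h2⟩

theorem g3_mcd (S : Finset (TV K H)) (i : ZMod K) (s m n : ℕ)
    (hmn : ∀ x, (m ≤ x ∧ x < n) ↔ (x < H ∧ x + 1 ≤ s ∧ s ≤ x + H)) (x : ℕ) :
    x ∈ ((Finset.range H).filter (fun x => x + 1 ≤ s ∧ s ≤ x + H ∧
      ¬ (sq i x (s - x) ∈ S ↔ sq i (x + 1) (s - (x + 1)) ∈ S))) ↔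
      (m ≤ x ∧ x < n ∧ ¬ ((fun x => sq i x (s - x) ∈ S) x ↔
        (fun x => sq i x (s - x) ∈ S) (x + 1))) := by
  rw [Finset.mem_filter, Finset.mem_range]
  constructor
  · rintro ⟨h1, h2, h3, h4⟩
    have h5 := (hmn x).2 ⟨h1, h2, h3⟩
    exact ⟨h5.1, h5.2, h4⟩
  · rintro ⟨h1, h2, h4⟩
    have h5 := (hmn x).1 ⟨h1, h2⟩
    exact ⟨h5.1, h5.2.1, h5.2.2, h4⟩

theorem g3_four (t : ZMod 4) : t = 0 ∨ t = 1 ∨ t = 2 ∨ t = 3 := by
  revert t
  decide

theorem g3_next (hK : 4 ∣ K) (a : ZMod 4) (i : ZMod K) :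
    (((i + 1 : ZMod K).val : ZMod 4) - a) = (i.val : ZMod 4) - a + 1 := by
  rw [ZMod.natCast_val, ZMod.natCast_val, ZMod.cast_add hK, ZMod.cast_one hK]
  ring

/-- one sector -/
theorem g3_seg (h1 : SSq) (hK : 4 ∣ K) (S : Finset (TV K H)) (a : ZMod 4) (c : ℕ) (hc0 : 0 < c)
    (hcH : c < H) (i : ZMod K) :
    ((g3_tt S a c i : ZMod 2) = g3_la S (g3_st a c i) + g3_la S (g3_st a c (i + 1))) ∧
      (g3_tt S a c i = 0 → ∀ x y : ℕ, x ≤ H → y ≤ H → LinAt H a c i x y →
        ((sq i x y : TV K H) ∈ S ↔ g3_st a c i ∈ S)) ∧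
      (g3_tt S a c i = 0 → (g3_st a c (i + 1) ∈ S ↔ g3_st a c i ∈ S)) := by
  have hK4 : 4 ≤ K := Nat.le_of_dvd (NeZero.pos K) hK
  obtain ⟨-, -, -, -, gl1, gl2, -⟩ := h1 K H hK4 (by omega)
  have hn := g3_next hK a i
  have d01 : (0 : ZMod 4) ≠ 1 := by decide
  have d02 : (0 : ZMod 4) ≠ 2 := by decide
  have d03 : (0 : ZMod 4) ≠ 3 := by decide
  have d12 : (1 : ZMod 4) ≠ 2 := by decide
  have d13 : (1 : ZMod 4) ≠ 3 := by decide
  have d23 : (2 : ZMod 4) ≠ 3 := by decide
  have s1 : (0 : ZMod 4) + 1 = 1 := by decide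
  have s2 : (1 : ZMod 4) + 1 = 2 := by decide
  have s3 : (2 : ZMod 4) + 1 = 3 := by decide
  have s4 : (3 : ZMod 4) + 1 = 0 := by decide
  rcases g3_four ((i.val : ZMod 4) - a) with ht | ht | ht | ht
  · -- the line y = c
    have e1 : g3_tt S a c i = cx S i c := by
      unfold g3_tt
      rw [if_pos ht]
    have e2 : (g3_st a c i : TV K H) = sq i H c := by
      unfold g3_st
      rw [if_pos (Or.inl ht)]
    have e3 : (g3_st a c (i + 1) : TV K H) = sq i 0 c := by
      unfold g3_st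
      rw [hn, ht, s1, if_neg, gl1 i c (by omega)]
      rintro (h | h)
      · exact d01 h.symm
      · exact d13 h
    have hp := g3_par _ 0 H (by omega) _ (g3_mcx S i c) (fun x => g3_la S (sq i x c))
      (fun x h => g3_la1 S _ h) (fun x h => g3_la0 S _ h)
    have hq := g3_const _ 0 H _ (g3_mcx S i c)
    rw [e1, e2, e3]
    refine ⟨?_, ?_, ?_⟩
    · exact hp.trans (add_comm _ _)
    · intro h0 x y hx hy hl
      have hyc : y = c := by
        rcases hl with ⟨_, h⟩ | ⟨h, _⟩ | ⟨h, _⟩ | ⟨h, _⟩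
        · exact h
        · exact absurd (ht.symm.trans h) d01
        · exact absurd (ht.symm.trans h) d02
        · exact absurd (ht.symm.trans h) d03
      rw [hyc]
      exact (hq h0 x (by omega) hx).trans (hq h0 H (by omega) le_rfl).symm
    · intro h0
      exact (hq h0 H (by omega) le_rfl).symm
  · -- the line x + y = c
    have hmn : ∀ x, (0 ≤ x ∧ x < c) ↔ (x < H ∧ x + 1 ≤ c ∧ c ≤ x + H) := fun x => by omega
    have e1 : g3_tt S a c i = cd S i c := by
      unfold g3_tt
      rw [if_neg (by rw [ht]; exact d01.symm), if_pos ht]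
    have e2 : (g3_st a c i : TV K H) = sq i c (c - c) := by
      unfold g3_st
      rw [if_neg, Nat.sub_self]
      rintro (h | h)
      · exact absurd (h.symm.trans ht) d01
      · exact absurd (ht.symm.trans h) d13
    have e3 : (g3_st a c (i + 1) : TV K H) = sq i 0 (c - 0) := by
      unfold g3_st
      rw [hn, ht, s2, if_neg, Nat.sub_zero, gl1 i c (by omega)]
      rintro (h | h)
      · exact d02 h.symm
      · exact d23 h
    have hp := g3_par _ 0 c (by omega) _ (g3_mcd S i c 0 c hmn)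
      (fun x => g3_la S (sq i x (c - x))) (fun x h => g3_la1 S _ h) (fun x h => g3_la0 S _ h)
    have hq := g3_const _ 0 c _ (g3_mcd S i c 0 c hmn)
    rw [e1, e2, e3]
    refine ⟨?_, ?_, ?_⟩
    · exact hp.trans (add_comm _ _)
    · intro h0 x y hx hy hl
      have hyc : x + y = c := by
        rcases hl with ⟨h, _⟩ | ⟨_, h⟩ | ⟨h, _⟩ | ⟨h, _⟩
        · exact absurd (h.symm.trans ht) d01
        · exact h
        · exact absurd (ht.symm.trans h) d12
        · exact absurd (ht.symm.trans h) d13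
      have hy2 : y = c - x := by omega
      rw [hy2]
      exact (hq h0 x (by omega) (by omega)).trans (hq h0 c (by omega) le_rfl).symm
    · intro h0
      exact (hq h0 c (by omega) le_rfl).symm
  · -- the line x = c
    have e1 : g3_tt S a c i = cy S i c := by
      unfold g3_tt
      rw [if_neg (by rw [ht]; exact d02.symm), if_neg (by rw [ht]; exact d12.symm), if_pos ht]
    have e2 : (g3_st a c i : TV K H) = sq i c 0 := by
      unfold g3_st
      rw [if_neg]
      rintro (h | h)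
      · exact absurd (h.symm.trans ht) d02
      · exact absurd (ht.symm.trans h) d23
    have e3 : (g3_st a c (i + 1) : TV K H) = sq i c H := by
      unfold g3_st
      rw [hn, ht, s3, if_pos (Or.inr rfl), gl2 i c (by omega)]
    have hp := g3_par _ 0 H (by omega) _ (g3_mcy S i c) (fun x => g3_la S (sq i c x))
      (fun x h => g3_la1 S _ h) (fun x h => g3_la0 S _ h)
    have hq := g3_const _ 0 H _ (g3_mcy S i c)
    rw [e1, e2, e3]
    refine ⟨?_, ?_, ?_⟩
    · exact hp
    · intro h0 x y hx hy hl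
      have hxc : x = c := by
        rcases hl with ⟨h, _⟩ | ⟨h, _⟩ | ⟨_, h⟩ | ⟨h, _⟩
        · exact absurd (h.symm.trans ht) d02
        · exact absurd (h.symm.trans ht) d12
        · exact h
        · exact absurd (ht.symm.trans h) d23
      rw [hxc]
      exact hq h0 y (by omega) hy
    · intro h0
      exact hq h0 H (by omega) le_rfl
  · -- the line x + y = H + c
    have hmn : ∀ x, (c ≤ x ∧ x < H) ↔ (x < H ∧ x + 1 ≤ H + c ∧ H + c ≤ x + H) :=
      fun x => by omega
    have e1 : g3_tt S a c i = cd S i (H + c) := by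
      unfold g3_tt
      rw [if_neg (by rw [ht]; exact d03.symm), if_neg (by rw [ht]; exact d13.symm),
        if_neg (by rw [ht]; exact d23.symm)]
    have e2 : (g3_st a c i : TV K H) = sq i H (H + c - H) := by
      unfold g3_st
      rw [if_pos (Or.inr ht), Nat.add_sub_cancel_left]
    have e3 : (g3_st a c (i + 1) : TV K H) = sq i c (H + c - c) := by
      unfold g3_st
      rw [hn, ht, s4, if_pos (Or.inl rfl), Nat.add_sub_cancel, gl2 i c (by omega)]
    have hp := g3_par _ c H (by omega) _ (g3_mcd S i (H + c) c H hmn)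
      (fun x => g3_la S (sq i x (H + c - x))) (fun x h => g3_la1 S _ h)
      (fun x h => g3_la0 S _ h)
    have hq := g3_const _ c H _ (g3_mcd S i (H + c) c H hmn)
    rw [e1, e2, e3]
    refine ⟨?_, ?_, ?_⟩
    · exact hp.trans (add_comm _ _)
    · intro h0 x y hx hy hl
      have hyc : x + y = H + c := by
        rcases hl with ⟨h, _⟩ | ⟨h, _⟩ | ⟨h, _⟩ | ⟨_, h⟩
        · exact absurd (h.symm.trans ht) d03
        · exact absurd (h.symm.trans ht) d13
        · exact absurd (h.symm.trans ht) d23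
        · exact h
      have hy2 : y = H + c - x := by omega
      rw [hy2]
      exact (hq h0 x (by omega) (by omega)).trans (hq h0 H (by omega) le_rfl).symm
    · intro h0
      exact (hq h0 H (by omega) le_rfl).symm

/-- a closed line with at most one cut edge is not mixed -/
theorem g3_two (h1 : SSq) (hK : 4 ∣ K) (S : Finset (TV K H)) (a : ZMod 4) (c : ℕ) (hc0 : 0 < c)
    (hcH : c < H) (hm : Mixed S a c) : 2 ≤ ∑ i : ZMod K, g3_tt S a c i := by
  by_contra hlt
  have hpar : ((∑ i : ZMod K, g3_tt S a c i : ℕ) : ZMod 2) = 0 := by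
    rw [Nat.cast_sum, Finset.sum_congr rfl fun i _ => (g3_seg h1 hK S a c hc0 hcH i).1,
      Finset.sum_add_distrib]
    have e : ∑ i : ZMod K, g3_la S (g3_st a c (i + 1)) =
        ∑ i : ZMod K, g3_la S (g3_st a c i) :=
      Equiv.sum_comp (Equiv.addRight (1 : ZMod K)) (fun i => g3_la S (g3_st a c i))
    rw [e, ← two_mul]
    have h2 : (2 : ZMod 2) = 0 := by decide
    rw [h2, zero_mul]
  have hev : 2 ∣ ∑ i : ZMod K, g3_tt S a c i := (ZMod.natCast_eq_zero_iff _ 2).1 hpar
  have h0 : ∑ i : ZMod K, g3_tt S a c i = 0 := by omega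
  have h0' : ∀ i : ZMod K, g3_tt S a c i = 0 := fun i =>
    (Finset.sum_eq_zero_iff.1 h0) i (Finset.mem_univ i)
  have hst : ∀ n : ℕ, (g3_st a c (n : ZMod K) ∈ S ↔ g3_st a c (0 : ZMod K) ∈ S) := by
    intro n
    induction n with
    | zero => rw [Nat.cast_zero]
    | succ n ih =>
      rw [Nat.cast_succ]
      exact ((g3_seg h1 hK S a c hc0 hcH n).2.2 (h0' _)).trans ih
  have hst' : ∀ i : ZMod K, (g3_st a c i ∈ S ↔ g3_st a c (0 : ZMod K) ∈ S) := fun i => by
    have := hst i.val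
    rwa [ZMod.natCast_zmod_val] at this
  have hall : ∀ f ∈ lin (K := K) (H := H) a c, (f ∈ S ↔ g3_st a c (0 : ZMod K) ∈ S) := by
    rintro f ⟨i, x, y, hx, hy, hl, rfl⟩
    exact ((g3_seg h1 hK S a c hc0 hcH i).2.1 (h0' i) x y hx hy hl).trans (hst' i)
  obtain ⟨⟨f, hf, hfS⟩, g, hg, hgS⟩ := hm
  exact hgS ((hall g hg).2 ((hall f hf).1 hfS))

/-- the four closed lines through a sector with the same constant -/
theorem g3_sum4 (S : Finset (TV K H)) (c : ℕ) (i : ZMod K) :
    ∑ a : ZMod 4, g3_tt S a c i = cx S i c + cd S i c + cy S i c + cd S i (H + c) := by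
  have e : ∑ a : ZMod 4, g3_tt S a c i = ∑ t : ZMod 4,
      (if t = 0 then cx S i c else if t = 1 then cd S i c else if t = 2 then cy S i c
        else cd S i (H + c)) :=
    Equiv.sum_comp (Equiv.subLeft (i.val : ZMod 4)) (fun t : ZMod 4 =>
      (if t = 0 then cx S i c else if t = 1 then cd S i c else if t = 2 then cy S i c
        else cd S i (H + c)))
  rw [e]
  have e2 : ∀ g : ZMod 4 → ℕ, ∑ t : ZMod 4, g t = g 0 + g 1 + g 2 + g 3 := fun g =>
    Fin.sum_univ_four g
  rw [e2]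
  have d01 : ¬ ((1 : ZMod 4) = 0) := by decide
  have d02 : ¬ ((2 : ZMod 4) = 0) := by decide
  have d03 : ¬ ((3 : ZMod 4) = 0) := by decide
  have d12 : ¬ ((2 : ZMod 4) = 1) := by decide
  have d13 : ¬ ((3 : ZMod 4) = 1) := by decide
  have d23 : ¬ ((3 : ZMod 4) = 2) := by decide
  rw [if_pos rfl, if_neg d01, if_pos rfl, if_neg d02, if_neg d12, if_pos rfl, if_neg d03,
    if_neg d13, if_neg d23]

theorem g3_es (S : Finset (TV K H)) (i : ZMod K) :
    ∑ c ∈ Finset.Ioo 0 H, (cx S i c + cd S i c + cy S i c + cd S i (H + c)) ≤ es S i := by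
  have e : ∀ c ∈ Finset.Ioo 0 H, (cx S i c + cd S i c + cy S i c + cd S i (H + c)) =
      (cx S i c + cy S i c) + (cd S i c + cd S i (H + c)) := fun c _ => by ring
  rw [Finset.sum_congr rfl e, Finset.sum_add_distrib]
  unfold es
  refine Nat.add_le_add_left ?_ _
  rw [Finset.sum_add_distrib]
  have e2 : ∑ c ∈ Finset.Ioo 0 H, cd S i (H + c) =
      ∑ s ∈ (Finset.Ioo 0 H).image (fun c => H + c), cd S i s := by
    rw [Finset.sum_image]
    intro x _ y _ h
    exact Nat.add_left_cancel h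
  rw [e2, ← Finset.sum_union]
  · refine Finset.sum_le_sum_of_subset ?_
    intro s hs
    rw [Finset.mem_union, Finset.mem_image] at hs
    rw [Finset.mem_Ioo]
    rcases hs with hs | ⟨c, hc, rfl⟩
    · rw [Finset.mem_Ioo] at hs
      omega
    · rw [Finset.mem_Ioo] at hc
      omega
  · rw [Finset.disjoint_left]
    intro s hs hs2
    rw [Finset.mem_image] at hs2
    obtain ⟨c, hc, rfl⟩ := hs2
    rw [Finset.mem_Ioo] at hs hc
    omega

end

/-- FIRE-G3 -/
theorem slin (h1 : SSq) (h2 : SInj) : SLin := by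
  intro K H _ hK S
  have hK4 : 4 ≤ K := Nat.le_of_dvd (NeZero.pos K) hK
  set I := (Finset.univ : Finset (ZMod 4)) ×ˢ Finset.Ioo 0 H with hI
  have hstep : 2 * (I.filter (fun p => Mixed S p.1 p.2)).card ≤
      ∑ p ∈ I.filter (fun p => Mixed S p.1 p.2), ∑ i : ZMod K, g3_tt S p.1 p.2 i := by
    rw [mul_comm, ← smul_eq_mul]
    refine Finset.card_nsmul_le_sum _ _ 2 fun p hp => ?_
    rw [Finset.mem_filter, hI, Finset.mem_product, Finset.mem_Ioo] at hp
    exact g3_two h1 hK S p.1 p.2 hp.1.2.1 hp.1.2.2 hp.2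
  refine hstep.trans ?_
  refine (Finset.sum_le_sum_of_subset (Finset.filter_subset _ _)).trans ?_
  refine le_trans ?_ (h2 K H hK4 S)
  rw [Finset.sum_comm]
  refine Finset.sum_le_sum fun i _ => ?_
  rw [hI, Finset.sum_product_right]
  rw [Finset.sum_congr rfl fun c _ => g3_sum4 S c i]
  exact g3_es S i

end Pool.Agent.H13.FG
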