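import Pool.Agent.H13.FG.Basic

/-!
# MP_4c8b8e_co: geometry of the bipyramid, balls inside a sector (FIRE-G18)
-/

set_option autoImplicit false

open scoped BigOperators

namespace Pool.Agent.H13.FG

open Classical Pool.Agent.H3.FF CV TV

section

variable {K H : ℕ} [NeZero K]

omit [NeZero K] in
theorem g18_one (hK : 4 ≤ K) (i : ZMod K) : i + 1 ≠ i := by
  intro h
  have h1 : ((1 : ℕ) : ZMod K) = 0 := by
    rw [Nat.cast_one]
    exact left_eq_add.1 h.symm
  rw [ZMod.natCast_eq_zero_iff] at h1
  have := Nat.le_of_dvd (by norm_num) h1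
  omega

omit [NeZero K] in
theorem g18_two (hK : 4 ≤ K) (i : ZMod K) : i + 1 + 1 ≠ i := by
  intro h
  have h1 : ((2 : ℕ) : ZMod K) = 0 := by
    have h2 : i + (1 + 1) = i := by rw [← add_assoc]; exact h
    have h3 : (1 + 1 : ZMod K) = 0 := left_eq_add.1 h2.symm
    rw [← h3]
    norm_num
  rw [ZMod.natCast_eq_zero_iff] at h1
  have := Nat.le_of_dvd (by norm_num) h1
  omega

/-- a point inside a sector lies in no other sector -/
theorem g18_sec (hK : 4 ≤ K) {i j : ZMod K} {x y u v : ℕ} (hx0 : 0 < x) (hxH : x < H)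
    (hy0 : 0 < y) (hyH : y < H) (hu : u ≤ H) (hv : v ≤ H)
    (h : (sq i x y : TV K H) = sq j u v) : j = i := by
  have h0 : sqf H i x y = sqf H j u v := by
    rw [← sq_val i hxH.le hyH.le, ← sq_val j hu hv, h]
  have h1 := congrFun h0 (A i)
  have h2 := congrFun h0 (A (i + 1))
  have n1 : ¬ i = i + 1 := fun e => g18_one hK i e.symm
  have n2 : ¬ i + 1 = i := g18_one hK i
  simp only [sqf, n1, n2, if_true, if_false, zero_add, add_zero] at h1 h2
  by_contra hj
  have n3 : ¬ i = j := fun e => hj e.symm
  have n4 : ¬ i + 1 = j + 1 := fun e => hj (add_right_cancel e).symm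
  simp only [n3, n4, if_false, zero_add, add_zero] at h1 h2
  by_cases h3 : i = j + 1
  · have n5 : ¬ i + 1 = j := by
      intro e
      rw [← e] at h3
      exact g18_two hK i h3.symm
    rw [if_neg n5] at h2
    omega
  · rw [if_neg h3] at h1
    omega

end

/-- FIRE-G18 -/
theorem sloc (h : SSq) : SLoc := by
  intro K H _ hK i x y t
  induction t with
  | zero =>
    intro hx hy hxH hyH f hf
    exact ⟨x, y, by omega, by omega, by omega, by omega, (nr_zero hf).symm⟩
  | succ t ih =>
    intro hx hy hxH hyH f hf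
    obtain ⟨g, hg, hgf⟩ := nr_succ hf
    obtain ⟨x', y', a1, a2, a3, a4, rfl⟩ := ih (by omega) (by omega) (by omega) (by omega) g hg
    rcases hgf with e | e
    · exact ⟨x', y', by omega, by omega, by omega, by omega, e.symm⟩
    · obtain ⟨-, -, -, -, -, -, hinj, -, -, hrep⟩ := h K H hK (by omega)
      obtain ⟨j, u, v, u', v', hu, hv, hu', hv', e1, e2, hc⟩ := hrep _ _ e
      have hj : j = i := g18_sec hK (x := x') (y := y') (by omega) (by omega) (by omega)
        (by omega) hu hv e1.symm
      subst hj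
      obtain ⟨e3, e4⟩ := hinj _ _ _ _ _ hu hv (by omega) (by omega) e1
      subst e3 e4
      exact ⟨u', v', by omega, by omega, by omega, by omega, e2.symm⟩

end Pool.Agent.H13.FG
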