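import Pool.Agent.H13.FG.GStm

/-!
# MP_4c8b8e_co, FIRE-G24: case A of the summary
-/

set_option autoImplicit false

open scoped BigOperators

namespace Pool.Agent.H13.FG

open Classical Pool.Agent.H3.FF CV TV

/-- lines of a box -/
private theorem g24_lines (P : Finset (ℕ × ℕ)) (x0 y0 t : ℕ)
    (h : ∀ p ∈ P, p.1 ≤ x0 + t ∧ x0 ≤ p.1 + t ∧ p.2 ≤ y0 + t ∧ y0 ≤ p.2 + t) (c : ℕ) :
    (P.filter (fun p => p.1 = c)).card ≤ 2 * t + 1 ∧
      (P.filter (fun p => p.2 = c)).card ≤ 2 * t + 1 := by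
  constructor
  · have h1 := Finset.card_le_card_of_injOn (s := P.filter (fun p => p.1 = c))
      (t := Finset.range (2 * t + 1)) (fun p => p.2 + t - y0) (by
        intro p hp
        have hp1 := h p (Finset.mem_filter.1 (Finset.mem_coe.1 hp)).1
        rw [Finset.mem_coe, Finset.mem_range]
        beta_reduce
        omega) (by
        intro p hp p' hp' he
        have e1 := Finset.mem_filter.1 (Finset.mem_coe.1 hp)
        have e2 := Finset.mem_filter.1 (Finset.mem_coe.1 hp')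
        have h2 := h p e1.1
        have h3 := h p' e2.1
        have h4 : p.2 + t - y0 = p'.2 + t - y0 := he
        apply Prod.ext
        · rw [e1.2, e2.2]
        · omega)
    rwa [Finset.card_range] at h1
  · have h1 := Finset.card_le_card_of_injOn (s := P.filter (fun p => p.2 = c))
      (t := Finset.range (2 * t + 1)) (fun p => p.1 + t - x0) (by
        intro p hp
        have hp1 := h p (Finset.mem_filter.1 (Finset.mem_coe.1 hp)).1
        rw [Finset.mem_coe, Finset.mem_range]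
        beta_reduce
        omega) (by
        intro p hp p' hp' he
        have e1 := Finset.mem_filter.1 (Finset.mem_coe.1 hp)
        have e2 := Finset.mem_filter.1 (Finset.mem_coe.1 hp')
        have h2 := h p e1.1
        have h3 := h p' e2.1
        have h4 : p.1 + t - x0 = p'.1 + t - x0 := he
        apply Prod.ext
        · omega
        · rw [e1.2, e2.2])
    rwa [Finset.card_range] at h1

/-- the box -/
private theorem g24_box {K H : ℕ} [NeZero K] (i0 : ZMod K) (x0 y0 t : ℕ)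
    (Q : Finset (TV K H))
    (h : ∀ f ∈ Q, ∃ x' y' : ℕ, x' ≤ x0 + t ∧ x0 ≤ x' + t ∧ y' ≤ y0 + t ∧ y0 ≤ y' + t ∧
      f = sq i0 x' y') :
    ∃ P : Finset (ℕ × ℕ), (∀ p ∈ P, p.1 ≤ x0 + t ∧ x0 ≤ p.1 + t ∧ p.2 ≤ y0 + t ∧
      y0 ≤ p.2 + t) ∧ (∀ p ∈ P, (sq i0 p.1 p.2 : TV K H) ∈ Q) ∧ Q.card ≤ P.card := by
  refine ⟨(Finset.range (x0 + t + 1) ×ˢ Finset.range (y0 + t + 1)).filter (fun p =>
    x0 ≤ p.1 + t ∧ y0 ≤ p.2 + t ∧ (sq i0 p.1 p.2 : TV K H) ∈ Q), ?_, ?_, ?_⟩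
  · intro p hp
    rw [Finset.mem_filter, Finset.mem_product, Finset.mem_range, Finset.mem_range] at hp
    obtain ⟨⟨h1, h2⟩, h3, h4, _⟩ := hp
    omega
  · intro p hp
    exact (Finset.mem_filter.1 hp).2.2.2
  · have h1 : Q ⊆ ((Finset.range (x0 + t + 1) ×ˢ Finset.range (y0 + t + 1)).filter (fun p =>
        x0 ≤ p.1 + t ∧ y0 ≤ p.2 + t ∧ (sq i0 p.1 p.2 : TV K H) ∈ Q)).image
        (fun p => (sq i0 p.1 p.2 : TV K H)) := by
      intro f hf
      obtain ⟨x', y', h1, h2, h3, h4, h5⟩ := h f hf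
      rw [Finset.mem_image]
      refine ⟨(x', y'), ?_, h5.symm⟩
      rw [Finset.mem_filter, Finset.mem_product, Finset.mem_range, Finset.mem_range]
      refine ⟨⟨by omega, by omega⟩, h2, h4, ?_⟩
      show (sq i0 x' y' : TV K H) ∈ Q
      rw [← h5]
      exact hf
    exact (Finset.card_le_card h1).trans Finset.card_image_le

/-- the label is a member and its cut is at most the cut of the union -/
private theorem g24_cut {K H : ℕ} [NeZero K] (h17 : SCutU) {B : Finset (Finset (TV K H))}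
    (hB : Apart B) {S : Finset (TV K H)} (hS : S ∈ B) : cut S ≤ cut (un B) := by
  rw [h17 K H B hB]
  exact Finset.single_le_sum (f := fun S => cut S) (fun _ _ => Nat.zero_le _) hS

/-- the number of points that remain, real inequality -/
private theorem g24_card {h c1 C4 t r Qc Q Q' : ℝ} (hc0 : 0 < c1) (ht1 : c1 * h - 1 ≤ t)
    (hh : 400 ≤ c1 * h) (hr0 : 1 ≤ r) (hrh : r ^ 2 ≤ h) (hr : 24000 ≤ c1 * r)
    (hC : 4000 * C4 ≤ c1 ^ 2 * h) (q3 : 0.48 * t ^ 2 ≤ Q + C4 * h) (h1 : Q ≤ Qc)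
    (h2 : Qc ≤ Q' + 4 * r * (2 * t + 1)) : 0.4761 * t ^ 2 ≤ Q' := by
  have ht : c1 * h / 2 ≤ t := by linarith
  have hh0 : 0 < h := by nlinarith
  have ht0 : 1 ≤ t := by linarith
  have h3 : 12000 * r ≤ t := by
    have h4 : 24000 * r ≤ c1 * r * r := by nlinarith
    have h5 : c1 * r * r ≤ c1 * h := by nlinarith
    linarith
  have h4 : 4 * r * (2 * t + 1) ≤ 0.001 * t ^ 2 := by
    have h5 : 4 * r * (2 * t + 1) ≤ 12 * r * t := by nlinarith
    have h6 : 12000 * r * t ≤ t * t := mul_le_mul_of_nonneg_right h3 (by linarith)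
    nlinarith
  have h5 : C4 * h ≤ 0.001 * t ^ 2 := by
    have h6 : (c1 * h / 2) ^ 2 ≤ t ^ 2 := pow_le_pow_left₀ (by positivity) ht 2
    have h7 : 4000 * C4 * h ≤ c1 ^ 2 * h * h := mul_le_mul_of_nonneg_right hC hh0.le
    nlinarith
  nlinarith [sq_nonneg t]

/-- lower bound for the root -/
private theorem g24_root {q Q' t : ℝ} (hq : 0 ≤ q) (h1 : 9 * Q' ≤ q ^ 2)
    (h2 : 0.4761 * t ^ 2 ≤ Q') : 2.07 * t ≤ q := by
  have h3 : (2.07 * t) ^ 2 ≤ q ^ 2 := by nlinarith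
  exact (le_abs_self _).trans (abs_le_of_sq_le_sq h3 hq)

/-- the route along the arms -/
private theorem g24_route {K H : ℕ} [NeZero K] (hK : 4 ≤ K) (h11 : SBall) (h13 : SRoute1)
    {Q Z : Finset (TV K H)} {r0 : ℕ} {k e C3 lam : ℝ} {t1 l r : ℕ} {S U : Finset (TV K H)}
    {i0 : ZMod K} {P : Finset (ℕ × ℕ)} (hPH : ∀ p ∈ P, p.1 ≤ H ∧ p.2 ≤ H)
    (hPQ : ∀ p ∈ P, (sq i0 p.1 p.2 : TV K H) ∈ Q) (hr1 : 1 ≤ r)
    (hZ : (Z.card : ℝ) ≤ C3 * H)
    (hdust : (((K + 7) ^ r0 : ℕ) : ℝ) * (C3 * H) ≤ r * (k * H))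
    (hF : ∃ (e : Fin 4) (F : Finset (ℕ × ℕ)), F ⊆ P ∧ F.card = r ∧
      Set.InjOn (idx e) (F : Set (ℕ × ℕ)) ∧ ∀ p ∈ F, ∃ j ≤ l, ArmOk H e p j ∧
        (sq i0 (arm e p j).1 (arm e p j).2 : TV K H) ∈ S)
    (hc : 4 * ((l : ℝ) + t1 + lam + e * H) ≤ cut U) : NearTo Q Z r0 k e t1 lam U S := by
  obtain ⟨e', F, hFP, hFr, hFi, hFS⟩ := hF
  obtain ⟨p, hp, w, n, hn, hw, hw0, hwn, hd⟩ := h13 K H hK Z r0 ((K + 7) ^ r0)
    (fun z => h11 K H hK z r0) S i0 e' F l r hr1 hFr hFi (fun p hp => hPH p (hFP hp)) hFS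
  refine ⟨n, ⟨w, hw, ?_, hwn, ?_⟩, ?_⟩
  · rw [hw0]
    exact hPQ p (hFP hp)
  · have hr0 : (0 : ℝ) < r := by exact_mod_cast hr1
    have h1 : (r : ℝ) * (dust Z r0 (trace w n) : ℝ) ≤ (((K + 7) ^ r0 : ℕ) : ℝ) * Z.card := by
      exact_mod_cast hd
    have h2 : (((K + 7) ^ r0 : ℕ) : ℝ) * Z.card ≤ (((K + 7) ^ r0 : ℕ) : ℝ) * (C3 * H) :=
      mul_le_mul_of_nonneg_left hZ (Nat.cast_nonneg _)
    exact le_of_mul_le_mul_left ((h1.trans h2).trans hdust) hr0
  · have h1 : (n : ℝ) ≤ l := by exact_mod_cast hn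
    linarith

private theorem g24_ceil {a b h : ℝ} (ha : 0 < a) (hh : (⌈b / a⌉₊ : ℝ) ≤ h) : b ≤ a * h := by
  have e1 := (Nat.le_ceil (b / a)).trans hh
  rw [div_le_iff₀ ha, mul_comm] at e1
  exact e1

private theorem g24_thr {c k a b : ℝ} (hc : 0 < c) (hk : 0 < k) :
    ∃ R : ℕ, 1 ≤ R ∧ a ≤ c * R ∧ b ≤ k * R := by
  refine ⟨1 + ⌈a / c⌉₊ + ⌈b / k⌉₊, by omega, g24_ceil hc ?_, g24_ceil hk ?_⟩
  · have e2 : (0 : ℝ) ≤ ⌈b / k⌉₊ := Nat.cast_nonneg _
    push_cast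
    linarith
  · have e2 : (0 : ℝ) ≤ ⌈a / c⌉₊ := Nat.cast_nonneg _
    push_cast
    linarith

theorem snearA (_ : SSq) (h7 : SCaseA) (h8 : SArmA) (h9 : SArmB) (h10 : SPick) (h11 : SBall)
    (h13 : SRoute1) (h17 : SCutU) (h18 : SLoc) (hp : SPolar) (hq : SPole) : SNearA := by
  intro K _ hK η c1 δ e C3 C4 k hC r0
  have hK4 : 4 ≤ K := Nat.le_of_dvd (Nat.pos_of_ne_zero (NeZero.ne K)) hK
  obtain ⟨he0, he1, hc0, hc1, hd0, hd1, hm0, hm1, hC3, hC4, hk0⟩ := hC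
  obtain ⟨H1, hH1⟩ := hp K hK4 e C3 k hm0 hC3 hk0 r0
  set M : ℕ := (K + 7) ^ r0 with hM
  -- the threshold
  obtain ⟨R, hR1, hR2, hR3⟩ : ∃ R : ℕ, 1 ≤ R ∧ 24000 ≤ c1 * R ∧ 4 * (M * C3) ≤ k * R :=
    g24_thr hc0 hk0
  refine ⟨H1 + R * R + 1000 + ⌈400 / c1⌉₊ + ⌈4000 * C4 / c1 ^ 2⌉₊, ?_⟩
  intro H hH i0 x0 y0 B Q Z t1 hG lam hl0 hl1 d S g hd hes hLab
  obtain ⟨ap, x1, y1, x2, y2, ht1, ht2, q1, q2, q3, z⟩ := hG
  have hHc : ((H1 + R * R + 1000 + ⌈400 / c1⌉₊ + ⌈4000 * C4 / c1 ^ 2⌉₊ : ℕ) : ℝ) ≤ H := by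
    exact_mod_cast hH
  push_cast at hHc
  have hp1 : (0 : ℝ) ≤ H1 := Nat.cast_nonneg _
  have hp2 : (0 : ℝ) ≤ R * R := by positivity
  have hp3 : (0 : ℝ) ≤ ⌈400 / c1⌉₊ := Nat.cast_nonneg _
  have hp4 : (0 : ℝ) ≤ ⌈4000 * C4 / c1 ^ 2⌉₊ := Nat.cast_nonneg _
  have hh : (1000 : ℝ) ≤ H := by linarith
  have hh0 : (0 : ℝ) < H := by linarith
  have hch : 400 ≤ c1 * H := g24_ceil hc0 (by linarith)
  have hC4h : 4000 * C4 ≤ c1 ^ 2 * H := g24_ceil (by positivity) (by linarith)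
  have hc80 : c1 ≤ 1 / 80 := by linarith
  have hch80 : c1 * H ≤ 1 / 80 * H := mul_le_mul_of_nonneg_right hc80 hh0.le
  have hcη : c1 * H ≤ η / 20 * H := mul_le_mul_of_nonneg_right hc1 hh0.le
  have hdH : (d : ℝ) ≤ c1 * H / 1000 := by
    have e1 : δ * H ≤ c1 / 1000 * H := mul_le_mul_of_nonneg_right hd1 hh0.le
    linarith
  have hmH : e * H ≤ c1 * H / 1000 := by
    have e1 : e * H ≤ c1 / 1000 * H := mul_le_mul_of_nonneg_right hm1 hh0.le
    linarith
  have hmH0 : 0 ≤ e * H := by positivity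
  have hηH : 0 < η * H := by positivity
  have hd3 : d + 3 ≤ H := by
    have e1 : ((d + 3 : ℕ) : ℝ) ≤ H := by push_cast; linarith
    exact_mod_cast e1
  have hd4 : 2 * d + 4 ≤ H := by
    have e1 : ((2 * d + 4 : ℕ) : ℝ) ≤ H := by push_cast; linarith
    exact_mod_cast e1
  -- the member
  obtain ⟨hSB, ⟨f1, hf1, hf1l⟩, ⟨f2, hf2, hf2l⟩, _⟩ := hq K H hK4 B ap d S g hd4 hes hLab
  have hcut : (cut S : ℝ) ≤ cut (un B) := by exact_mod_cast g24_cut h17 ap hSB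
  -- the box
  have b1 : t1 < x0 := by
    have e1 : (t1 : ℝ) < x0 := by linarith
    exact_mod_cast e1
  have b2 : t1 < y0 := by
    have e1 : (t1 : ℝ) < y0 := by linarith
    exact_mod_cast e1
  have b3 : x0 + t1 < H := by
    have e1 : ((x0 + t1 : ℕ) : ℝ) < H := by push_cast; linarith
    exact_mod_cast e1
  have b4 : y0 + t1 < H := by
    have e1 : ((y0 + t1 : ℕ) : ℝ) < H := by push_cast; linarith
    exact_mod_cast e1
  obtain ⟨P, hPb, hPQ, hPc⟩ := g24_box i0 x0 y0 t1 Q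
    (fun f hf => h18 K H hK4 i0 x0 y0 t1 b1 b2 b3 b4 f (q1 f hf))
  have hPS : ∀ p ∈ P, (sq i0 p.1 p.2 : TV K H) ∉ S := by
    intro p hp hs
    refine q2 _ (hPQ p hp) ?_
    unfold un
    rw [Finset.mem_biUnion]
    exact ⟨S, hSB, hs⟩
  have hPH : ∀ p ∈ P, p.1 ≤ H ∧ p.2 ≤ H := by
    intro p hp
    have := hPb p hp
    omega
  -- the arms
  set r : ℕ := Nat.sqrt H with hr
  have hRr : R ≤ r := by
    rw [hr, Nat.le_sqrt]
    omega
  have hr1 : 1 ≤ r := hR1.trans hRr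
  have hrH : r * r ≤ H := Nat.sqrt_le H
  have hRr' : (R : ℝ) ≤ r := by exact_mod_cast hRr
  have hr1' : (1 : ℝ) ≤ r := by exact_mod_cast hr1
  have hrH' : (r : ℝ) ^ 2 ≤ H := by
    have e1 : ((r * r : ℕ) : ℝ) ≤ H := Nat.cast_le.2 hrH
    rw [Nat.cast_mul] at e1
    rw [pow_two]
    exact e1
  have hcr : 24000 ≤ c1 * r := hR2.trans (mul_le_mul_of_nonneg_left hRr' hc0.le)
  have hdust : (M : ℝ) * (C3 * H) ≤ r * (k * H) := by
    have e1 : 4 * (M * C3) ≤ k * r := hR3.trans (mul_le_mul_of_nonneg_left hRr' hk0.le)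
    have e2 : (0 : ℝ) ≤ M * C3 := by positivity
    have e3 : (M : ℝ) * C3 ≤ k * r := by linarith
    have e4 := mul_le_mul_of_nonneg_right e3 hh0.le
    linarith
  obtain ⟨l, hl1', hlH, ⟨Q', hQ'P, hQ'c, hQ'a⟩, hF⟩ := h10 K H S i0 P r (2 * t1 + 1) hr1 hPS
    (fun c => (g24_lines P x0 y0 t1 hPb c).1) (fun c => (g24_lines P x0 y0 t1 hPb c).2)
  have hQ' : 0.4761 * (t1 : ℝ) ^ 2 ≤ Q'.card := by
    refine g24_card hc0 ht1 hch hr1' hrH' hcr hC4h q3 (Qc := P.card)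
      (by exact_mod_cast hPc) ?_
    exact_mod_cast hQ'c
  have ht0 : (399 : ℝ) ≤ t1 := by linarith
  have hQ'0 : Q'.Nonempty := by
    rw [← Finset.card_pos]
    have e1 : (0 : ℝ) < Q'.card := lt_of_lt_of_le (by positivity) hQ'
    exact_mod_cast e1
  -- case A
  have hA := h7 K H hK B ap d S g i0 hd3 hes hLab
  have hA' : 2 * ((nx S i0 : ℝ) + ny S i0 + nd S i0) ≤ cut S + 2 * (3 * d + 2) := by
    exact_mod_cast hA
  by_cases hlH1 : l ≤ H
  · have hF' := hF hlH1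
    by_cases hlη : (l : ℝ) ≤ η * H / 2
    · -- short arms
      obtain ⟨q, hq9, hqs⟩ := h8 K H hK4 S i0 Q' (l - 1) hQ'0 (by
        intro p hp
        have e1 := hPb p (hQ'P hp)
        have e2 : l < p.1 := by
          have e3 : (x0 : ℝ) ≤ p.1 + t1 := by exact_mod_cast e1.2.1
          have e4 : (l : ℝ) < p.1 := by linarith
          exact_mod_cast e4
        have e5 : l < p.2 := by
          have e3 : (y0 : ℝ) ≤ p.2 + t1 := by exact_mod_cast e1.2.2.2
          have e4 : (l : ℝ) < p.2 := by linarith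
          exact_mod_cast e4
        have e6 : p.1 + l < H := by
          have e3 : (p.1 : ℝ) ≤ x0 + t1 := by exact_mod_cast e1.1
          have e4 : ((p.1 + l : ℕ) : ℝ) < H := by push_cast; linarith
          exact_mod_cast e4
        have e7 : p.2 + l < H := by
          have e3 : (p.2 : ℝ) ≤ y0 + t1 := by exact_mod_cast e1.2.2.1
          have e4 : ((p.2 + l : ℕ) : ℝ) < H := by push_cast; linarith
          exact_mod_cast e4
        omega) (by
        intro p hp e' j hj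
        have e1 := hPb p (hQ'P hp)
        have e2 : l < p.1 := by
          have e3 : (x0 : ℝ) ≤ p.1 + t1 := by exact_mod_cast e1.2.1
          have e4 : (l : ℝ) < p.1 := by linarith
          exact_mod_cast e4
        have e5 : l < p.2 := by
          have e3 : (y0 : ℝ) ≤ p.2 + t1 := by exact_mod_cast e1.2.2.2
          have e4 : (l : ℝ) < p.2 := by linarith
          exact_mod_cast e4
        have e6 : p.1 + l < H := by
          have e3 : (p.1 : ℝ) ≤ x0 + t1 := by exact_mod_cast e1.1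
          have e4 : ((p.1 + l : ℕ) : ℝ) < H := by push_cast; linarith
          exact_mod_cast e4
        have e7 : p.2 + l < H := by
          have e3 : (p.2 : ℝ) ≤ y0 + t1 := by exact_mod_cast e1.2.2.1
          have e4 : ((p.2 + l : ℕ) : ℝ) < H := by push_cast; linarith
          exact_mod_cast e4
        refine hQ'a p hp e' j (by omega) ?_
        unfold ArmOk
        split_ifs <;> omega)
      have hq2 : 2.07 * (t1 : ℝ) ≤ q := by
        refine g24_root (Nat.cast_nonneg q) ?_ hQ'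
        exact_mod_cast hq9
      have hqs' : (q : ℝ) + 6 * (l - 1) ≤ nx S i0 + ny S i0 + nd S i0 + 1 := by
        have e1 : ((q + 6 * (l - 1) : ℕ) : ℝ) ≤ ((nx S i0 + ny S i0 + nd S i0 + 1 : ℕ) : ℝ) := by
          exact_mod_cast hqs
        rw [Nat.cast_add, Nat.cast_mul, Nat.cast_sub hl1'] at e1
        push_cast at e1
        exact e1
      have hl0' : (1 : ℝ) ≤ l := by exact_mod_cast hl1'
      exact g24_route hK4 h11 h13 hPH hPQ hr1 z hdust hF' (by linarith)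
    · -- middle arms
      push Not at hlη
      obtain ⟨p, hp⟩ := hQ'0
      have e1 := hPb p (hQ'P hp)
      have h3 := h9 K H hK4 S i0 p (l - 1) (by omega) (by omega) (by omega) (by omega) (by omega)
        (fun e' j hj hok => hQ'a p hp e' j (by omega) hok)
      have h3' : 3 * ((l : ℝ) - 1) ≤ nx S i0 + ny S i0 + nd S i0 + 3 := by
        have e1 : ((3 * (l - 1) : ℕ) : ℝ) ≤ ((nx S i0 + ny S i0 + nd S i0 + 3 : ℕ) : ℝ) := by
          exact_mod_cast h3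
        rw [Nat.cast_mul, Nat.cast_sub hl1'] at e1
        push_cast at e1
        exact e1
      exact g24_route hK4 h11 h13 hPH hPQ hr1 z hdust hF' (by linarith)
  · -- long arms
    obtain ⟨p, hp⟩ := hQ'0
    have e1 := hPb p (hQ'P hp)
    have h3 := h9 K H hK4 S i0 p H le_rfl (by omega) (by omega) (by omega) (by omega)
      (fun e' j hj hok => hQ'a p hp e' j (by omega) hok)
    have h3' : 3 * (H : ℝ) ≤ nx S i0 + ny S i0 + nd S i0 + 3 := by exact_mod_cast h3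
    have hbQ := hPQ p (hQ'P hp)
    have hHH1 : H1 ≤ H := by omega
    set b : TV K H := sq i0 p.1 p.2 with hb
    rcases le_total (lev b) H with hlb | hlb
    · obtain ⟨w, n, hw, hw0, hwn, hn, hdu⟩ := hH1 H hHH1 Z z b f1
      refine ⟨n, ⟨w, hw, by rw [hw0]; exact hbQ, by rw [hwn]; exact hf1, hdu⟩, ?_⟩
      have e2 : (n : ℝ) ≤ (lev b : ℝ) + lev f1 + e * H := hn.trans (by
        gcongr
        exact min_le_left _ _)
      have e3 : (lev b : ℝ) ≤ H := by exact_mod_cast hlb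
      have e4 : (lev f1 : ℝ) ≤ 2 * d + 3 := by exact_mod_cast hf1l
      linarith
    · obtain ⟨w, n, hw, hw0, hwn, hn, hdu⟩ := hH1 H hHH1 Z z b f2
      refine ⟨n, ⟨w, hw, by rw [hw0]; exact hbQ, by rw [hwn]; exact hf2, hdu⟩, ?_⟩
      have e2 : (n : ℝ) ≤ 4 * H - lev b - lev f2 + e * H := hn.trans (by
        gcongr
        exact min_le_right _ _)
      have e3 : (H : ℝ) ≤ lev b := by exact_mod_cast hlb
      have e4 : 2 * (H : ℝ) ≤ lev f2 + (2 * d + 3) := by exact_mod_cast hf2l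
      linarith

end Pool.Agent.H13.FG
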