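import Pool.Agent.H13.FG.GStm

/-!
# MP_4c8b8e_co: the label of a good sector is near if its cut is long (FIRE-G25)
-/

set_option autoImplicit false

open scoped BigOperators

namespace Pool.Agent.H13.FG

open Classical Pool.Agent.H3.FF CV TV

private theorem g25_num {H n t1 d cS cU : ℕ} {η c1 δ e lam lb lg : ℝ}
    (he1 : η ≤ 1 / 4) (hc1 : c1 ≤ η / 20) (hd1 : δ ≤ c1 / 1000) (hm1 : e ≤ c1 / 1000)
    (hH : 100 ≤ H) (hn : (n : ℝ) ≤ lb + lg + e * H) (hl : lb + lg ≤ H + (2 * d + 3))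
    (ht : (t1 : ℝ) ≤ c1 * H) (hlam : lam ≤ 0.9 * H) (hd : (d : ℝ) ≤ δ * H)
    (hcut : 8 * H ≤ cS + 12 * d + 16) (hU : cS ≤ cU) :
    4 * ((n : ℝ) + t1 + lam + e * H) ≤ cU := by
  have hHr : (100 : ℝ) ≤ H := by exact_mod_cast hH
  have h0 : (0 : ℝ) ≤ H := by linarith
  have hc80 : c1 ≤ 1 / 80 := by linarith
  have h1 : c1 * H ≤ 1 / 80 * H := mul_le_mul_of_nonneg_right hc80 h0
  have h2 : δ * H ≤ 1 / 80000 * H := mul_le_mul_of_nonneg_right (by linarith) h0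
  have h3 : e * H ≤ 1 / 80000 * H := mul_le_mul_of_nonneg_right (by linarith) h0
  have h4 : (8 : ℝ) * H ≤ cS + 12 * d + 16 := by exact_mod_cast hcut
  have h5 : (cS : ℝ) ≤ cU := by exact_mod_cast hU
  linarith

/-- FIRE-G25. Case B: the label of a good sector is near if its cut is long. -/
theorem snearB (_h1 : SSq) (h17 : SCutU) (hp : SPolar) (hq : SPole) : SNearB := by
  intro K _ hK η c1 δ e C3 C4 k hc r0
  have hK4 : 4 ≤ K := Nat.le_of_dvd (Nat.pos_of_ne_zero (NeZero.ne K)) hK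
  obtain ⟨H0, hH0⟩ := hp K hK4 e C3 k hc.hm0 hc.hC3 hc.hk0 r0
  obtain ⟨H1, hH1⟩ := exists_nat_gt (2 / c1)
  obtain ⟨H2, hH2⟩ := exists_nat_gt (C4 / (0.12 * c1 ^ 2))
  refine ⟨max (max H0 100) (max H1 H2), ?_⟩
  intro H hH i0 x0 y0 B Q Z t1 hG lam _ hlam d S g hd hes hLab hcut
  have hHa : H0 ≤ H := (le_max_left _ _).trans ((le_max_left _ _).trans hH)
  have hHb : 100 ≤ H := (le_max_right _ _).trans ((le_max_left _ _).trans hH)
  have hHc : H1 ≤ H := (le_max_left _ _).trans ((le_max_right _ _).trans hH)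
  have hHd : H2 ≤ H := (le_max_right _ _).trans ((le_max_right _ _).trans hH)
  have hHr : (100 : ℝ) ≤ H := by exact_mod_cast hHb
  have h0 : (0 : ℝ) < H := by linarith
  have hc80 : c1 ≤ 1 / 80 := by have := hc.hc1; have := hc.he1; linarith
  have hdH : (d : ℝ) ≤ 1 / 80000 * H := by
    refine hd.trans (mul_le_mul_of_nonneg_right ?_ h0.le)
    have := hc.hd1
    linarith
  have hd4 : 2 * d + 4 ≤ H := by
    have h : ((2 * d + 4 : ℕ) : ℝ) ≤ (H : ℝ) := by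
      push_cast
      linarith
    exact_mod_cast h
  obtain ⟨hS, ⟨f1, hf1, hl1⟩, ⟨f2, hf2, hl2⟩, -⟩ := hq K H hK4 B hG.ap d S g hd4 hes hLab
  -- the set `Q` is not empty
  have hQ : Q.Nonempty := by
    rw [Finset.nonempty_iff_ne_empty]
    rintro rfl
    have h3 := hG.q3
    have h4 := hG.ht1
    rw [Finset.card_empty, Nat.cast_zero, zero_add] at h3
    have hcH : 2 < c1 * H := by
      have h5 : 2 / c1 < (H : ℝ) := hH1.trans_le (by exact_mod_cast hHc)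
      rw [div_lt_iff₀ hc.hc0] at h5
      linarith
    have h6 : c1 * H / 2 ≤ t1 := by linarith
    have h7 : (c1 * H / 2) ^ 2 ≤ (t1 : ℝ) ^ 2 := by
      refine pow_le_pow_left₀ ?_ h6 2
      linarith
    have h8 : C4 / (0.12 * c1 ^ 2) < (H : ℝ) := hH2.trans_le (by exact_mod_cast hHd)
    have h9 : (0 : ℝ) < 0.12 * c1 ^ 2 := mul_pos (by norm_num) (pow_pos hc.hc0 2)
    rw [div_lt_iff₀ h9] at h8
    have h10 : C4 * H < H * (0.12 * c1 ^ 2) * H := mul_lt_mul_of_pos_right h8 h0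
    nlinarith
  obtain ⟨b, hb⟩ := hQ
  have hU : cut S ≤ cut (un B) := by
    rw [h17 K H B hG.ap]
    exact Finset.single_le_sum (f := fun T => cut T) (fun _ _ => Nat.zero_le _) hS
  have hl1r : (lev f1 : ℝ) ≤ 2 * d + 3 := by exact_mod_cast hl1
  have hl2r : (2 : ℝ) * H ≤ lev f2 + (2 * d + 3) := by exact_mod_cast hl2
  by_cases hbl : lev b ≤ H
  · obtain ⟨w, n, hw, hw0, hwn, hn, hdu⟩ := hH0 H hHa Z hG.z b f1
    refine ⟨n, ⟨w, hw, by rw [hw0]; exact hb, by rw [hwn]; exact hf1, hdu⟩, ?_⟩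
    have hblr : (lev b : ℝ) ≤ H := by exact_mod_cast hbl
    exact g25_num hc.he1 hc.hc1 hc.hd1 hc.hm1 hHb
      (hn.trans (add_le_add_left (min_le_left _ _) _))
      (by linarith) hG.ht2 hlam hd hcut hU
  · obtain ⟨w, n, hw, hw0, hwn, hn, hdu⟩ := hH0 H hHa Z hG.z b f2
    refine ⟨n, ⟨w, hw, by rw [hw0]; exact hb, by rw [hwn]; exact hf2, hdu⟩, ?_⟩
    have hblr : (H : ℝ) ≤ lev b := by exact_mod_cast (not_le.1 hbl).le
    refine g25_num (lb := 4 * H - lev b) (lg := - lev f2) hc.he1 hc.hc1 hc.hd1 hc.hm1 hHb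
      (hn.trans ?_) (by linarith) hG.ht2 hlam hd hcut hU
    have := min_le_right ((lev b : ℝ) + lev f2) (4 * H - lev b - lev f2)
    linarith

end Pool.Agent.H13.FG
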