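import Pool.Agent.H13.FG.GStm

/-!
# MP_4c8b8e_co: all members are near if the cut is long
-/

set_option autoImplicit false

open scoped BigOperators

namespace Pool.Agent.H13.FG

open Classical Pool.Agent.H3.FF CV TV

/-- the area of `Q` forces a point for large `H` -/
theorem g23_pos {c1 C4 H t q : ℝ} (hc : 0 < c1) (hC : 0 < C4) (h1 : 2 / c1 ≤ H)
    (h2 : C4 / (0.12 * c1 ^ 2) < H) (ht : c1 * H - 1 ≤ t)
    (hq : 0.48 * t ^ 2 ≤ q + C4 * H) : 0 < q := by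
  have h3 : 2 ≤ c1 * H := by
    rw [div_le_iff₀ hc] at h1
    linarith
  have h4 : C4 < H * (0.12 * c1 ^ 2) := (div_lt_iff₀ (by positivity)).1 h2
  have hH : 0 < H := (div_pos two_pos hc).trans_le h1
  have h5 : c1 * H / 2 ≤ t := by linarith
  have h6 : (c1 * H / 2) ^ 2 ≤ t ^ 2 := pow_le_pow_left₀ (by positivity) h5 2
  have h7 : C4 * H < H * (0.12 * c1 ^ 2) * H := mul_lt_mul_of_pos_right h4 hH
  nlinarith

/-- FIRE-G23 -/
theorem snearI (h1 : SSq) (hp : SPolar) : SNearI := by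
  intro K _ hK η c1 δ e C3 C4 k hC r0
  have hK4 : 4 ≤ K := Nat.le_of_dvd (Nat.pos_of_ne_zero (NeZero.ne K)) hK
  obtain ⟨H0, hH0⟩ := hp K hK4 e C3 k hC.hm0 hC.hC3 hC.hk0 r0
  refine ⟨max H0 (max ⌈2 / c1⌉₊ (⌊C4 / (0.12 * c1 ^ 2)⌋₊ + 1)), ?_⟩
  intro H hH i0 x0 y0 B Q Z t1 hG lam hl0 hl1 hcut S hS hSn
  have hHa : H0 ≤ H := (le_max_left _ _).trans hH
  have hHb : ⌈2 / c1⌉₊ ≤ H := (le_max_left _ _).trans ((le_max_right _ _).trans hH)
  have hHc : ⌊C4 / (0.12 * c1 ^ 2)⌋₊ + 1 ≤ H :=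
    (le_max_right _ _).trans ((le_max_right _ _).trans hH)
  have hQ : Q.Nonempty := by
    rw [← Finset.card_pos]
    have h2 : (0 : ℝ) < Q.card := by
      refine g23_pos hC.hc0 hC.hC4 ((Nat.le_ceil _).trans (by exact_mod_cast hHb)) ?_ hG.ht1
        hG.q3
      exact (Nat.lt_floor_add_one _).trans_le (by exact_mod_cast hHc)
    exact_mod_cast h2
  obtain ⟨b, hb⟩ := hQ
  obtain ⟨a, ha⟩ := hSn
  obtain ⟨w, n, hw, hw0, hwn, hn, hd⟩ := hH0 H hHa Z hG.z b a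
  refine ⟨n, ⟨w, hw, by rw [hw0]; exact hb, by rw [hwn]; exact ha, hd⟩, ?_⟩
  have h3 : min ((lev b : ℝ) + lev a) (4 * H - lev b - lev a) ≤ 2 * H := by
    rcases le_total ((lev b : ℝ) + lev a) (2 * H) with h | h
    · exact (min_le_left _ _).trans h
    · exact (min_le_right _ _).trans (by linarith)
  linarith

end Pool.Agent.H13.FG
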