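import Pool.Agent.H13.FG.Basic

/-!
# MP_4c8b8e_co: choice of the length of the arms (FIRE-G10)
-/

set_option autoImplicit false

open scoped BigOperators

namespace Pool.Agent.H13.FG

open Classical Pool.Agent.H3.FF CV TV

section

variable {K H : ℕ} [NeZero K]

/-- the arm of `p` in the direction `e` meets `S` at distance at most `l` -/
def g10_hit (S : Finset (TV K H)) (i : ZMod K) (e : Fin 4) (l : ℕ) (p : ℕ × ℕ) : Prop :=
  ∃ j ≤ l, ArmOk H e p j ∧ sq i (arm e p j).1 (arm e p j).2 ∈ S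

/-- the lines with an arm that meets `S` -/
noncomputable def g10_ln (S : Finset (TV K H)) (i : ZMod K) (Q : Finset (ℕ × ℕ)) (e : Fin 4)
    (l : ℕ) : Finset ℕ :=
  (Q.filter (fun p => g10_hit S i e l p)).image (idx e)

theorem g10_zero (S : Finset (TV K H)) (i : ZMod K) (Q : Finset (ℕ × ℕ))
    (hQ : ∀ p ∈ Q, sq i p.1 p.2 ∉ S) (e : Fin 4) : g10_ln S i Q e 0 = ∅ := by
  unfold g10_ln
  rw [Finset.image_eq_empty, Finset.filter_eq_empty_iff]
  rintro p hp ⟨j, hj, _, h⟩
  have hj0 : j = 0 := by omega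
  subst hj0
  have harm : arm e p 0 = p := by
    unfold arm
    split_ifs <;> simp
  rw [harm] at h
  exact hQ p hp h

theorem g10_line (Q : Finset (ℕ × ℕ)) (q : ℕ)
    (h1 : ∀ c, (Q.filter (fun p => p.1 = c)).card ≤ q)
    (h2 : ∀ c, (Q.filter (fun p => p.2 = c)).card ≤ q) (e : Fin 4) (c : ℕ) :
    (Q.filter (fun p => idx e p = c)).card ≤ q := by
  unfold idx
  by_cases he : e = 0 ∨ e = 1
  · simp only [if_pos he]
    exact h2 c
  · simp only [if_neg he]
    exact h1 c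

theorem g10_lines (Q : Finset (ℕ × ℕ)) (q : ℕ)
    (h1 : ∀ c, (Q.filter (fun p => p.1 = c)).card ≤ q)
    (h2 : ∀ c, (Q.filter (fun p => p.2 = c)).card ≤ q) (e : Fin 4) (T : Finset ℕ) :
    (Q.filter (fun p => idx e p ∈ T)).card ≤ T.card * q := by
  have hsub : Q.filter (fun p => idx e p ∈ T) ⊆
      T.biUnion (fun c => Q.filter (fun p => idx e p = c)) := by
    intro p hp
    rw [Finset.mem_filter] at hp
    rw [Finset.mem_biUnion]
    exact ⟨idx e p, hp.2, Finset.mem_filter.2 ⟨hp.1, rfl⟩⟩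
  refine (Finset.card_le_card hsub).trans (Finset.card_biUnion_le.trans ?_)
  calc _ ≤ ∑ _c ∈ T, q := Finset.sum_le_sum (fun c _ => g10_line Q q h1 h2 e c)
    _ = T.card * q := by simp

theorem g10_rest (S : Finset (TV K H)) (i : ZMod K) (Q : Finset (ℕ × ℕ)) (r q : ℕ)
    (h1 : ∀ c, (Q.filter (fun p => p.1 = c)).card ≤ q)
    (h2 : ∀ c, (Q.filter (fun p => p.2 = c)).card ≤ q) (l : ℕ) (hl : 1 ≤ l)
    (hP : ∀ e, (g10_ln S i Q e (l - 1)).card < r) :
    ∃ Q' ⊆ Q, Q.card ≤ Q'.card + 4 * r * q ∧ ∀ p ∈ Q', ∀ e : Fin 4, ∀ j < l,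
      ArmOk H e p j → sq i (arm e p j).1 (arm e p j).2 ∉ S := by
  refine ⟨Q.filter (fun p => ∀ e : Fin 4, ¬ g10_hit S i e (l - 1) p), Finset.filter_subset _ _,
    ?_, ?_⟩
  · have hsub : Q ⊆ Q.filter (fun p => ∀ e : Fin 4, ¬ g10_hit S i e (l - 1) p) ∪
        (Finset.univ : Finset (Fin 4)).biUnion
          (fun e => Q.filter (fun p => idx e p ∈ g10_ln S i Q e (l - 1))) := by
      intro p hp
      rw [Finset.mem_union]
      by_cases h : ∀ e : Fin 4, ¬ g10_hit S i e (l - 1) p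
      · left
        exact Finset.mem_filter.2 ⟨hp, h⟩
      · right
        push Not at h
        obtain ⟨e, he⟩ := h
        rw [Finset.mem_biUnion]
        refine ⟨e, Finset.mem_univ _, Finset.mem_filter.2 ⟨hp, ?_⟩⟩
        exact Finset.mem_image_of_mem _ (Finset.mem_filter.2 ⟨hp, he⟩)
    refine (Finset.card_le_card hsub).trans ((Finset.card_union_le _ _).trans ?_)
    refine Nat.add_le_add_left ?_ _
    refine Finset.card_biUnion_le.trans ?_
    calc _ ≤ ∑ _e : Fin 4, r * q := Finset.sum_le_sum (fun e _ =>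
          (g10_lines Q q h1 h2 e _).trans (Nat.mul_le_mul_right q (hP e).le))
      _ = 4 * r * q := by
          rw [Finset.sum_const, Finset.card_univ, Fintype.card_fin, smul_eq_mul, Nat.mul_assoc]
  · intro p hp e j hj hok hmem
    rw [Finset.mem_filter] at hp
    exact hp.2 e ⟨j, by omega, hok, hmem⟩

theorem g10_choose (S : Finset (TV K H)) (i : ZMod K) (Q : Finset (ℕ × ℕ)) (r l : ℕ) (e : Fin 4)
    (hr : r ≤ (g10_ln S i Q e l).card) :
    ∃ F : Finset (ℕ × ℕ), F ⊆ Q ∧ F.card = r ∧ Set.InjOn (idx e) (F : Set (ℕ × ℕ)) ∧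
      ∀ p ∈ F, ∃ j ≤ l, ArmOk H e p j ∧ sq i (arm e p j).1 (arm e p j).2 ∈ S := by
  obtain ⟨T, hT, hTc⟩ := Finset.exists_subset_card_eq hr
  have hex : ∀ c : ℕ, ∃ p : ℕ × ℕ, c ∈ T → p ∈ Q ∧ g10_hit S i e l p ∧ idx e p = c := by
    intro c
    by_cases hc : c ∈ T
    · obtain ⟨p, hp, hpc⟩ := Finset.mem_image.1 (hT hc)
      rw [Finset.mem_filter] at hp
      exact ⟨p, fun _ => ⟨hp.1, hp.2, hpc⟩⟩
    · exact ⟨(0, 0), fun h => absurd h hc⟩
  choose g hg using hex
  refine ⟨T.image g, ?_, ?_, ?_, ?_⟩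
  · intro p hp
    obtain ⟨c, hc, rfl⟩ := Finset.mem_image.1 hp
    exact (hg c hc).1
  · rw [Finset.card_image_of_injOn, hTc]
    intro c hc c' hc' h
    rw [← (hg c hc).2.2, ← (hg c' hc').2.2]
    exact congrArg (idx e) h
  · intro p hp p' hp' h
    obtain ⟨c, hc, rfl⟩ := Finset.mem_image.1 (Finset.mem_coe.1 hp)
    obtain ⟨c', hc', rfl⟩ := Finset.mem_image.1 (Finset.mem_coe.1 hp')
    rw [(hg c hc).2.2, (hg c' hc').2.2] at h
    rw [h]
  · intro p hp
    obtain ⟨c, hc, rfl⟩ := Finset.mem_image.1 hp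
    exact (hg c hc).2.1

end

/-- FIRE-G10: choice of the length of the arms -/
theorem spick : SPick := by
  intro K H _ S i Q r q hr hQ h1 h2
  by_cases h : ∃ l, l ≤ H ∧ ∃ e, r ≤ (g10_ln S i Q e l).card
  · obtain ⟨hlH, e, he⟩ := Nat.find_spec h
    have hmin := fun m (hm : m < Nat.find h) => Nat.find_min h hm
    generalize Nat.find h = l at hlH he hmin
    have hl1 : 1 ≤ l := by
      rcases Nat.eq_zero_or_pos l with h0 | h0
      · subst h0
        rw [g10_zero S i Q hQ e, Finset.card_empty] at he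
        omega
      · exact h0
    refine ⟨l, hl1, by omega, g10_rest S i Q r q h1 h2 l hl1 ?_, ?_⟩
    · intro e'
      by_contra hcon
      exact hmin (l - 1) (by omega) ⟨by omega, e', by omega⟩
    · intro _
      obtain ⟨F, hF⟩ := g10_choose S i Q r l e he
      exact ⟨e, F, hF⟩
  · push Not at h
    refine ⟨H + 1, by omega, le_refl _, g10_rest S i Q r q h1 h2 (H + 1) (by omega) ?_, ?_⟩
    · intro e'
      exact h H (le_refl H) e'
    · intro hcon
      omega

end Pool.Agent.H13.FG
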