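import Pool.Agent.H13.FG.GStm

/-!
# MP_4c8b8e_co: geometry of the bipyramid, polar routes
-/

set_option autoImplicit false

open scoped BigOperators

namespace Pool.Agent.H13.FG

open Classical Pool.Agent.H3.FF CV TV

/-- the numerical part -/
theorem g21_num {r H D z M K : ℕ} {C3 k C : ℝ} (hr0 : 2 ≤ r) (hr2 : r * r ≤ H)
    (hr3 : H < (r + 1) * (r + 1)) (hC3 : 0 < C3)
    (hC : C = 16 * M * C3 + (K + 5) * M) (hCk : C ≤ k * r) (hz : (z : ℝ) ≤ C3 * H)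
    (hD : r * D ≤ 4 * M * z + (K + 5) * r ^ 2 * M) (hk : 0 < k) : (D : ℝ) ≤ k * H := by
  have h1 : H ≤ 4 * (r * r) := by nlinarith
  have h1' : (H : ℝ) ≤ 4 * (r * r) := by exact_mod_cast h1
  have h2 : (r : ℝ) * D ≤ 4 * M * z + (K + 5) * r ^ 2 * M := by exact_mod_cast hD
  have hr : (2 : ℝ) ≤ r := by exact_mod_cast hr0
  have hrpos : (0 : ℝ) < r := by linarith
  have hM : (0 : ℝ) ≤ M := Nat.cast_nonneg M
  have h3 : (4 : ℝ) * M * z ≤ 16 * M * C3 * r ^ 2 := by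
    have h4 : (z : ℝ) ≤ C3 * (4 * (r * r)) := hz.trans (mul_le_mul_of_nonneg_left h1' hC3.le)
    have h5 : (4 : ℝ) * M * z ≤ 4 * M * (C3 * (4 * (r * r))) :=
      mul_le_mul_of_nonneg_left h4 (by positivity)
    calc (4 : ℝ) * M * z ≤ 4 * M * (C3 * (4 * (r * r))) := h5
      _ = 16 * M * C3 * r ^ 2 := by ring
  have h6 : (r : ℝ) * D ≤ r * (C * r) := by
    calc (r : ℝ) * D ≤ 16 * M * C3 * r ^ 2 + (K + 5) * r ^ 2 * M := by linarith
      _ = r * (C * r) := by rw [hC]; ring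
  have h7 : (D : ℝ) ≤ C * r := le_of_mul_le_mul_left h6 hrpos
  have h8 : (r : ℝ) * r ≤ H := by exact_mod_cast hr2
  calc (D : ℝ) ≤ C * r := h7
    _ ≤ k * r * r := mul_le_mul_of_nonneg_right hCk hrpos.le
    _ = k * (r * r) := by ring
    _ ≤ k * H := mul_le_mul_of_nonneg_left h8 hk.le

/-- FIRE-G21. Polar routes. -/
theorem spolar (h1 : SSq) (h11 : SBall) (h14 : SRouteN) (h15 : SRouteS) : SPolar := by
  intro K _ hK e C3 k he hC3 hk r0
  obtain ⟨M, hM⟩ : ∃ M : ℕ, M = (K + 7) ^ r0 := ⟨_, rfl⟩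
  obtain ⟨C, hC⟩ : ∃ C : ℝ, C = 16 * M * C3 + (K + 5) * M := ⟨_, rfl⟩
  obtain ⟨N, hN⟩ := exists_nat_ge (max 2 (max (((K : ℝ) + 6) / e) (C / k)))
  have hN2 : (2 : ℝ) ≤ N := (le_max_left _ _).trans hN
  have hNe : ((K : ℝ) + 6) / e ≤ N := ((le_max_left _ _).trans (le_max_right _ _)).trans hN
  have hNk : C / k ≤ N := ((le_max_right _ _).trans (le_max_right _ _)).trans hN
  refine ⟨N ^ 2, fun H hH Z hZ f g => ?_⟩
  obtain ⟨r, hr⟩ : ∃ r : ℕ, r = Nat.sqrt H := ⟨_, rfl⟩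
  have hNr : N ≤ r := by rw [hr]; exact Nat.le_sqrt'.2 hH
  have hr2 : r * r ≤ H := by rw [hr]; exact Nat.sqrt_le H
  have hr3 : H < (r + 1) * (r + 1) := by rw [hr]; exact Nat.lt_succ_sqrt H
  have hNrR : (N : ℝ) ≤ r := by exact_mod_cast hNr
  have hr0 : 2 ≤ r := by exact_mod_cast hN2.trans hNrR
  have h2r : 2 * r ≤ H := by nlinarith
  have hH1 : 1 ≤ H := by omega
  have hrpos : (0 : ℝ) < r := by linarith
  have h8 : (r : ℝ) * r ≤ H := by exact_mod_cast hr2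
  have hCk : C ≤ k * r := by
    have h2 := (div_le_iff₀ hk).1 (hNk.trans hNrR)
    linarith
  have heK : ((K : ℝ) + 6) * r ≤ e * H := by
    have h2 := (div_le_iff₀ he).1 (hNe.trans hNrR)
    calc ((K : ℝ) + 6) * r ≤ (r * e) * r := mul_le_mul_of_nonneg_right h2 hrpos.le
      _ = e * (r * r) := by ring
      _ ≤ e * H := mul_le_mul_of_nonneg_left h8 he.le
  have hb : ∀ z : TV K H, ((Finset.univ : Finset (TV K H)).filter
      (fun f => Nr r0 z f)).card ≤ M := by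
    rw [hM]
    exact fun z => h11 K H hK z r0
  obtain ⟨s1, -, -, -, -, -, -, s8, -⟩ := h1 K H hK hH1
  obtain ⟨i, x, y, hx, hy, hf⟩ := s1 f
  obtain ⟨i', x', y', hx', hy', hg⟩ := s1 g
  have hlf : lev f = x + y := by rw [← hf]; exact s8 i x y hx hy
  have hlg : lev g = x' + y' := by rw [← hg]; exact s8 i' x' y' hx' hy'
  by_cases hc : lev f + lev g ≤ 2 * H
  · obtain ⟨w, n, hw, hw0, hwn, hn, hd⟩ := h14 K H hK Z r0 M hb i i' x y x' y' r hx hy hx' hy'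
      (by omega) h2r
    refine ⟨w, n, hw, hw0.trans hf, hwn.trans hg, ?_, g21_num hr0 hr2 hr3 hC3 hC hCk hZ hd hk⟩
    have h3 : (n : ℝ) ≤ (lev f : ℝ) + lev g + (K + 6) * r := by
      rw [hlf, hlg]
      exact_mod_cast hn
    have h4 : (lev f : ℝ) + lev g ≤ 2 * H := by exact_mod_cast hc
    rw [min_eq_left (by linarith)]
    linarith
  · obtain ⟨w, n, hw, hw0, hwn, hn, hd⟩ := h15 K H hK Z r0 M hb i i' x y x' y' r hx hy hx' hy'
      (by omega) h2r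
    refine ⟨w, n, hw, hw0.trans hf, hwn.trans hg, ?_, g21_num hr0 hr2 hr3 hC3 hC hCk hZ hd hk⟩
    have h3 : (n : ℝ) + lev f + lev g ≤ 4 * H + (K + 6) * r := by
      rw [hlf, hlg]
      exact_mod_cast hn
    have h4 : (2 * H : ℝ) ≤ lev f + lev g := by exact_mod_cast (not_le.1 hc).le
    rw [min_eq_right (by linarith)]
    linarith

end Pool.Agent.H13.FG
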