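import Pool.Agent.H13.FG.GStm
import Pool.Agent.H13.FG.Good

/-!
# MP_4c8b8e_co: points with the label of a good sector near the apices
-/

set_option autoImplicit false

open scoped BigOperators

namespace Pool.Agent.H13.FG

open Classical Pool.Agent.H3.FF CV TV

theorem g22_sumd {K H : ℕ} [NeZero K] (S : Finset (TV K H)) (i : ZMod K) (F : Finset ℕ)
    (hF : F ⊆ Finset.Ioo 0 (2 * H)) : ∑ s ∈ F, cd S i s ≤ es S i := by
  have h1 : ∑ s ∈ F, cd S i s ≤ ∑ s ∈ Finset.Ioo 0 (2 * H), cd S i s :=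
    Finset.sum_le_sum_of_subset hF
  unfold es
  omega

theorem spole (h : SSq) : SPole := by
  intro K H _ hK B hB d S g hH he hL
  have hd3 : d + 3 ≤ H := by omega
  obtain ⟨o, ho, hu, hc⟩ := sgood h K H hK B hB g d he hd3
  obtain rfl := hu _ hL
  obtain ⟨-, -, -, -, -, -, hinj, hlev, -⟩ := h K H hK (by omega)
  -- lines near `N`
  obtain ⟨s, hs, h1⟩ := g4_pick (Finset.Icc (d + 2) (2 * d + 3)) (fun s => cd (un B) g s)
    (g22_sumd (un B) g _ (by
      intro s hs
      rw [Finset.mem_Icc] at hs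
      rw [Finset.mem_Ioo]
      omega)) he (by rw [Nat.card_Icc]; omega)
  rw [Finset.mem_Icc] at hs
  have e1 := hL.d s hs.1 (by omega) h1 0 (Nat.zero_le _) s (by omega) (Nat.zero_add s)
  -- lines near `S`
  obtain ⟨s', hs', h2⟩ := g4_pick (Finset.Icc (2 * H - (2 * d + 3)) (2 * H - (d + 2)))
    (fun s => cd (un B) g s)
    (g22_sumd (un B) g _ (by
      intro s hs
      rw [Finset.mem_Icc] at hs
      rw [Finset.mem_Ioo]
      omega)) he (by rw [Nat.card_Icc]; omega)
  rw [Finset.mem_Icc] at hs'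
  have e2 := hL.d s' (by omega) (by omega) h2 (s' - H) (by omega) H le_rfl (by omega)
  refine ⟨e1.1, ⟨_, e1.2, ?_⟩, ⟨_, e2.2, ?_⟩, ?_⟩
  · rw [hlev g 0 s (Nat.zero_le _) (by omega)]
    omega
  · rw [hlev g (s' - H) H (by omega) le_rfl]
    omega
  · set P := Finset.range (H + 1) ×ˢ Finset.range (H + 1) with hP
    have h3 := Finset.card_filter_add_card_filter_not (s := P)
      (fun p : ℕ × ℕ => Has B (some S) (sq g p.1 p.2 : TV K H))
    have h4 : P.card = (H + 1) ^ 2 := by
      rw [hP, Finset.card_product, Finset.card_range, pow_two]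
    have h5 : (P.filter (fun p : ℕ × ℕ => Has B (some S) (sq g p.1 p.2 : TV K H))).card ≤
        S.card := by
      refine Finset.card_le_card_of_injOn (fun p : ℕ × ℕ => (sq g p.1 p.2 : TV K H)) ?_ ?_
      · intro p hp
        rw [Finset.mem_coe, Finset.mem_filter] at hp
        exact hp.2.2
      · rintro ⟨x, y⟩ hp ⟨x', y'⟩ hp' hxy
        rw [Finset.mem_coe, Finset.mem_filter, hP, Finset.mem_product, Finset.mem_range,
          Finset.mem_range] at hp hp'
        obtain ⟨rfl, rfl⟩ := hinj g x y x' y' (Nat.lt_succ_iff.1 hp.1.1)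
          (Nat.lt_succ_iff.1 hp.1.2) (Nat.lt_succ_iff.1 hp'.1.1) (Nat.lt_succ_iff.1 hp'.1.2) hxy
        rfl
    have h6 : (es (un B) g + 2) ^ 2 ≤ (d + 2) ^ 2 := Nat.pow_le_pow_left (by omega) 2
    omega

end Pool.Agent.H13.FG
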