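import Pool.Agent.H13.FG.GStm

/-!
# MP_4c8b8e_co: geometry of the bipyramid, the members with short cuts are small together
-/

set_option autoImplicit false

open scoped BigOperators

namespace Pool.Agent.H13.FG

open Classical Pool.Agent.H3.FF CV TV

/-- the sum of the cuts of the other members -/
private theorem g27_sum (h17 : SCutU) {K H : ℕ} [NeZero K] {B : Finset (Finset (TV K H))}
    (hB : Apart B) {S : Finset (TV K H)} {m : ℕ} (hS : S ∈ B) (hc : cut (un B) ≤ cut S + m) :
    ∑ T ∈ B.erase S, cut T ≤ m := by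
  have h1 := h17 K H B hB
  have h2 := Finset.add_sum_erase B (fun T => cut T) hS
  omega

/-- two different members are disjoint -/
private theorem g27_disj {K H : ℕ} [NeZero K] {B : Finset (Finset (TV K H))}
    (hB : Apart B) {S T : Finset (TV K H)} (hS : S ∈ B) (hT : T ∈ B) (hne : T ≠ S) :
    S ⊆ Tᶜ := by
  intro f hf
  rw [Finset.mem_compl]
  intro hf'
  exact hne (hB T hT S hS f hf' f hf (Or.inl rfl))

/-- one member -/
private theorem g27_one (h16 : SIso0) (h19 : SConn) {K H : ℕ} [NeZero K] (hK : 4 ∣ K)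
    {B : Finset (Finset (TV K H))} (hB : Apart B) {S T : Finset (TV K H)} {m : ℕ}
    (hS : S ∈ B) (hne : S.Nonempty) (hH : 3 * m + 6 ≤ H) (hcard : m ^ 2 + 4 * m + 4 * K < S.card)
    (hT : T ∈ B) (hTS : T ≠ S) (hcT : cut T ≤ m) :
    T.card ≤ cut T * m + 4 * cut T + 4 * K * cut T := by
  have hK4 : 4 ≤ K := Nat.le_of_dvd (Nat.pos_of_ne_zero (NeZero.ne K)) hK
  rcases T.eq_empty_or_nonempty with h0 | h0
  · subst h0
    simp
  · have hsub := g27_disj hB hS hT hTS
    have hT1 : T ≠ Finset.univ := by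
      intro h
      obtain ⟨f, hf⟩ := hne
      have := hsub hf
      rw [h] at this
      simp at this
    have he := h19 K H hK4 T h0 hT1
    have hsq : cut T ^ 2 ≤ cut T * m := by
      rw [pow_two]
      exact Nat.mul_le_mul_left _ hcT
    have hsq' : cut T ^ 2 ≤ m ^ 2 := Nat.pow_le_pow_left hcT 2
    have hK' : 4 * K ≤ 4 * K * cut T := Nat.le_mul_of_pos_right _ he
    rcases h16 K H hK T (by omega) with h | h
    · omega
    · have h2 := Finset.card_le_card hsub
      omega

theorem srest (h16 : SIso0) (h17 : SCutU) (h19 : SConn) : SRest := by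
  intro K H _ hK B hB S m hS hne hc hH hcard
  have hsum := g27_sum h17 hB hS hc
  have hsub : un B \ S ⊆ (B.erase S).biUnion id := by
    intro f hf
    rw [Finset.mem_sdiff] at hf
    obtain ⟨h1, h2⟩ := hf
    unfold un at h1
    rw [Finset.mem_biUnion] at h1 ⊢
    obtain ⟨T, hT, hfT⟩ := h1
    refine ⟨T, Finset.mem_erase.2 ⟨?_, hT⟩, hfT⟩
    intro h
    subst h
    exact h2 hfT
  have hle : ∀ T ∈ B.erase S, T.card ≤ cut T * m + 4 * cut T + 4 * K * cut T := by
    intro T hT
    have hT' := Finset.mem_erase.1 hT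
    refine g27_one h16 h19 hK hB hS hne hH hcard hT'.2 hT'.1 ?_
    exact le_trans (Finset.single_le_sum (f := fun T => cut T) (fun _ _ => Nat.zero_le _) hT) hsum
  calc (un B \ S).card ≤ ((B.erase S).biUnion id).card := Finset.card_le_card hsub
    _ ≤ ∑ T ∈ B.erase S, (id T : Finset (TV K H)).card := Finset.card_biUnion_le
    _ ≤ ∑ T ∈ B.erase S, (cut T * m + 4 * cut T + 4 * K * cut T) :=
        Finset.sum_le_sum (fun T hT => hle T hT)
    _ = (∑ T ∈ B.erase S, cut T) * m + 4 * (∑ T ∈ B.erase S, cut T) +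
          4 * K * (∑ T ∈ B.erase S, cut T) := by
        rw [Finset.sum_add_distrib, Finset.sum_add_distrib, ← Finset.sum_mul, ← Finset.mul_sum,
          ← Finset.mul_sum]
    _ ≤ m ^ 2 + 4 * m + 4 * K * m := by
        have h1 : (∑ T ∈ B.erase S, cut T) * m ≤ m ^ 2 := by
          rw [pow_two]; exact Nat.mul_le_mul_right _ hsum
        have h2 : 4 * K * (∑ T ∈ B.erase S, cut T) ≤ 4 * K * m := Nat.mul_le_mul_left _ hsum
        omega

end Pool.Agent.H13.FG
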