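import Pool.Agent.H13.FG.Basic

/-!
# MP_4c8b8e_co, FIRE-G13: routes along the arms
-/

set_option autoImplicit false

open scoped BigOperators

namespace Pool.Agent.H13.FG

open Classical Pool.Agent.H3.FF CV TV

section

private theorem g13_fin4 (e : Fin 4) : e = 0 ∨ e = 1 ∨ e = 2 ∨ e = 3 := by
  revert e; decide

/-- the arm stays inside the square -/
private theorem g13_in {H : ℕ} {e : Fin 4} {p : ℕ × ℕ} (hp : p.1 ≤ H ∧ p.2 ≤ H) {j : ℕ}
    (h : ArmOk H e p j) {t : ℕ} (ht : t ≤ j) : (arm e p t).1 ≤ H ∧ (arm e p t).2 ≤ H := by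
  obtain ⟨h1, h2⟩ := hp
  rcases g13_fin4 e with rfl | rfl | rfl | rfl <;>
    simp only [ArmOk, arm] at h ⊢ <;> simp at h ⊢ <;> omega

/-- the index is constant along the arm -/
private theorem g13_idx (e : Fin 4) (p : ℕ × ℕ) (t : ℕ) : idx e (arm e p t) = idx e p := by
  rcases g13_fin4 e with rfl | rfl | rfl | rfl <;> simp [idx, arm]

/-- steps of the arm -/
private theorem g13_step {K H : ℕ} [NeZero K] (h1 : SSq) (hK : 4 ≤ K) (i : ZMod K) {e : Fin 4}
    {p : ℕ × ℕ} (hp : p.1 ≤ H ∧ p.2 ≤ H) {j : ℕ} (h : ArmOk H e p j) {t : ℕ} (ht : t < j) :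
    AdE (sq i (arm e p t).1 (arm e p t).2 : TV K H)
      (sq i (arm e p (t + 1)).1 (arm e p (t + 1)).2) := by
  obtain ⟨hp1, hp2⟩ := hp
  right
  rcases g13_fin4 e with rfl | rfl | rfl | rfl
  · have h' : p.1 + j ≤ H := by simpa [ArmOk] using h
    have hH : 1 ≤ H := by omega
    obtain ⟨-, hx, -⟩ := h1 K H hK hH
    have := hx i (p.1 + t) p.2 (by omega) hp2
    simpa [arm, add_assoc] using this
  · have h' : j ≤ p.1 := by simpa [ArmOk] using h
    have hH : 1 ≤ H := by omega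
    obtain ⟨-, hx, -⟩ := h1 K H hK hH
    have := hx i (p.1 - (t + 1)) p.2 (by omega) hp2
    have e1 : p.1 - (t + 1) + 1 = p.1 - t := by omega
    rw [e1] at this
    simpa [arm] using ad_symm this
  · have h' : p.2 + j ≤ H := by simpa [ArmOk] using h
    have hH : 1 ≤ H := by omega
    obtain ⟨-, -, hy, -⟩ := h1 K H hK hH
    have := hy i p.1 (p.2 + t) hp1 (by omega)
    simpa [arm, add_assoc] using this
  · have h' : j ≤ p.2 := by simpa [ArmOk] using h
    have hH : 1 ≤ H := by omega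
    obtain ⟨-, -, hy, -⟩ := h1 K H hK hH
    have := hy i p.1 (p.2 - (t + 1)) hp1 (by omega)
    have e1 : p.2 - (t + 1) + 1 = p.2 - t := by omega
    rw [e1] at this
    simpa [arm] using ad_symm this

/-- a point determines the index of its line -/
private theorem g13_inj {K H : ℕ} [NeZero K] (h1 : SSq) (hK : 4 ≤ K) (i : ZMod K) (e : Fin 4)
    {a b : ℕ × ℕ} (ha : a.1 ≤ H ∧ a.2 ≤ H) (hb : b.1 ≤ H ∧ b.2 ≤ H)
    (h : (sq i a.1 a.2 : TV K H) = sq i b.1 b.2) : idx e a = idx e b := by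
  by_cases hH : 1 ≤ H
  · obtain ⟨-, -, -, -, -, -, hinj, -⟩ := h1 K H hK hH
    obtain ⟨h2, h3⟩ := hinj i a.1 a.2 b.1 b.2 ha.1 ha.2 hb.1 hb.2 h
    have : a = b := Prod.ext h2 h3
    rw [this]
  · have : a = b := Prod.ext (by omega) (by omega)
    rw [this]

end

theorem sroute1 (h1 : SSq) (h12 : SAvg) : SRoute1 := by
  intro K H _ hK Z r0 M hM S i e F l r hr hF hinj hsq harm
  have hj : ∀ p : ℕ × ℕ, ∃ j : ℕ, p ∈ F →
      j ≤ l ∧ ArmOk H e p j ∧ sq i (arm e p j).1 (arm e p j).2 ∈ S := by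
    intro p
    by_cases hp : p ∈ F
    · obtain ⟨j, h⟩ := harm p hp
      exact ⟨j, fun _ => h⟩
    · exact ⟨0, fun h => absurd h hp⟩
  choose j hj using hj
  let w : ℕ × ℕ → ℕ → TV K H := fun p t => sq i (arm e p t).1 (arm e p t).2
  let A : ℕ → Set (TV K H) := fun k => {f | ∃ p ∈ F, idx e p = k ∧ f ∈ trace (w p) (j p)}
  have hA : ∀ f : TV K H, ((F.image (idx e)).filter (fun k => f ∈ A k)).card ≤ 1 := by
    intro f
    rw [Finset.card_le_one]
    intro a ha b hb
    rw [Finset.mem_filter] at ha hb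
    obtain ⟨-, p, hpF, hpa, t, ht, hft⟩ := ha
    obtain ⟨-, q, hqF, hqb, s, hs, hfs⟩ := hb
    have h2 : (sq i (arm e p t).1 (arm e p t).2 : TV K H)
        = sq i (arm e q s).1 (arm e q s).2 := by
      have h3 : w p t = w q s := by rw [hft, hfs]
      exact h3
    have h4 := g13_inj h1 hK i e (g13_in (hsq p hpF) (hj p hpF).2.1 ht)
      (g13_in (hsq q hqF) (hj q hqF).2.1 hs) h2
    rw [g13_idx, g13_idx] at h4
    rw [← hpa, ← hqb, h4]
  have havg := h12 K H Z r0 M hM A (F.image (idx e)) 1 (fun f => by convert hA f)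
  rw [Finset.sum_image (fun x hx y hy h => hinj hx hy h)] at havg
  have hsum : ∑ p ∈ F, dust Z r0 (trace (w p) (j p)) ≤ M * Z.card := by
    calc ∑ p ∈ F, dust Z r0 (trace (w p) (j p)) ≤ ∑ p ∈ F, dust Z r0 (A (idx e p)) := by
          refine Finset.sum_le_sum (fun p hp => dust_mono Z r0 ?_)
          intro f hf
          exact ⟨p, hp, rfl, hf⟩
      _ ≤ 1 * M * Z.card := havg
      _ = M * Z.card := by ring
  have hne : F.Nonempty := by
    rw [← Finset.card_pos]
    omega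
  obtain ⟨p, hpF, hmin⟩ := F.exists_min_image (fun p => dust Z r0 (trace (w p) (j p))) hne
  refine ⟨p, hpF, w p, j p, (hj p hpF).1, ?_, ?_, (hj p hpF).2.2, ?_⟩
  · intro t ht
    exact g13_step h1 hK i (hsq p hpF) (hj p hpF).2.1 ht
  · show (sq i (arm e p 0).1 (arm e p 0).2 : TV K H) = sq i p.1 p.2
    have h0 : arm e p 0 = p := by
      rcases g13_fin4 e with rfl | rfl | rfl | rfl <;> simp [arm]
    rw [h0]
  · have h5 := Finset.card_nsmul_le_sum F (fun q => dust Z r0 (trace (w q) (j q)))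
      (dust Z r0 (trace (w p) (j p))) (fun q hq => hmin q hq)
    rw [hF, smul_eq_mul] at h5
    exact h5.trans hsum

end Pool.Agent.H13.FG
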