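import Pool.Agent.H13.FG.Basic

/-!
# MP_4c8b8e_co, FIRE-G14: polar routes via the apex `N`
-/

set_option autoImplicit false

open scoped BigOperators

namespace Pool.Agent.H13.FG

open Classical Pool.Agent.H3.FF CV TV

section

variable {K H : ℕ} [NeZero K]

/-- a straight walk along a sequence of points -/
theorem g14_seg {p : ℕ → TV K H} {m : ℕ} (hp : ∀ t < m, AdE (p t) (p (t + 1))) {a b : ℕ}
    (ha : a ≤ m) (hb : b ≤ m) : ∃ (w : ℕ → TV K H) (n : ℕ), Wk w n ∧ w 0 = p a ∧ w n = p b ∧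
      n = (b - a) + (a - b) ∧ trace w n ⊆ {f | ∃ t ≤ m, f = p t} := by
  have key : ∀ a b : ℕ, a ≤ b → b ≤ m → ∃ w : ℕ → TV K H, Wk w (b - a) ∧ w 0 = p a ∧
      w (b - a) = p b ∧ trace w (b - a) ⊆ {f | ∃ t ≤ m, f = p t} := by
    intro a b hab hbm
    refine ⟨fun t => p (a + t), ?_, rfl, ?_, ?_⟩
    · intro t ht
      exact hp (a + t) (by omega)
    · show p (a + (b - a)) = p b
      congr 1
      omega
    · rintro f ⟨t, ht, rfl⟩
      exact ⟨a + t, by omega, rfl⟩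
  rcases le_total a b with hab | hab
  · obtain ⟨w, h1, h2, h3, h4⟩ := key a b hab hb
    exact ⟨w, b - a, h1, h2, h3, by omega, h4⟩
  · obtain ⟨w, h1, h2, h3, h4⟩ := key b a hab ha
    obtain ⟨u, k1, k2, k3, k4⟩ := wk_rev h1
    exact ⟨u, a - b, k1, by rw [k2, h3], by rw [k3, h2], by omega, by rw [k4]; exact h4⟩

/-- the points of the line `y = c` of the sector `i` -/
def g14LX (K H : ℕ) [NeZero K] (i : ZMod K) (c : ℕ) : Set (TV K H) := {f | ∃ t ≤ H, f = sq i t c}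

/-- the points of the line `x = c` of the sector `i` -/
def g14LY (K H : ℕ) [NeZero K] (i : ZMod K) (c : ℕ) : Set (TV K H) := {f | ∃ t ≤ H, f = sq i c t}

/-- walks along the line `y = c` -/
theorem g14_x (h1 : SSq) (hK : 4 ≤ K) (hH : 1 ≤ H) (i : ZMod K) {c a b : ℕ} (hc : c ≤ H)
    (ha : a ≤ H) (hb : b ≤ H) : ∃ (w : ℕ → TV K H) (n : ℕ), Wk w n ∧ w 0 = sq i a c ∧
      w n = sq i b c ∧ n = (b - a) + (a - b) ∧ trace w n ⊆ g14LX K H i c := by
  obtain ⟨_, s2, _⟩ := h1 K H hK hH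
  exact g14_seg (p := fun t => sq i t c) (fun t ht => Or.inr (s2 i t c ht hc)) ha hb

/-- walks along the line `x = c` -/
theorem g14_y (h1 : SSq) (hK : 4 ≤ K) (hH : 1 ≤ H) (i : ZMod K) {c a b : ℕ} (hc : c ≤ H)
    (ha : a ≤ H) (hb : b ≤ H) : ∃ (w : ℕ → TV K H) (n : ℕ), Wk w n ∧ w 0 = sq i c a ∧
      w n = sq i c b ∧ n = (b - a) + (a - b) ∧ trace w n ⊆ g14LY K H i c := by
  obtain ⟨_, _, s3, _⟩ := h1 K H hK hH
  exact g14_seg (p := fun t => sq i c t) (fun t ht => Or.inr (s3 i c t hc ht)) ha hb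

/-- around the apex `N` at the level `j` -/
theorem g14_ring (h1 : SSq) (hK : 4 ≤ K) (hH : 1 ≤ H) (i : ZMod K) {j : ℕ} (hj : j ≤ H)
    (k : ℕ) : ∃ (w : ℕ → TV K H), Wk w (k * j) ∧ w 0 = sq i j 0 ∧
      w (k * j) = sq (i + (k : ZMod K)) j 0 := by
  obtain ⟨_, _, _, s4, s5, _⟩ := h1 K H hK hH
  induction k with
  | zero =>
    refine ⟨fun _ => sq i j 0, ?_, rfl, ?_⟩
    · intro t ht
      omega
    · simp
  | succ k ih =>
    obtain ⟨w, a1, a2, a3⟩ := ih
    have hb : ∀ t < j, AdE (sq (i + (k : ZMod K)) (j - t) t : TV K H)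
        (sq (i + (k : ZMod K)) (j - (t + 1)) (t + 1)) := by
      intro t ht
      have h := s4 (i + (k : ZMod K)) (j - (t + 1)) t (by omega) (by omega)
      have e : j - (t + 1) + 1 = j - t := by omega
      rw [e] at h
      exact Or.inr h
    obtain ⟨w', n', b1, b2, b3, b4, _⟩ := g14_seg (m := j)
      (p := fun t => (sq (i + (k : ZMod K)) (j - t) t : TV K H)) hb (Nat.zero_le j) le_rfl
    have hn : n' = j := by omega
    subst hn
    obtain ⟨u, c1, c2, c3, _⟩ := wk_append a1 b1 (by rw [a3, b2]; simp)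
    refine ⟨u, ?_, by rw [c2, a2], ?_⟩
    · rw [Nat.succ_mul]
      exact c1
    · rw [Nat.succ_mul, c3, b3]
      have e : (sq (i + (k : ZMod K)) (n' - n') n' : TV K H) = sq (i + (k : ZMod K)) 0 n' := by
        rw [Nat.sub_self]
      rw [e, s5 _ _ hj]
      congr 1
      push_cast
      ring

/-- the parallel track -/
def g14v (y j : ℕ) : ℕ := if j ≤ y then y - j else y + j

theorem g14v_inj {y j j' : ℕ} (hj : 1 ≤ j) (hj' : 1 ≤ j') (h : g14v y j = g14v y j') :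
    j = j' := by
  unfold g14v at h
  split_ifs at h <;> omega

theorem g14v_le {H y j r : ℕ} (hy : y ≤ H) (hj : j ≤ r) (hr : 2 * r ≤ H) : g14v y j ≤ H := by
  unfold g14v
  split_ifs <;> omega

theorem g14v_le' (y j : ℕ) : g14v y j ≤ y + j := by
  unfold g14v
  split_ifs <;> omega

theorem g14v_dist (y j : ℕ) : (g14v y j - y) + (y - g14v y j) = j := by
  unfold g14v
  split_ifs <;> omega

/-- half of the route -/
theorem g14_half (h1 : SSq) (hK : 4 ≤ K) (Z : Finset (TV K H)) (r0 M : ℕ)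
    (hM : ∀ z : TV K H, ((Finset.univ : Finset (TV K H)).filter (fun f => Nr r0 z f)).card ≤ M)
    (i : ZMod K) {x y r j : ℕ} (hx : x ≤ H) (hy : y ≤ H) (hj1 : 1 ≤ j) (hj : j ≤ r)
    (hr : 2 * r ≤ H) : ∃ (w : ℕ → TV K H) (n : ℕ), Wk w n ∧ w 0 = sq i x y ∧ w n = sq i j 0 ∧
      n ≤ x + y + 3 * j ∧ dust Z r0 (trace w n) ≤
        (j + 1) * M + dust Z r0 (g14LX K H i (g14v y j)) + dust Z r0 (g14LY K H i j) := by
  have hH : 1 ≤ H := by omega
  have hv : g14v y j ≤ H := g14v_le hy hj hr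
  have hv' := g14v_le' y j
  have hd := g14v_dist y j
  obtain ⟨w1, n1, a1, a2, a3, a4, _⟩ := g14_y h1 hK hH i hx hy hv
  obtain ⟨w2, n2, b1, b2, b3, b4, b5⟩ := g14_x (c := g14v y j) (a := x) (b := j) h1 hK hH i hv hx
    (by omega)
  obtain ⟨w3, n3, c1, c2, c3, c4, c5⟩ := g14_y (c := j) (a := g14v y j) (b := 0) h1 hK hH i
    (by omega) hv (Nat.zero_le H)
  have hn1 : n1 = j := by omega
  subst hn1
  obtain ⟨u, d1, d2, d3, d4⟩ := wk_append a1 b1 (by rw [a3, b2])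
  obtain ⟨u', e1, e2, e3, e4⟩ := wk_append d1 c1 (by rw [d3, b3, c2])
  refine ⟨u', n1 + n2 + n3, e1, by rw [e2, d2, a2], by rw [e3, c3], by omega, ?_⟩
  rw [e4, d4]
  have f1 := dust_union Z r0 (trace w1 n1 ∪ trace w2 n2) (trace w3 n3)
  have f2 := dust_union Z r0 (trace w1 n1) (trace w2 n2)
  have f3 := dust_trace Z r0 M hM w1 n1
  have f4 := dust_mono Z r0 b5
  have f5 := dust_mono Z r0 c5
  omega

/-- disjoint families have little dust -/
theorem g14_sum (h12 : SAvg) (Z : Finset (TV K H)) (r0 M : ℕ)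
    (hM : ∀ z : TV K H, ((Finset.univ : Finset (TV K H)).filter (fun f => Nr r0 z f)).card ≤ M)
    (r : ℕ) (A : ℕ → Set (TV K H))
    (hA : ∀ f : TV K H, ∀ j, 1 ≤ j → j ≤ r → ∀ j', 1 ≤ j' → j' ≤ r → f ∈ A j → f ∈ A j' →
      j = j') : ∑ j ∈ Finset.Icc 1 r, dust Z r0 (A j) ≤ M * Z.card := by
  have h := h12 K H Z r0 M hM A (Finset.Icc 1 r) 1 (by
    intro f
    rw [Finset.card_le_one]
    intro a ha b hb
    rw [Finset.mem_filter, Finset.mem_Icc] at ha hb
    exact hA f a ha.1.1 ha.1.2 b hb.1.1 hb.1.2 ha.2 hb.2)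
  rwa [one_mul] at h

end

/-- Row FIRE-G14: polar routes via `N`. -/
theorem srouteN (h1 : SSq) (h12 : SAvg) : SRouteN := by
  intro K H _ hK Z r0 M hM i i' x y x' y' r hx hy hx' hy' hr1 hr
  have hH : 1 ≤ H := by omega
  obtain ⟨_, _, _, _, _, _, s7, _⟩ := h1 K H hK hH
  -- the four families
  have hX : ∀ (i : ZMod K) (y : ℕ), y ≤ H →
      ∑ j ∈ Finset.Icc 1 r, dust Z r0 (g14LX K H i (g14v y j)) ≤ M * Z.card := by
    intro i y hy
    refine g14_sum h12 Z r0 M hM r (fun j => g14LX K H i (g14v y j)) ?_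
    rintro f j hj1 hj2 j' hj1' hj2' ⟨t, ht, e⟩ ⟨t', ht', e'⟩
    have h := (s7 i t (g14v y j) t' (g14v y j') ht (g14v_le hy hj2 hr) ht' (g14v_le hy hj2' hr)
      (e.symm.trans e')).2
    exact g14v_inj hj1 hj1' h
  have hY : ∀ i : ZMod K,
      ∑ j ∈ Finset.Icc 1 r, dust Z r0 (g14LY K H i j) ≤ M * Z.card := by
    intro i
    refine g14_sum h12 Z r0 M hM r (fun j => g14LY K H i j) ?_
    rintro f j hj1 hj2 j' hj1' hj2' ⟨t, ht, e⟩ ⟨t', ht', e'⟩
    exact (s7 i j t j' t' (by omega) ht (by omega) ht' (e.symm.trans e')).1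
  -- the choice of `j`
  have hj : ∃ j ∈ Finset.Icc 1 r, r * (dust Z r0 (g14LX K H i (g14v y j)) +
      dust Z r0 (g14LY K H i j) + dust Z r0 (g14LX K H i' (g14v y' j)) +
      dust Z r0 (g14LY K H i' j)) ≤ 4 * M * Z.card := by
    by_contra hcon
    push Not at hcon
    have e1 : ∑ j ∈ Finset.Icc 1 r, (4 * M * Z.card) <
        ∑ j ∈ Finset.Icc 1 r, r * (dust Z r0 (g14LX K H i (g14v y j)) +
          dust Z r0 (g14LY K H i j) + dust Z r0 (g14LX K H i' (g14v y' j)) +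
          dust Z r0 (g14LY K H i' j)) :=
      Finset.sum_lt_sum_of_nonempty ⟨1, by rw [Finset.mem_Icc]; omega⟩ hcon
    rw [Finset.sum_const, smul_eq_mul, Nat.card_Icc, Nat.add_sub_cancel, ← Finset.mul_sum,
      Finset.sum_add_distrib, Finset.sum_add_distrib, Finset.sum_add_distrib] at e1
    have e2 := hX i y hy
    have e3 := hX i' y' hy'
    have e4 := hY i
    have e5 := hY i'
    have e6 : 4 * M * Z.card < _ := lt_of_mul_lt_mul_left e1 (Nat.zero_le r)
    have e7 : 4 * M * Z.card = 4 * (M * Z.card) := by ring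
    rw [e7] at e6
    omega
  obtain ⟨j, hjm, hjs⟩ := hj
  rw [Finset.mem_Icc] at hjm
  obtain ⟨w1, n1, a1, a2, a3, a4, a5⟩ := g14_half h1 hK Z r0 M hM i hx hy hjm.1 hjm.2 hr
  obtain ⟨w2, n2, b1, b2, b3, b4, b5⟩ := g14_half h1 hK Z r0 M hM i' hx' hy' hjm.1 hjm.2 hr
  obtain ⟨w3, c1, c2, c3⟩ := g14_ring h1 hK hH i (j := j) (by omega) ((i' - i).val)
  obtain ⟨w2', d1, d2, d3, d4⟩ := wk_rev b1
  have hi : i + (((i' - i).val : ℕ) : ZMod K) = i' := by
    rw [ZMod.natCast_zmod_val]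
    ring
  obtain ⟨u, e1, e2, e3, e4⟩ := wk_append a1 c1 (by rw [a3, c2])
  obtain ⟨u', f1, f2, f3, f4⟩ := wk_append e1 d1 (by rw [e3, c3, hi, d2, b3])
  have hval : (i' - i).val < K := ZMod.val_lt _
  have hm1 : (i' - i).val * j ≤ K * j := Nat.mul_le_mul_right j hval.le
  have hm2 : K * j ≤ K * r := Nat.mul_le_mul_left K hjm.2
  refine ⟨u', n1 + (i' - i).val * j + n2, f1, by rw [f2, e2, a2], by rw [f3, d3, b2], ?_, ?_⟩
  · have : (K + 6) * r = K * r + 6 * r := by ring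
    omega
  · rw [f4, e4, d4]
    have g1 := dust_union Z r0 (trace w1 n1 ∪ trace w3 ((i' - i).val * j)) (trace w2 n2)
    have g2 := dust_union Z r0 (trace w1 n1) (trace w3 ((i' - i).val * j))
    have g3 := dust_trace Z r0 M hM w3 ((i' - i).val * j)
    set D := dust Z r0 (g14LX K H i (g14v y j)) +
      dust Z r0 (g14LY K H i j) + dust Z r0 (g14LX K H i' (g14v y' j)) +
      dust Z r0 (g14LY K H i' j) with hD
    have g4 : dust Z r0 (trace w1 n1 ∪ trace w3 ((i' - i).val * j) ∪ trace w2 n2) ≤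
        (j + 1) * M + ((i' - i).val * j + 1) * M + (j + 1) * M + D := by
      omega
    have g5 : (j + 1) * M + ((i' - i).val * j + 1) * M + (j + 1) * M ≤ (K + 5) * r * M := by
      have : (j + 1) * M + ((i' - i).val * j + 1) * M + (j + 1) * M =
          ((j + 1) + ((i' - i).val * j + 1) + (j + 1)) * M := by ring
      rw [this]
      refine Nat.mul_le_mul_right M ?_
      have : (K + 5) * r = K * r + 5 * r := by ring
      omega
    calc r * dust Z r0 (trace w1 n1 ∪ trace w3 ((i' - i).val * j) ∪ trace w2 n2)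
        ≤ r * ((K + 5) * r * M + D) := Nat.mul_le_mul_left r (by omega)
      _ = r * D + (K + 5) * r ^ 2 * M := by ring
      _ ≤ 4 * M * Z.card + (K + 5) * r ^ 2 * M := Nat.add_le_add_right hjs _

end Pool.Agent.H13.FG
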