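import Pool.Agent.H13.FG.RouteN

/-!
# MP_4c8b8e_co, FIRE-G15: polar routes via the apex `S`
-/

set_option autoImplicit false

open scoped BigOperators

namespace Pool.Agent.H13.FG

open Classical Pool.Agent.H3.FF CV TV

section

variable {K H : ℕ} [NeZero K]

/-- around the apex `S` at the level `2 H - j` -/
theorem g15_ring (h1 : SSq) (hK : 4 ≤ K) (hH : 1 ≤ H) (i : ZMod K) {j : ℕ} (hj : j ≤ H)
    (k : ℕ) : ∃ (w : ℕ → TV K H), Wk w (k * j) ∧ w 0 = sq i (H - j) H ∧
      w (k * j) = sq (i + (k : ZMod K)) (H - j) H := by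
  obtain ⟨_, _, _, s4, _, s6, _⟩ := h1 K H hK hH
  induction k with
  | zero =>
    refine ⟨fun _ => sq i (H - j) H, ?_, rfl, ?_⟩
    · intro t ht
      omega
    · simp
  | succ k ih =>
    obtain ⟨w, a1, a2, a3⟩ := ih
    have hb : ∀ t < j, AdE (sq (i + (k : ZMod K) + 1) (H - t) (H - j + t) : TV K H)
        (sq (i + (k : ZMod K) + 1) (H - (t + 1)) (H - j + (t + 1))) := by
      intro t ht
      have h := s4 (i + (k : ZMod K) + 1) (H - (t + 1)) (H - j + t) (by omega) (by omega)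
      have e : H - (t + 1) + 1 = H - t := by omega
      rw [e] at h
      exact Or.inr h
    obtain ⟨w', n', b1, b2, b3, b4, _⟩ := g14_seg (m := j)
      (p := fun t => (sq (i + (k : ZMod K) + 1) (H - t) (H - j + t) : TV K H)) hb
      (Nat.zero_le j) le_rfl
    have hn : n' = j := by omega
    subst hn
    have e0 : (sq (i + (k : ZMod K)) (H - n') H : TV K H) =
        sq (i + (k : ZMod K) + 1) H (H - n') := s6 _ _ (Nat.sub_le _ _)
    obtain ⟨u, c1, c2, c3, _⟩ := wk_append a1 b1 (by rw [a3, b2, e0]; simp)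
    refine ⟨u, ?_, by rw [c2, a2], ?_⟩
    · rw [Nat.succ_mul]
      exact c1
    · rw [Nat.succ_mul, c3, b3]
      have e : H - n' + n' = H := by omega
      have e' : i + (k : ZMod K) + 1 = i + ((k + 1 : ℕ) : ZMod K) := by
        push_cast
        ring
      simp only [e, e']

/-- half of the route -/
theorem g15_half (h1 : SSq) (hK : 4 ≤ K) (Z : Finset (TV K H)) (r0 M : ℕ)
    (hM : ∀ z : TV K H, ((Finset.univ : Finset (TV K H)).filter (fun f => Nr r0 z f)).card ≤ M)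
    (i : ZMod K) {x y r j : ℕ} (hx : x ≤ H) (hy : y ≤ H) (hj1 : 1 ≤ j) (hj : j ≤ r)
    (hr : 2 * r ≤ H) : ∃ (w : ℕ → TV K H) (n : ℕ), Wk w n ∧ w 0 = sq i x y ∧
      w n = sq i (H - j) H ∧ n + (x + y) ≤ 2 * H + 3 * j ∧ dust Z r0 (trace w n) ≤
        (j + 1) * M + dust Z r0 (g14LX K H i (g14v y j)) + dust Z r0 (g14LY K H i (H - j)) := by
  have hH : 1 ≤ H := by omega
  have hv : g14v y j ≤ H := g14v_le hy hj hr
  have hd := g14v_dist y j
  obtain ⟨w1, n1, a1, a2, a3, a4, _⟩ := g14_y h1 hK hH i hx hy hv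
  obtain ⟨w2, n2, b1, b2, b3, b4, b5⟩ := g14_x (c := g14v y j) (a := x) (b := H - j) h1 hK hH i hv
    hx (by omega)
  obtain ⟨w3, n3, c1, c2, c3, c4, c5⟩ := g14_y (c := H - j) (a := g14v y j) (b := H) h1 hK hH i
    (by omega) hv le_rfl
  have hn1 : n1 = j := by omega
  subst hn1
  obtain ⟨u, d1, d2, d3, d4⟩ := wk_append a1 b1 (by rw [a3, b2])
  obtain ⟨u', e1, e2, e3, e4⟩ := wk_append d1 c1 (by rw [d3, b3, c2])
  refine ⟨u', n1 + n2 + n3, e1, by rw [e2, d2, a2], by rw [e3, c3], by omega, ?_⟩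
  rw [e4, d4]
  have f1 := dust_union Z r0 (trace w1 n1 ∪ trace w2 n2) (trace w3 n3)
  have f2 := dust_union Z r0 (trace w1 n1) (trace w2 n2)
  have f3 := dust_trace Z r0 M hM w1 n1
  have f4 := dust_mono Z r0 b5
  have f5 := dust_mono Z r0 c5
  omega

end

/-- Row FIRE-G15: polar routes via `S`. -/
theorem srouteS (h1 : SSq) (h12 : SAvg) : SRouteS := by
  intro K H _ hK Z r0 M hM i i' x y x' y' r hx hy hx' hy' hr1 hr
  have hH : 1 ≤ H := by omega
  obtain ⟨_, _, _, _, _, _, s7, _⟩ := h1 K H hK hH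
  -- the four families
  have hX : ∀ (i : ZMod K) (y : ℕ), y ≤ H →
      ∑ j ∈ Finset.Icc 1 r, dust Z r0 (g14LX K H i (g14v y j)) ≤ M * Z.card := by
    intro i y hy
    refine g14_sum h12 Z r0 M hM r (fun j => g14LX K H i (g14v y j)) ?_
    rintro f j hj1 hj2 j' hj1' hj2' ⟨t, ht, e⟩ ⟨t', ht', e'⟩
    have h := (s7 i t (g14v y j) t' (g14v y j') ht (g14v_le hy hj2 hr) ht' (g14v_le hy hj2' hr)
      (e.symm.trans e')).2
    exact g14v_inj hj1 hj1' h
  have hY : ∀ i : ZMod K,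
      ∑ j ∈ Finset.Icc 1 r, dust Z r0 (g14LY K H i (H - j)) ≤ M * Z.card := by
    intro i
    refine g14_sum h12 Z r0 M hM r (fun j => g14LY K H i (H - j)) ?_
    rintro f j hj1 hj2 j' hj1' hj2' ⟨t, ht, e⟩ ⟨t', ht', e'⟩
    have h := (s7 i (H - j) t (H - j') t' (by omega) ht (by omega) ht' (e.symm.trans e')).1
    omega
  -- the choice of `j`
  have hj : ∃ j ∈ Finset.Icc 1 r, r * (dust Z r0 (g14LX K H i (g14v y j)) +
      dust Z r0 (g14LY K H i (H - j)) + dust Z r0 (g14LX K H i' (g14v y' j)) +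
      dust Z r0 (g14LY K H i' (H - j))) ≤ 4 * M * Z.card := by
    by_contra hcon
    push Not at hcon
    have e1 : ∑ j ∈ Finset.Icc 1 r, (4 * M * Z.card) <
        ∑ j ∈ Finset.Icc 1 r, r * (dust Z r0 (g14LX K H i (g14v y j)) +
          dust Z r0 (g14LY K H i (H - j)) + dust Z r0 (g14LX K H i' (g14v y' j)) +
          dust Z r0 (g14LY K H i' (H - j))) :=
      Finset.sum_lt_sum_of_nonempty ⟨1, by rw [Finset.mem_Icc]; omega⟩ hcon
    rw [Finset.sum_const, smul_eq_mul, Nat.card_Icc, Nat.add_sub_cancel, ← Finset.mul_sum,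
      Finset.sum_add_distrib, Finset.sum_add_distrib, Finset.sum_add_distrib] at e1
    have e2 := hX i y hy
    have e3 := hX i' y' hy'
    have e4 := hY i
    have e5 := hY i'
    have e6 : 4 * M * Z.card < _ := lt_of_mul_lt_mul_left e1 (Nat.zero_le r)
    have e7 : 4 * M * Z.card = 4 * (M * Z.card) := by ring
    rw [e7] at e6
    omega
  obtain ⟨j, hjm, hjs⟩ := hj
  rw [Finset.mem_Icc] at hjm
  obtain ⟨w1, n1, a1, a2, a3, a4, a5⟩ := g15_half h1 hK Z r0 M hM i hx hy hjm.1 hjm.2 hr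
  obtain ⟨w2, n2, b1, b2, b3, b4, b5⟩ := g15_half h1 hK Z r0 M hM i' hx' hy' hjm.1 hjm.2 hr
  obtain ⟨w3, c1, c2, c3⟩ := g15_ring h1 hK hH i (j := j) (by omega) ((i' - i).val)
  obtain ⟨w2', d1, d2, d3, d4⟩ := wk_rev b1
  have hi : i + (((i' - i).val : ℕ) : ZMod K) = i' := by
    rw [ZMod.natCast_zmod_val]
    ring
  obtain ⟨u, e1, e2, e3, e4⟩ := wk_append a1 c1 (by rw [a3, c2])
  obtain ⟨u', f1, f2, f3, f4⟩ := wk_append e1 d1 (by rw [e3, c3, hi, d2, b3])
  have hval : (i' - i).val < K := ZMod.val_lt _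
  have hm1 : (i' - i).val * j ≤ K * j := Nat.mul_le_mul_right j hval.le
  have hm2 : K * j ≤ K * r := Nat.mul_le_mul_left K hjm.2
  refine ⟨u', n1 + (i' - i).val * j + n2, f1, by rw [f2, e2, a2], by rw [f3, d3, b2], ?_, ?_⟩
  · have : (K + 6) * r = K * r + 6 * r := by ring
    omega
  · rw [f4, e4, d4]
    have g1 := dust_union Z r0 (trace w1 n1 ∪ trace w3 ((i' - i).val * j)) (trace w2 n2)
    have g2 := dust_union Z r0 (trace w1 n1) (trace w3 ((i' - i).val * j))
    have g3 := dust_trace Z r0 M hM w3 ((i' - i).val * j)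
    set D := dust Z r0 (g14LX K H i (g14v y j)) +
      dust Z r0 (g14LY K H i (H - j)) + dust Z r0 (g14LX K H i' (g14v y' j)) +
      dust Z r0 (g14LY K H i' (H - j)) with hD
    have g4 : dust Z r0 (trace w1 n1 ∪ trace w3 ((i' - i).val * j) ∪ trace w2 n2) ≤
        (j + 1) * M + ((i' - i).val * j + 1) * M + (j + 1) * M + D := by
      omega
    have g5 : (j + 1) * M + ((i' - i).val * j + 1) * M + (j + 1) * M ≤ (K + 5) * r * M := by
      have : (j + 1) * M + ((i' - i).val * j + 1) * M + (j + 1) * M =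
          ((j + 1) + ((i' - i).val * j + 1) + (j + 1)) * M := by ring
      rw [this]
      refine Nat.mul_le_mul_right M ?_
      have : (K + 5) * r = K * r + 5 * r := by ring
      omega
    calc r * dust Z r0 (trace w1 n1 ∪ trace w3 ((i' - i).val * j) ∪ trace w2 n2)
        ≤ r * ((K + 5) * r * M + D) := Nat.mul_le_mul_left r (by omega)
      _ = r * D + (K + 5) * r ^ 2 * M := by ring
      _ ≤ 4 * M * Z.card + (K + 5) * r ^ 2 * M := Nat.add_le_add_right hjs _

end Pool.Agent.H13.FG
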