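import Pool.Agent.H13.FG.Sq
import Pool.Agent.H13.FG.Inj
import Pool.Agent.H13.FG.Lin
import Pool.Agent.H13.FG.Good
import Pool.Agent.H13.FG.Glob
import Pool.Agent.H13.FG.CaseB
import Pool.Agent.H13.FG.CaseA
import Pool.Agent.H13.FG.ArmA
import Pool.Agent.H13.FG.ArmB
import Pool.Agent.H13.FG.Pick
import Pool.Agent.H13.FG.Ball
import Pool.Agent.H13.FG.Avg
import Pool.Agent.H13.FG.Route1
import Pool.Agent.H13.FG.RouteN
import Pool.Agent.H13.FG.RouteS
import Pool.Agent.H13.FG.Iso0
import Pool.Agent.H13.FG.CutU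
import Pool.Agent.H13.FG.Loc
import Pool.Agent.H13.FG.Conn
import Pool.Agent.H13.FG.Polar
import Pool.Agent.H13.FG.Pole
import Pool.Agent.H13.FG.NearI
import Pool.Agent.H13.FG.NearA
import Pool.Agent.H13.FG.NearB
import Pool.Agent.H13.FG.Comb
import Pool.Agent.H13.FG.Rest
import Pool.Agent.H13.FG.GeoOf
import Pool.Agent.H13.FG.Hone

/-!
# MP_4c8b8e_co: geometry of the bipyramid, assembly
-/

set_option autoImplicit false

namespace Pool.Agent.H13.FG

theorem slin' : SLin := slin ssq (sinj ssq)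

theorem spolar' : SPolar :=
  spolar ssq (sball ssq) (srouteN ssq savg) (srouteS ssq savg)

theorem spole' : SPole := spole ssq

theorem siso0' : SIso0 := siso0 ssq (sinj ssq) slin' (sgood ssq)

/-- the geometry -/
theorem sgeo : SGeo :=
  sgeoOf spole' (snearI ssq spolar')
    (snearA ssq (scaseA ssq slin') sarmA sarmB spick (sball ssq) (sroute1 ssq savg) scutU
      (sloc ssq) spolar' spole')
    (snearB ssq scutU spolar' spole')
    (scomb (sgood ssq) (sglob ssq (sinj ssq)) (scaseB ssq slin') scutU)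
    (srest siso0' scutU (sconn ssq))

end Pool.Agent.H13.FG
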