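import Pool.Agent.H13.FG.Basic
import Pool.Agent.H3.FF.Pos

/-!
# MP_4c8b8e_co: geometry of the bipyramid, square sectors (row G1)
-/

set_option autoImplicit false

open scoped BigOperators

namespace Pool.Agent.H13.FG

open Classical Pool.Agent.H3.FF CV TV

variable {K H : ℕ} [NeZero K]

/-! ### values -/

theorem g1_N (i : ZMod K) {x y : ℕ} (hx : x ≤ H) (hy : y ≤ H) :
    (sq i x y : TV K H).1 N = H - (x + y) := by rw [sq_val i hx hy]; rfl

theorem g1_S (i : ZMod K) {x y : ℕ} (hx : x ≤ H) (hy : y ≤ H) :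
    (sq i x y : TV K H).1 S = x + y - H := by rw [sq_val i hx hy]; rfl

theorem g1_A0 (hK : 4 ≤ K) (i : ZMod K) {x y : ℕ} (hx : x ≤ H) (hy : y ≤ H) :
    (sq i x y : TV K H).1 (A i) = min x (H - y) := by
  rw [sq_val i hx hy]
  show (if i = i then min x (H - y) else 0) + (if i = i + 1 then min y (H - x) else 0) = _
  rw [if_pos rfl, if_neg (succ_ne hK i), add_zero]

theorem g1_A1 (hK : 4 ≤ K) (i : ZMod K) {x y : ℕ} (hx : x ≤ H) (hy : y ≤ H) :
    (sq i x y : TV K H).1 (A (i + 1)) = min y (H - x) := by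
  rw [sq_val i hx hy]
  show (if i + 1 = i then min x (H - y) else 0) + (if i + 1 = i + 1 then min y (H - x) else 0) = _
  rw [if_neg (succ_ne hK i).symm, if_pos rfl, zero_add]

theorem g1_A (i : ZMod K) {x y : ℕ} (hx : x ≤ H) (hy : y ≤ H) {j : ZMod K} (h0 : j ≠ i)
    (h1 : j ≠ i + 1) : (sq i x y : TV K H).1 (A j) = 0 := by
  rw [sq_val i hx hy]
  show (if j = i then min x (H - y) else 0) + (if j = i + 1 then min y (H - x) else 0) = _
  rw [if_neg h0, if_neg h1]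

omit [NeZero K] in
/-- functions on the coarse vertices -/
theorem g1_e {f g : CV K → ℕ} {i : ZMod K} {c d : CV K} (hN : N ≠ c → N ≠ d → f N = g N)
    (hS : S ≠ c → S ≠ d → f S = g S) (h0 : A i ≠ c → A i ≠ d → f (A i) = g (A i))
    (h1 : A (i + 1) ≠ c → A (i + 1) ≠ d → f (A (i + 1)) = g (A (i + 1)))
    (hj : ∀ j, j ≠ i → j ≠ i + 1 → f (A j) = g (A j)) : ∀ e, e ≠ c → e ≠ d → f e = g e := by
  intro e hc hd
  cases e with
  | N => exact hN hc hd
  | S => exact hS hc hd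
  | A j =>
    by_cases h2 : j = i
    · subst h2
      exact h0 hc hd
    · by_cases h3 : j = i + 1
      · subst h3
        exact h1 hc hd
      · exact hj j h2 h3

omit [NeZero K] in
theorem g1_ext {f g : CV K → ℕ} {i : ZMod K} (hN : f N = g N) (hS : f S = g S)
    (h0 : f (A i) = g (A i)) (h1 : f (A (i + 1)) = g (A (i + 1)))
    (hj : ∀ j, j ≠ i → j ≠ i + 1 → f (A j) = g (A j)) : f = g := by
  funext e
  cases e with
  | N => exact hN
  | S => exact hS
  | A j =>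
    by_cases h2 : j = i
    · subst h2
      exact h0
    · by_cases h3 : j = i + 1
      · subst h3
        exact h1
      · exact hj j h2 h3

theorem g1_spt (i : ZMod K) {x y : ℕ} (hx : x ≤ H) (hy : y ≤ H) (h : x + y ≤ H) :
    Sp true i (sq i x y : TV K H).1 := by
  intro c hc
  unfold fc at hc
  push Not at hc
  obtain ⟨a1, a2, a3⟩ := hc
  cases c with
  | N => exact absurd (by simp [P]) a1
  | S => rw [g1_S i hx hy]; omega
  | A j => exact g1_A i hx hy (fun h => a2 (by rw [h])) (fun h => a3 (by rw [h]))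

theorem g1_spf (i : ZMod K) {x y : ℕ} (hx : x ≤ H) (hy : y ≤ H) (h : H ≤ x + y) :
    Sp false i (sq i x y : TV K H).1 := by
  intro c hc
  unfold fc at hc
  push Not at hc
  obtain ⟨a1, a2, a3⟩ := hc
  cases c with
  | N => rw [g1_N i hx hy]; omega
  | S => exact absurd (by simp [P]) a1
  | A j => exact g1_A i hx hy (fun h => a2 (by rw [h])) (fun h => a3 (by rw [h]))

/-! ### edges -/

theorem sq_adj_x (hK : 4 ≤ K) (i : ZMod K) {x y : ℕ} (hx : x < H) (hy : y ≤ H) :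
    Ad (sq i x y : TV K H) (sq i (x + 1) y) := by
  have hne := succ_ne hK i
  have hx' : x ≤ H := hx.le
  have hx1 : x + 1 ≤ H := hx
  by_cases h : x + 1 + y ≤ H
  · refine ⟨true, i, A (i + 1), g1_spt i hx' hy (by omega), g1_spt i hx1 hy h, fc_A' _ _, N, A i,
      fc_P true i, fc_A _ _, by simp, by simpa using hne, ?_, ?_, g1_e (i := i) ?_ ?_ ?_ ?_ ?_⟩
    · rw [g1_N i hx' hy, g1_N i hx1 hy]; omega
    · rw [g1_A0 hK i hx' hy, g1_A0 hK i hx1 hy]; omega
    · intro h; exact absurd rfl h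
    · intro _ _; rw [g1_S i hx' hy, g1_S i hx1 hy]; omega
    · intro _ h; exact absurd rfl h
    · intro _ _; rw [g1_A1 hK i hx' hy, g1_A1 hK i hx1 hy]; omega
    · intro j h0 h1; rw [g1_A i hx' hy h0 h1, g1_A i hx1 hy h0 h1]
  · refine ⟨false, i, A i, g1_spf i hx' hy (by omega), g1_spf i hx1 hy (by omega), fc_A _ _,
      A (i + 1), S, fc_A' _ _, fc_P false i, by simpa using hne.symm, by simp, ?_, ?_,
      g1_e (i := i) ?_ ?_ ?_ ?_ ?_⟩
    · rw [g1_A1 hK i hx' hy, g1_A1 hK i hx1 hy]; omega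
    · rw [g1_S i hx' hy, g1_S i hx1 hy]; omega
    · intro _ _; rw [g1_N i hx' hy, g1_N i hx1 hy]; omega
    · intro _ h; exact absurd rfl h
    · intro _ _; rw [g1_A0 hK i hx' hy, g1_A0 hK i hx1 hy]; omega
    · intro h; exact absurd rfl h
    · intro j h0 h1; rw [g1_A i hx' hy h0 h1, g1_A i hx1 hy h0 h1]

theorem sq_adj_y (hK : 4 ≤ K) (i : ZMod K) {x y : ℕ} (hx : x ≤ H) (hy : y < H) :
    Ad (sq i x y : TV K H) (sq i x (y + 1)) := by
  have hne := succ_ne hK i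
  have hy' : y ≤ H := hy.le
  have hy1 : y + 1 ≤ H := hy
  by_cases h : x + (y + 1) ≤ H
  · refine ⟨true, i, A i, g1_spt i hx hy' (by omega), g1_spt i hx hy1 h, fc_A _ _, N, A (i + 1),
      fc_P true i, fc_A' _ _, by simp, by simpa using hne.symm, ?_, ?_,
      g1_e (i := i) ?_ ?_ ?_ ?_ ?_⟩
    · rw [g1_N i hx hy', g1_N i hx hy1]; omega
    · rw [g1_A1 hK i hx hy', g1_A1 hK i hx hy1]; omega
    · intro h; exact absurd rfl h
    · intro _ _; rw [g1_S i hx hy', g1_S i hx hy1]; omega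
    · intro _ _; rw [g1_A0 hK i hx hy', g1_A0 hK i hx hy1]; omega
    · intro _ h; exact absurd rfl h
    · intro j h0 h1; rw [g1_A i hx hy' h0 h1, g1_A i hx hy1 h0 h1]
  · refine ⟨false, i, A (i + 1), g1_spf i hx hy' (by omega), g1_spf i hx hy1 (by omega),
      fc_A' _ _, A i, S, fc_A _ _, fc_P false i, by simpa using hne, by simp, ?_, ?_,
      g1_e (i := i) ?_ ?_ ?_ ?_ ?_⟩
    · rw [g1_A0 hK i hx hy', g1_A0 hK i hx hy1]; omega
    · rw [g1_S i hx hy', g1_S i hx hy1]; omega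
    · intro _ _; rw [g1_N i hx hy', g1_N i hx hy1]; omega
    · intro _ h; exact absurd rfl h
    · intro h; exact absurd rfl h
    · intro _ _; rw [g1_A1 hK i hx hy', g1_A1 hK i hx hy1]; omega
    · intro j h0 h1; rw [g1_A i hx hy' h0 h1, g1_A i hx hy1 h0 h1]

theorem sq_adj_d (hK : 4 ≤ K) (i : ZMod K) {x y : ℕ} (hx : x < H) (hy : y < H) :
    Ad (sq i (x + 1) y : TV K H) (sq i x (y + 1)) := by
  have hne := succ_ne hK i
  have hx' : x ≤ H := hx.le
  have hx1 : x + 1 ≤ H := hx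
  have hy' : y ≤ H := hy.le
  have hy1 : y + 1 ≤ H := hy
  have key : Stp (sq i (x + 1) y : TV K H) (sq i x (y + 1)) (A i) (A (i + 1)) := by
    refine ⟨?_, ?_, g1_e (i := i) ?_ ?_ ?_ ?_ ?_⟩
    · rw [g1_A0 hK i hx1 hy', g1_A0 hK i hx' hy1]; omega
    · rw [g1_A1 hK i hx1 hy', g1_A1 hK i hx' hy1]; omega
    · intro _ _; rw [g1_N i hx1 hy', g1_N i hx' hy1]; omega
    · intro _ _; rw [g1_S i hx1 hy', g1_S i hx' hy1]; omega
    · intro h; exact absurd rfl h
    · intro _ h; exact absurd rfl h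
    · intro j h0 h1; rw [g1_A i hx1 hy' h0 h1, g1_A i hx' hy1 h0 h1]
  by_cases h : x + 1 + y ≤ H
  · exact ⟨true, i, N, g1_spt i hx1 hy' h, g1_spt i hx' hy1 (by omega), fc_P true i, A i,
      A (i + 1), fc_A _ _, fc_A' _ _, by simp, by simp, key⟩
  · exact ⟨false, i, S, g1_spf i hx1 hy' (by omega), g1_spf i hx' hy1 (by omega), fc_P false i,
      A i, A (i + 1), fc_A _ _, fc_A' _ _, by simp, by simp, key⟩

/-! ### gluing -/

theorem sq_glue0 (hK : 4 ≤ K) (i : ZMod K) {y : ℕ} (hy : y ≤ H) :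
    (sq i 0 y : TV K H) = sq (i + 1) y 0 := by
  have hne := succ_ne hK i
  have hne' := succ_ne hK (i + 1)
  have h0 : 0 ≤ H := Nat.zero_le H
  apply Subtype.ext
  refine g1_ext (i := i + 1) ?_ ?_ ?_ ?_ ?_
  · rw [g1_N i h0 hy, g1_N (i + 1) hy h0]; omega
  · rw [g1_S i h0 hy, g1_S (i + 1) hy h0]; omega
  · rw [g1_A1 hK i h0 hy, g1_A0 hK (i + 1) hy h0]
  · rw [g1_A1 hK (i + 1) hy h0, g1_A i h0 hy (succ_succ_ne hK i).symm hne'.symm]; omega
  · intro j h1 h2
    rw [g1_A (i + 1) hy h0 h1 h2]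
    by_cases h3 : j = i
    · subst h3
      rw [g1_A0 hK j h0 hy]; omega
    · exact g1_A i h0 hy h3 h1

theorem sq_glueH (hK : 4 ≤ K) (i : ZMod K) {x : ℕ} (hx : x ≤ H) :
    (sq i x H : TV K H) = sq (i + 1) H x := by
  have hne := succ_ne hK i
  have hne' := succ_ne hK (i + 1)
  have h0 : H ≤ H := le_rfl
  apply Subtype.ext
  refine g1_ext (i := i + 1) ?_ ?_ ?_ ?_ ?_
  · rw [g1_N i hx h0, g1_N (i + 1) h0 hx]; omega
  · rw [g1_S i hx h0, g1_S (i + 1) h0 hx]; omega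
  · rw [g1_A1 hK i hx h0, g1_A0 hK (i + 1) h0 hx]
  · rw [g1_A1 hK (i + 1) h0 hx, g1_A i hx h0 (succ_succ_ne hK i).symm hne'.symm]; omega
  · intro j h1 h2
    rw [g1_A (i + 1) h0 hx h1 h2]
    by_cases h3 : j = i
    · subst h3
      rw [g1_A0 hK j hx h0]; omega
    · exact g1_A i hx h0 h3 h1

/-! ### injectivity, levels -/

theorem sq_inj (hK : 4 ≤ K) (i : ZMod K) {x y x' y' : ℕ} (hx : x ≤ H) (hy : y ≤ H)
    (hx' : x' ≤ H) (hy' : y' ≤ H) (h : (sq i x y : TV K H) = sq i x' y') : x = x' ∧ y = y' := by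
  have e1 := congrArg (fun f : TV K H => f.1 N) h
  have e2 := congrArg (fun f : TV K H => f.1 S) h
  have e3 := congrArg (fun f : TV K H => f.1 (A i)) h
  have e4 := congrArg (fun f : TV K H => f.1 (A (i + 1))) h
  simp only [g1_N i hx hy, g1_N i hx' hy', g1_S i hx hy, g1_S i hx' hy', g1_A0 hK i hx hy,
    g1_A0 hK i hx' hy', g1_A1 hK i hx hy, g1_A1 hK i hx' hy'] at e1 e2 e3 e4
  omega

theorem lev_sq (i : ZMod K) {x y : ℕ} (hx : x ≤ H) (hy : y ≤ H) :
    lev (sq i x y : TV K H) = x + y := by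
  unfold lev
  rw [g1_N i hx hy, g1_S i hx hy]
  omega

theorem lev_le {f g : TV K H} (h : Ad f g) : lev f ≤ lev g + 1 := by
  obtain ⟨b, i, k, -, -, -, c, d, hc, hd, -, -, s1, s2, s3⟩ := h
  have f1 := TV.le f N
  have f2 := TV.le f S
  have g2 := TV.le g N
  have g3 := TV.le g S
  have hcd : c ≠ d := by
    rintro rfl
    omega
  unfold lev
  have hN : f.1 N = g.1 N ∨ (c = N ∧ f.1 N = g.1 N + 1) ∨ (d = N ∧ g.1 N = f.1 N + 1) := by
    by_cases h1 : c = N
    · subst h1; exact Or.inr (Or.inl ⟨rfl, s1⟩)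
    · by_cases h2 : d = N
      · subst h2; exact Or.inr (Or.inr ⟨rfl, s2⟩)
      · exact Or.inl (s3 N (Ne.symm h1) (Ne.symm h2))
  have hS : f.1 S = g.1 S ∨ (c = S ∧ f.1 S = g.1 S + 1) ∨ (d = S ∧ g.1 S = f.1 S + 1) := by
    by_cases h1 : c = S
    · subst h1; exact Or.inr (Or.inl ⟨rfl, s1⟩)
    · by_cases h2 : d = S
      · subst h2; exact Or.inr (Or.inr ⟨rfl, s2⟩)
      · exact Or.inl (s3 S (Ne.symm h1) (Ne.symm h2))
  have hbN : ∀ e : CV K, fc b i e → e = N → b = true := by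
    rintro e he rfl
    exact ((fc_apex_iff b true i).1 he).symm
  have hbS : ∀ e : CV K, fc b i e → e = S → b = false := by
    rintro e he rfl
    exact ((fc_apex_iff b false i).1 he).symm
  rcases hN with hN | ⟨hN, hN'⟩ | ⟨hN, hN'⟩ <;> rcases hS with hS | ⟨hS, hS'⟩ | ⟨hS, hS'⟩
  · omega
  · omega
  · omega
  · omega
  · rw [hN] at hS; exact absurd hS (by simp)
  · exact absurd ((hbN c hc hN).symm.trans (hbS d hd hS)) (by simp)
  · omega
  · exact absurd ((hbN d hd hN).symm.trans (hbS c hc hS)) (by simp)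
  · rw [hN] at hS; exact absurd hS (by simp)

/-! ### coordinates -/

theorem g1_sum (hK : 4 ≤ K) {f : TV K H} {b : Bool} {i : ZMod K} (h : Sp b i f.1) :
    f.1 (P b) + f.1 (A i) + f.1 (A (i + 1)) = H := by
  have h1 := sum_fc hK h (fc_P b i) (fc_A b i) (fc_A' b i) (by cases b <;> simp [P])
    (by cases b <;> simp [P]) (by simpa using succ_ne hK i)
  rw [← h1]
  exact f.2.1

theorem g1_ct (hK : 4 ≤ K) {f : TV K H} {i : ZMod K} (h : Sp true i f.1) :
    f.1 N + f.1 (A i) + f.1 (A (i + 1)) = H ∧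
      (sq i (f.1 (A i)) (f.1 (A (i + 1))) : TV K H) = f := by
  have hs : f.1 N + f.1 (A i) + f.1 (A (i + 1)) = H := g1_sum hK h
  refine ⟨hs, ?_⟩
  have hx : f.1 (A i) ≤ H := by omega
  have hy : f.1 (A (i + 1)) ≤ H := by omega
  apply Subtype.ext
  refine g1_ext (i := i) ?_ ?_ ?_ ?_ ?_
  · rw [g1_N i hx hy]; omega
  · rw [g1_S i hx hy, h S (by simp [fc, P])]; omega
  · rw [g1_A0 hK i hx hy]; omega
  · rw [g1_A1 hK i hx hy]; omega
  · intro j h0 h1
    rw [g1_A i hx hy h0 h1, h (A j) (by simp [fc, P, h0, h1])]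

theorem g1_cf (hK : 4 ≤ K) {f : TV K H} {i : ZMod K} (h : Sp false i f.1) :
    f.1 S + f.1 (A i) + f.1 (A (i + 1)) = H ∧
      (sq i (H - f.1 (A (i + 1))) (H - f.1 (A i)) : TV K H) = f := by
  have hs : f.1 S + f.1 (A i) + f.1 (A (i + 1)) = H := g1_sum hK h
  refine ⟨hs, ?_⟩
  have hx : H - f.1 (A (i + 1)) ≤ H := Nat.sub_le _ _
  have hy : H - f.1 (A i) ≤ H := Nat.sub_le _ _
  apply Subtype.ext
  refine g1_ext (i := i) ?_ ?_ ?_ ?_ ?_
  · rw [g1_N i hx hy, h N (by simp [fc, P])]; omega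
  · rw [g1_S i hx hy]; omega
  · rw [g1_A0 hK i hx hy]; omega
  · rw [g1_A1 hK i hx hy]; omega
  · intro j h0 h1
    rw [g1_A i hx hy h0 h1, h (A j) (by simp [fc, P, h0, h1])]

theorem sq_all (hK : 4 ≤ K) (f : TV K H) :
    ∃ (i : ZMod K) (x y : ℕ), x ≤ H ∧ y ≤ H ∧ sq i x y = f := by
  obtain ⟨b, i, h⟩ := f.2.2
  cases b with
  | true =>
    obtain ⟨h1, h2⟩ := g1_ct hK h
    exact ⟨i, _, _, by omega, by omega, h2⟩
  | false =>
    obtain ⟨h1, h2⟩ := g1_cf hK h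
    exact ⟨i, _, _, Nat.sub_le _ _, Nat.sub_le _ _, h2⟩

theorem ad_cases (hK : 4 ≤ K) {f g : TV K H} (h : Ad f g) :
    ∃ (i : ZMod K) (x y x' y' : ℕ), x ≤ H ∧ y ≤ H ∧ x' ≤ H ∧ y' ≤ H ∧
      sq i x y = f ∧ sq i x' y' = g ∧
      ((x' = x + 1 ∧ y' = y) ∨ (x = x' + 1 ∧ y' = y) ∨ (x' = x ∧ y' = y + 1) ∨
        (x' = x ∧ y = y' + 1) ∨ (x' = x + 1 ∧ y = y' + 1) ∨ (x = x' + 1 ∧ y' = y + 1)) := by
  obtain ⟨b, i, k, hf, hg, -, c, d, hc, hd, -, -, s1, s2, s3⟩ := h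
  have hne := succ_ne hK i
  have hA : (A i : CV K) ≠ A (i + 1) := by simpa using hne
  cases b with
  | true =>
    obtain ⟨f1, f2⟩ := g1_ct hK hf
    obtain ⟨g1, g2⟩ := g1_ct hK hg
    refine ⟨i, _, _, _, _, by omega, by omega, by omega, by omega, f2, g2, ?_⟩
    have hP : (P true : CV K) = N := rfl
    have hPA : ∀ j : ZMod K, (N : CV K) ≠ A j := fun j => by simp
    rcases hc with rfl | rfl | rfl <;> rcases hd with rfl | rfl | rfl <;>
      try simp only [hP] at s1 s2 s3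
    · omega
    · have := s3 (A (i + 1)) (hPA _).symm hA.symm; omega
    · have := s3 (A i) (hPA _).symm hA; omega
    · have := s3 (A (i + 1)) hA.symm (hPA _).symm; omega
    · omega
    · have := s3 N (hPA _) (hPA _); omega
    · have := s3 (A i) hA (hPA _).symm; omega
    · have := s3 N (hPA _) (hPA _); omega
    · omega
  | false =>
    obtain ⟨f1, f2⟩ := g1_cf hK hf
    obtain ⟨g1, g2⟩ := g1_cf hK hg
    refine ⟨i, _, _, _, _, Nat.sub_le _ _, Nat.sub_le _ _, Nat.sub_le _ _, Nat.sub_le _ _, f2,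
      g2, ?_⟩
    have hP : (P false : CV K) = S := rfl
    have hPA : ∀ j : ZMod K, (S : CV K) ≠ A j := fun j => by simp
    rcases hc with rfl | rfl | rfl <;> rcases hd with rfl | rfl | rfl <;>
      try simp only [hP] at s1 s2 s3
    · omega
    · have := s3 (A (i + 1)) (hPA _).symm hA.symm; omega
    · have := s3 (A i) (hPA _).symm hA; omega
    · have := s3 (A (i + 1)) hA.symm (hPA _).symm; omega
    · omega
    · have := s3 S (hPA _) (hPA _); omega
    · have := s3 (A i) hA (hPA _).symm; omega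
    · have := s3 S (hPA _) (hPA _); omega
    · omega

/-- FIRE-G1 -/
theorem ssq : SSq := by
  intro K H _ hK hH
  exact ⟨sq_all hK, fun i x y => sq_adj_x hK i, fun i x y => sq_adj_y hK i,
    fun i x y => sq_adj_d hK i, fun i y => sq_glue0 hK i, fun i x => sq_glueH hK i,
    fun i x y x' y' => sq_inj hK i, fun i x y => lev_sq i,
    fun f g h => ⟨ad_symm h, lev_le h⟩, fun f g h => ad_cases hK h⟩

end Pool.Agent.H13.FG
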