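import Pool.Agent.H13.FG.Defs

/-!
# MP_4c8b8e_co: geometry of the bipyramid, statements
-/

set_option autoImplicit false

open scoped BigOperators

namespace Pool.Agent.H13.FG

open Classical Pool.Agent.H3.FF CV TV

section

variable {K H : ℕ} [NeZero K]

/-- cut edges of `S` on the line `y = c` of the sector `i` -/
noncomputable def cx (S : Finset (TV K H)) (i : ZMod K) (c : ℕ) : ℕ :=
  ((Finset.range H).filter (fun x => ¬ (sq i x c ∈ S ↔ sq i (x + 1) c ∈ S))).card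

/-- cut edges of `S` on the line `x = c` of the sector `i` -/
noncomputable def cy (S : Finset (TV K H)) (i : ZMod K) (c : ℕ) : ℕ :=
  ((Finset.range H).filter (fun y => ¬ (sq i c y ∈ S ↔ sq i c (y + 1) ∈ S))).card

/-- cut edges of `S` on the line `x + y = s` of the sector `i` -/
noncomputable def cd (S : Finset (TV K H)) (i : ZMod K) (s : ℕ) : ℕ :=
  ((Finset.range H).filter (fun x => x + 1 ≤ s ∧ s ≤ x + H ∧
    ¬ (sq i x (s - x) ∈ S ↔ sq i (x + 1) (s - (x + 1)) ∈ S))).card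

/-- cut edges of `S` inside the sector `i` (without the sides of the sector) -/
noncomputable def es (S : Finset (TV K H)) (i : ZMod K) : ℕ :=
  ∑ c ∈ Finset.Ioo 0 H, (cx S i c + cy S i c) + ∑ s ∈ Finset.Ioo 0 (2 * H), cd S i s

/-- the point `(x, y)` of the sector `i` is on the closed line `(a, c)` -/
def LinAt (H : ℕ) (a : ZMod 4) (c : ℕ) (i : ZMod K) (x y : ℕ) : Prop :=
  ((i.val : ZMod 4) - a = 0 ∧ y = c) ∨ ((i.val : ZMod 4) - a = 1 ∧ x + y = c) ∨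
    ((i.val : ZMod 4) - a = 2 ∧ x = c) ∨ ((i.val : ZMod 4) - a = 3 ∧ x + y = H + c)

/-- the points of the closed line `(a, c)` -/
def lin (a : ZMod 4) (c : ℕ) : Set (TV K H) :=
  {f | ∃ (i : ZMod K) (x y : ℕ), x ≤ H ∧ y ≤ H ∧ LinAt H a c i x y ∧ sq i x y = f}

/-- the closed line `(a, c)` has points in `S` and points outside -/
def Mixed (S : Finset (TV K H)) (a : ZMod 4) (c : ℕ) : Prop :=
  (∃ f ∈ lin (K := K) (H := H) a c, f ∈ S) ∧ ∃ f ∈ lin (K := K) (H := H) a c, f ∉ S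

/-- labels: `none` = outside the union of the family, `some S` = in the member `S` -/
def Has (B : Finset (Finset (TV K H))) : Option (Finset (TV K H)) → TV K H → Prop
  | none, f => f ∉ un B
  | some T, f => T ∈ B ∧ f ∈ T

/-- all unbroken lines of the sector `i` have the label `o` -/
structure Lab (B : Finset (Finset (TV K H))) (d : ℕ) (i : ZMod K)
    (o : Option (Finset (TV K H))) : Prop where
  x : ∀ c, 0 < c → c < H → cx (un B) i c = 0 → ∀ x ≤ H, Has B o (sq i x c)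
  y : ∀ c, 0 < c → c < H → cy (un B) i c = 0 → ∀ y ≤ H, Has B o (sq i c y)
  d : ∀ s, d + 2 ≤ s → s + d + 2 ≤ 2 * H → cd (un B) i s = 0 → ∀ x ≤ H, ∀ y ≤ H, x + y = s →
    Has B o (sq i x y)

/-- number of lines `y = c`, `0 < c < H`, of the sector `i` with a point outside `S` -/
noncomputable def nx (S : Finset (TV K H)) (i : ZMod K) : ℕ :=
  ((Finset.Ioo 0 H).filter (fun c => ∃ x ≤ H, sq i x c ∉ S)).card

/-- number of lines `x = c`, `0 < c < H`, of the sector `i` with a point outside `S` -/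
noncomputable def ny (S : Finset (TV K H)) (i : ZMod K) : ℕ :=
  ((Finset.Ioo 0 H).filter (fun c => ∃ y ≤ H, sq i c y ∉ S)).card

/-- number of lines `x + y = s`, `0 < s < 2 H`, `s ≠ H`, of the sector `i` with a point outside
`S` -/
noncomputable def nd (S : Finset (TV K H)) (i : ZMod K) : ℕ :=
  ((Finset.Ioo 0 (2 * H)).filter
    (fun s => s ≠ H ∧ ∃ x ≤ H, ∃ y ≤ H, x + y = s ∧ sq i x y ∉ S)).card

end

/-- the point at distance `j` from `p` in the direction `e` -/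
def arm (e : Fin 4) (p : ℕ × ℕ) (j : ℕ) : ℕ × ℕ :=
  if e = 0 then (p.1 + j, p.2) else if e = 1 then (p.1 - j, p.2) else
    if e = 2 then (p.1, p.2 + j) else (p.1, p.2 - j)

/-- `arm e p j` is in the square -/
def ArmOk (H : ℕ) (e : Fin 4) (p : ℕ × ℕ) (j : ℕ) : Prop :=
  if e = 0 then p.1 + j ≤ H else if e = 1 then j ≤ p.1 else
    if e = 2 then p.2 + j ≤ H else j ≤ p.2

/-- the coordinate that is constant in the direction `e` -/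
def idx (e : Fin 4) (p : ℕ × ℕ) : ℕ := if e = 0 ∨ e = 1 then p.2 else p.1

/-- FIRE-G1. Square sectors: all points, all edges, gluing, injectivity, levels. -/
def SSq : Prop := ∀ (K H : ℕ) [NeZero K], 4 ≤ K → 1 ≤ H →
  (∀ f : TV K H, ∃ (i : ZMod K) (x y : ℕ), x ≤ H ∧ y ≤ H ∧ sq i x y = f) ∧
  (∀ (i : ZMod K) (x y : ℕ), x < H → y ≤ H → Ad (sq i x y : TV K H) (sq i (x + 1) y)) ∧
  (∀ (i : ZMod K) (x y : ℕ), x ≤ H → y < H → Ad (sq i x y : TV K H) (sq i x (y + 1))) ∧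
  (∀ (i : ZMod K) (x y : ℕ), x < H → y < H → Ad (sq i (x + 1) y : TV K H) (sq i x (y + 1))) ∧
  (∀ (i : ZMod K) (y : ℕ), y ≤ H → (sq i 0 y : TV K H) = sq (i + 1) y 0) ∧
  (∀ (i : ZMod K) (x : ℕ), x ≤ H → (sq i x H : TV K H) = sq (i + 1) H x) ∧
  (∀ (i : ZMod K) (x y x' y' : ℕ), x ≤ H → y ≤ H → x' ≤ H → y' ≤ H →
    (sq i x y : TV K H) = sq i x' y' → x = x' ∧ y = y') ∧
  (∀ (i : ZMod K) (x y : ℕ), x ≤ H → y ≤ H → lev (sq i x y : TV K H) = x + y) ∧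
  (∀ f g : TV K H, Ad f g → Ad g f ∧ lev f ≤ lev g + 1) ∧
  (∀ f g : TV K H, Ad f g → ∃ (i : ZMod K) (x y x' y' : ℕ), x ≤ H ∧ y ≤ H ∧ x' ≤ H ∧ y' ≤ H ∧
    sq i x y = f ∧ sq i x' y' = g ∧
    ((x' = x + 1 ∧ y' = y) ∨ (x = x' + 1 ∧ y' = y) ∨ (x' = x ∧ y' = y + 1) ∨
      (x' = x ∧ y = y' + 1) ∨ (x' = x + 1 ∧ y = y' + 1) ∨ (x = x' + 1 ∧ y' = y + 1)))

/-- FIRE-G2. The edges inside the sectors are different. -/
def SInj : Prop := ∀ (K H : ℕ) [NeZero K], 4 ≤ K → ∀ S : Finset (TV K H),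
  ∑ i : ZMod K, es S i ≤ cut S

/-- FIRE-G3. Every mixed closed line has two cut edges. -/
def SLin : Prop := ∀ (K H : ℕ) [NeZero K], 4 ∣ K → ∀ S : Finset (TV K H),
  2 * (((Finset.univ : Finset (ZMod 4)) ×ˢ Finset.Ioo 0 H).filter
    (fun p => Mixed S p.1 p.2)).card ≤ cut S

/-- FIRE-G4. Labels of good sectors. -/
def SGood : Prop := ∀ (K H : ℕ) [NeZero K], 4 ≤ K → ∀ B : Finset (Finset (TV K H)), Apart B →
  ∀ (i : ZMod K) (d : ℕ), es (un B) i ≤ d → d + 3 ≤ H →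
    ∃ o, Lab B d i o ∧ (∀ o', Lab B d i o' → o' = o) ∧
      ((Finset.range (H + 1) ×ˢ Finset.range (H + 1)).filter
        (fun p => ¬ Has B o (sq i p.1 p.2))).card ≤ (es (un B) i + 2) ^ 2

/-- FIRE-G5. A set that is small in all good sectors is small. -/
def SGlob : Prop := ∀ (K H : ℕ) [NeZero K], 4 ≤ K → ∀ (U W : Finset (TV K H)) (d : ℕ),
  (∀ i : ZMod K, es U i ≤ d →
    ((Finset.range (H + 1) ×ˢ Finset.range (H + 1)).filter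
      (fun p => sq i p.1 p.2 ∈ W)).card ≤ (es U i + 2) ^ 2) →
    (d + 1) * W.card ≤ cut U * (H + 1) ^ 2 + (d + 1) * ((d + 4) * cut U + 4 * K)

/-- FIRE-G6. Case B: two good sectors with different labels. -/
def SCaseB : Prop := ∀ (K H : ℕ) [NeZero K], 4 ∣ K → ∀ B : Finset (Finset (TV K H)), Apart B →
  ∀ (d : ℕ) (S : Finset (TV K H)) (g g' : ZMod K) (o : Option (Finset (TV K H))), d + 3 ≤ H →
    es (un B) g ≤ d → es (un B) g' ≤ d → Lab B d g (some S) → Lab B d g' o → o ≠ some S →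
      8 * H ≤ cut S + 12 * d + 16

/-- FIRE-G7. Case A: lines of a sector with a point outside `S`. -/
def SCaseA : Prop := ∀ (K H : ℕ) [NeZero K], 4 ∣ K → ∀ B : Finset (Finset (TV K H)), Apart B →
  ∀ (d : ℕ) (S : Finset (TV K H)) (g i : ZMod K), d + 3 ≤ H →
    es (un B) g ≤ d → Lab B d g (some S) →
      2 * (nx S i + ny S i + nd S i) ≤ cut S + 2 * (3 * d + 2)

/-- FIRE-G8. Arms of the length `m` around a set `Q`. -/
def SArmA : Prop := ∀ (K H : ℕ) [NeZero K], 4 ≤ K → ∀ (S : Finset (TV K H)) (i : ZMod K)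
  (Q : Finset (ℕ × ℕ)) (m : ℕ), Q.Nonempty →
    (∀ p ∈ Q, m < p.1 ∧ p.1 + m < H ∧ m < p.2 ∧ p.2 + m < H) →
    (∀ p ∈ Q, ∀ e : Fin 4, ∀ j ≤ m, sq i (arm e p j).1 (arm e p j).2 ∉ S) →
      ∃ q : ℕ, 9 * Q.card ≤ q ^ 2 ∧ q + 6 * m ≤ nx S i + ny S i + nd S i + 1

/-- FIRE-G9. Arms of one point. -/
def SArmB : Prop := ∀ (K H : ℕ) [NeZero K], 4 ≤ K → ∀ (S : Finset (TV K H)) (i : ZMod K)
  (p : ℕ × ℕ) (m : ℕ), m ≤ H → 0 < p.1 → p.1 < H → 0 < p.2 → p.2 < H →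
    (∀ e : Fin 4, ∀ j ≤ m, ArmOk H e p j → sq i (arm e p j).1 (arm e p j).2 ∉ S) →
      3 * m ≤ nx S i + ny S i + nd S i + 3

/-- FIRE-G10. Choice of the length of the arms. -/
def SPick : Prop := ∀ (K H : ℕ) [NeZero K], ∀ (S : Finset (TV K H)) (i : ZMod K)
  (Q : Finset (ℕ × ℕ)) (r q : ℕ), 1 ≤ r →
    (∀ p ∈ Q, sq i p.1 p.2 ∉ S) →
    (∀ c, (Q.filter (fun p => p.1 = c)).card ≤ q) → (∀ c, (Q.filter (fun p => p.2 = c)).card ≤ q) →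
      ∃ l, 1 ≤ l ∧ l ≤ H + 1 ∧
        (∃ Q' ⊆ Q, Q.card ≤ Q'.card + 4 * r * q ∧ ∀ p ∈ Q', ∀ e : Fin 4, ∀ j < l,
          ArmOk H e p j → sq i (arm e p j).1 (arm e p j).2 ∉ S) ∧
        (l ≤ H → ∃ (e : Fin 4) (F : Finset (ℕ × ℕ)), F ⊆ Q ∧ F.card = r ∧
          Set.InjOn (idx e) (F : Set (ℕ × ℕ)) ∧
          ∀ p ∈ F, ∃ j ≤ l, ArmOk H e p j ∧ sq i (arm e p j).1 (arm e p j).2 ∈ S)

/-- FIRE-G11. Balls are small. -/
def SBall : Prop := ∀ (K H : ℕ) [NeZero K], 4 ≤ K → ∀ (z : TV K H) (r : ℕ),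
  ((Finset.univ : Finset (TV K H)).filter (fun f => Nr r z f)).card ≤ (K + 7) ^ r

/-- FIRE-G12. Averaging over a family of sets. -/
def SAvg : Prop := ∀ (K H : ℕ) [NeZero K], ∀ (Z : Finset (TV K H)) (r M : ℕ),
  (∀ z : TV K H, ((Finset.univ : Finset (TV K H)).filter (fun f => Nr r z f)).card ≤ M) →
    ∀ (A : ℕ → Set (TV K H)) (I : Finset ℕ) (m : ℕ),
      (∀ f : TV K H, (I.filter (fun k => f ∈ A k)).card ≤ m) →
        ∑ k ∈ I, dust Z r (A k) ≤ m * M * Z.card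

/-- FIRE-G13. Route R1: along the arms. -/
def SRoute1 : Prop := ∀ (K H : ℕ) [NeZero K], 4 ≤ K → ∀ (Z : Finset (TV K H)) (r0 M : ℕ),
  (∀ z : TV K H, ((Finset.univ : Finset (TV K H)).filter (fun f => Nr r0 z f)).card ≤ M) →
    ∀ (S : Finset (TV K H)) (i : ZMod K) (e : Fin 4) (F : Finset (ℕ × ℕ)) (l r : ℕ), 1 ≤ r →
      F.card = r → Set.InjOn (idx e) (F : Set (ℕ × ℕ)) → (∀ p ∈ F, p.1 ≤ H ∧ p.2 ≤ H) →
      (∀ p ∈ F, ∃ j ≤ l, ArmOk H e p j ∧ sq i (arm e p j).1 (arm e p j).2 ∈ S) →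
        ∃ p ∈ F, ∃ (w : ℕ → TV K H) (n : ℕ), n ≤ l ∧ Wk w n ∧ w 0 = sq i p.1 p.2 ∧ w n ∈ S ∧
          r * dust Z r0 (trace w n) ≤ M * Z.card

/-- FIRE-G14. Route R2: via the apex `N`. -/
def SRouteN : Prop := ∀ (K H : ℕ) [NeZero K], 4 ≤ K → ∀ (Z : Finset (TV K H)) (r0 M : ℕ),
  (∀ z : TV K H, ((Finset.univ : Finset (TV K H)).filter (fun f => Nr r0 z f)).card ≤ M) →
    ∀ (i i' : ZMod K) (x y x' y' r : ℕ), x ≤ H → y ≤ H → x' ≤ H → y' ≤ H → 1 ≤ r → 2 * r ≤ H →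
      ∃ (w : ℕ → TV K H) (n : ℕ), Wk w n ∧ w 0 = sq i x y ∧ w n = sq i' x' y' ∧
        n ≤ (x + y) + (x' + y') + (K + 6) * r ∧
        r * dust Z r0 (trace w n) ≤ 4 * M * Z.card + (K + 5) * r ^ 2 * M

/-- FIRE-G15. Route R2: via the apex `S`. -/
def SRouteS : Prop := ∀ (K H : ℕ) [NeZero K], 4 ≤ K → ∀ (Z : Finset (TV K H)) (r0 M : ℕ),
  (∀ z : TV K H, ((Finset.univ : Finset (TV K H)).filter (fun f => Nr r0 z f)).card ≤ M) →
    ∀ (i i' : ZMod K) (x y x' y' r : ℕ), x ≤ H → y ≤ H → x' ≤ H → y' ≤ H → 1 ≤ r → 2 * r ≤ H →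
      ∃ (w : ℕ → TV K H) (n : ℕ), Wk w n ∧ w 0 = sq i x y ∧ w n = sq i' x' y' ∧
        n + (x + y) + (x' + y') ≤ 4 * H + (K + 6) * r ∧
        r * dust Z r0 (trace w n) ≤ 4 * M * Z.card + (K + 5) * r ^ 2 * M

/-- FIRE-G16. Isoperimetry for short boundaries. -/
def SIso0 : Prop := ∀ (K H : ℕ) [NeZero K], 4 ∣ K → ∀ S : Finset (TV K H), 3 * cut S + 6 ≤ H →
  S.card ≤ cut S ^ 2 + 4 * cut S + 4 * K ∨ Sᶜ.card ≤ cut S ^ 2 + 4 * cut S + 4 * K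

/-- FIRE-G17. Cuts of families. -/
def SCutU : Prop := ∀ (K H : ℕ) [NeZero K], ∀ B : Finset (Finset (TV K H)), Apart B →
  cut (un B) = ∑ S ∈ B, cut S

/-- FIRE-G18. Balls inside a sector. -/
def SLoc : Prop := ∀ (K H : ℕ) [NeZero K], 4 ≤ K → ∀ (i : ZMod K) (x y t : ℕ), t < x → t < y →
  x + t < H → y + t < H → ∀ f : TV K H, Nr t (sq i x y) f →
    ∃ x' y' : ℕ, x' ≤ x + t ∧ x ≤ x' + t ∧ y' ≤ y + t ∧ y ≤ y' + t ∧ f = sq i x' y'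

/-- FIRE-G19. The lattice is connected. -/
def SConn : Prop := ∀ (K H : ℕ) [NeZero K], 4 ≤ K → ∀ S : Finset (TV K H), S.Nonempty →
  S ≠ Finset.univ → 1 ≤ cut S

/-- there is a walk of length `n` from `Q` to `S` with little dust near it -/
def Reach {K H : ℕ} [NeZero K] (Q Z : Finset (TV K H)) (r0 : ℕ) (D : ℝ) (n : ℕ)
    (S : Finset (TV K H)) : Prop :=
  ∃ w : ℕ → TV K H, Wk w n ∧ w 0 ∈ Q ∧ w n ∈ S ∧ (dust Z r0 (trace w n) : ℝ) ≤ D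

/-- `S` is near: a walk from `Q` to `S` of length `n` with `n + t1 + lam + e H ≤ cut / 4` -/
def NearTo {K H : ℕ} [NeZero K] (Q Z : Finset (TV K H)) (r0 : ℕ) (k e : ℝ) (t1 : ℕ) (lam : ℝ)
    (U S : Finset (TV K H)) : Prop :=
  ∃ n : ℕ, Reach Q Z r0 (k * H) n S ∧ 4 * ((n : ℝ) + t1 + lam + e * H) ≤ cut U

/-- FIRE-G20. Summary of the geometry. -/
def SGeo : Prop := ∀ (K : ℕ) [NeZero K], 4 ∣ K → ∀ η c1 δ e C3 C4 k : ℝ, 0 < η → η ≤ 1 / 4 →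
  0 < c1 → c1 ≤ η / 20 → 0 < δ → δ ≤ c1 / 1000 → 0 < e → e ≤ c1 / 1000 → 0 < C3 → 0 < C4 →
  0 < k → ∀ r0 : ℕ, ∃ H0 : ℕ, ∀ H : ℕ, H0 ≤ H →
  ∀ (i0 : ZMod K) (x0 y0 : ℕ), η * H ≤ x0 → η * H ≤ y0 → (x0 : ℝ) ≤ (1 - η) * H →
    (y0 : ℝ) ≤ (1 - η) * H →
  ∀ (B : Finset (Finset (TV K H))) (Q Z : Finset (TV K H)) (t1 : ℕ), Apart B →
    c1 * H - 1 ≤ t1 → (t1 : ℝ) ≤ c1 * H →
    (∀ f ∈ Q, Nr t1 (sq i0 x0 y0) f) → (∀ f ∈ Q, f ∉ un B) →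
    0.48 * (t1 : ℝ) ^ 2 ≤ Q.card + C4 * H → (Z.card : ℝ) ≤ C3 * H →
    100 / δ * (H : ℝ) ^ 2 ≤ (un B).card →
  ∀ lam : ℝ, 0 ≤ lam → lam ≤ 0.9 * H →
    (∀ S ∈ B, S.Nonempty → NearTo Q Z r0 k e t1 lam (un B) S) ∨
    (∃ S ∈ B, (Sᶜ.card : ℝ) ≤ 100 / δ * (H : ℝ) ^ 2 ∧
      (lam ≤ c1 * H / 100 → NearTo Q Z r0 k e t1 lam (un B) S)) ∨
    (∃ S ∈ B, NearTo Q Z r0 k e t1 lam (un B) S ∧
      ((un B).card : ℝ) ≤ S.card + 100 / δ * (H : ℝ) ^ 2 ∧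
      (t1 + lam + (2 * e + 4 * δ) * H ≤ H / 16 →
        ((un B).card : ℝ) ≤ S.card + 17 * (t1 + lam + (2 * e + 4 * δ) * H) ^ 2))

end Pool.Agent.H13.FG
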